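import Pool.Agent.Work.MP_e9f12e_ag.MilDefs

/-!
# MilB: lengths of four more pieces

PROOF. `hK` together with `jac_le` gives `mPow 4 K ≤` each of the ideals below.
* `(y, B, C, D) = (y, x^2 + z w, z^3, w^3)` (modulo `y`: `C = 4 z^3 + w^3`, `D = z^3 + 4 w^3`,
  `4 C - D = 15 z^3`, `4 D - C = 15 w^3`); `len4_pow4` with exponents `(1, 1, 3, 3)`:
  `9 * len4 y (x^2 + z w) z w = 9 * len4 y (x^2) z w = 18`. (Permute generators with the swaps.)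
* `(A, x, C, D) = (y^2 + z w, x, z^3, w^3)`: the same, 18.
* `(A, B, w, D) = (x^2, y^2, w, z^3 + x y)` (modulo `w`: `3 A - B = 8 x^2`, `3 B - A = 8 y^2`);
  `len4_pow4` with exponents `(2, 2, 1, 1)`: `4 * len4 x y w (z^3 + x y) = 4 * len4 x y w (z^3) = 12`.
* `(A, B, C, z) = (x^2, y^2, w^3 + x y, z)`: 12.
-/

namespace HV

private theorem span_le4 {a b c d a' b' c' d' : Germ 4}
    (ha : ∃ p q r s, a = p * a' + q * b' + r * c' + s * d')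
    (hb : ∃ p q r s, b = p * a' + q * b' + r * c' + s * d')
    (hc : ∃ p q r s, c = p * a' + q * b' + r * c' + s * d')
    (hd : ∃ p q r s, d = p * a' + q * b' + r * c' + s * d') :
    (Ideal.span {a, b, c, d} : Ideal (Germ 4)) ≤ Ideal.span {a', b', c', d'} := by
  rw [Ideal.span_le]
  intro g hg
  simp only [Set.mem_insert_iff, Set.mem_singleton_iff] at hg
  rcases hg with rfl | rfl | rfl | rfl
  · exact mem_spanQ.2 ha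
  · exact mem_spanQ.2 hb
  · exact mem_spanQ.2 hc
  · exact mem_spanQ.2 hd

private theorem exists_inv15 : ∃ e : Germ 4, 15 * e = 1 :=
  ⟨algebraMap ℂ _ (1 / 15), by
    rw [← map_ofNat (algebraMap ℂ (Germ 4)) 15, ← map_mul, ← map_one (algebraMap ℂ (Germ 4))]
    norm_num⟩

private theorem exists_inv8 : ∃ e : Germ 4, 8 * e = 1 :=
  ⟨algebraMap ℂ _ (1 / 8), by
    rw [← map_ofNat (algebraMap ℂ (Germ 4)) 8, ← map_mul, ← map_one (algebraMap ℂ (Germ 4))]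
    norm_num⟩

theorem len_yBCD (K : ℕ) (hK : mPow 4 K ≤ jacobianIdeal f0) : len4 gy gB gC gD = 18 := by
  obtain ⟨e, he⟩ := exists_inv15
  have h1 : (Ideal.span {gy, gB, gC, gD} : Ideal (Germ 4)) =
      Ideal.span {gy ^ 1, (gx ^ 2 + gz * gw) ^ 1, gz ^ 3, gw ^ 3} := by
    apply le_antisymm
    · exact span_le4 ⟨1, 0, 0, 0, by ring⟩ ⟨3 * gy, 1, 0, 0, by rw [gB]; ring⟩
        ⟨gx, 0, 4, 1, by rw [gC]; ring⟩ ⟨gx, 0, 1, 4, by rw [gD]; ring⟩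
    · exact span_le4 ⟨1, 0, 0, 0, by ring⟩ ⟨-3 * gy, 1, 0, 0, by rw [gB]; ring⟩
        ⟨-3 * e * gx, 0, 4 * e, -e, by rw [gC, gD]; linear_combination (-gz ^ 3) * he⟩
        ⟨-3 * e * gx, 0, -e, 4 * e, by rw [gC, gD]; linear_combination (-gw ^ 3) * he⟩
  have h2 : (Ideal.span {gy, gx ^ 2 + gz * gw, gz, gw} : Ideal (Germ 4)) =
      Ideal.span {gx ^ 2, gy ^ 1, gz ^ 1, gw ^ 1} := by
    apply le_antisymm
    · exact span_le4 ⟨0, 1, 0, 0, by ring⟩ ⟨1, 0, gw, 0, by ring⟩ ⟨0, 0, 1, 0, by ring⟩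
        ⟨0, 0, 0, 1, by ring⟩
    · exact span_le4 ⟨0, 1, -gw, 0, by ring⟩ ⟨1, 0, 0, 0, by ring⟩ ⟨0, 0, 1, 0, by ring⟩
        ⟨0, 0, 0, 1, by ring⟩
  rw [len4_congr h1, len4_pow4 _ _ _ _ 1 1 3 3 K, len4_congr h2, len4_var_pow]
  rw [← h1]
  exact hK.trans (jac_le (Dvd.intro _ rfl) (Dvd.intro_left _ rfl) (Dvd.intro_left _ rfl)
    (Dvd.intro_left _ rfl))

theorem len_AxCD (K : ℕ) (hK : mPow 4 K ≤ jacobianIdeal f0) : len4 gA gx gC gD = 18 := by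
  obtain ⟨e, he⟩ := exists_inv15
  have h1 : (Ideal.span {gA, gx, gC, gD} : Ideal (Germ 4)) =
      Ideal.span {(gy ^ 2 + gz * gw) ^ 1, gx ^ 1, gz ^ 3, gw ^ 3} := by
    apply le_antisymm
    · exact span_le4 ⟨1, 3 * gx, 0, 0, by rw [gA]; ring⟩ ⟨0, 1, 0, 0, by ring⟩
        ⟨0, gy, 4, 1, by rw [gC]; ring⟩ ⟨0, gy, 1, 4, by rw [gD]; ring⟩
    · exact span_le4 ⟨1, -3 * gx, 0, 0, by rw [gA]; ring⟩ ⟨0, 1, 0, 0, by ring⟩
        ⟨0, -3 * e * gy, 4 * e, -e, by rw [gC, gD]; linear_combination (-gz ^ 3) * he⟩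
        ⟨0, -3 * e * gy, -e, 4 * e, by rw [gC, gD]; linear_combination (-gw ^ 3) * he⟩
  have h2 : (Ideal.span {gy ^ 2 + gz * gw, gx, gz, gw} : Ideal (Germ 4)) =
      Ideal.span {gx ^ 1, gy ^ 2, gz ^ 1, gw ^ 1} := by
    apply le_antisymm
    · exact span_le4 ⟨0, 1, gw, 0, by ring⟩ ⟨1, 0, 0, 0, by ring⟩ ⟨0, 0, 1, 0, by ring⟩
        ⟨0, 0, 0, 1, by ring⟩
    · exact span_le4 ⟨0, 1, 0, 0, by ring⟩ ⟨1, 0, -gw, 0, by ring⟩ ⟨0, 0, 1, 0, by ring⟩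
        ⟨0, 0, 0, 1, by ring⟩
  rw [len4_congr h1, len4_pow4 _ _ _ _ 1 1 3 3 K, len4_congr h2, len4_var_pow]
  rw [← h1]
  exact hK.trans (jac_le (Dvd.intro_left _ rfl) (Dvd.intro _ rfl) (Dvd.intro_left _ rfl)
    (Dvd.intro_left _ rfl))

theorem len_ABwD (K : ℕ) (hK : mPow 4 K ≤ jacobianIdeal f0) : len4 gA gB gw gD = 12 := by
  obtain ⟨e, he⟩ := exists_inv8
  have h1 : (Ideal.span {gA, gB, gw, gD} : Ideal (Germ 4)) =
      Ideal.span {gx ^ 2, gy ^ 2, gw ^ 1, (gz ^ 3 + gx * gy) ^ 1} := by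
    apply le_antisymm
    · exact span_le4 ⟨3, 1, gz, 0, by rw [gA]; ring⟩ ⟨1, 3, gz, 0, by rw [gB]; ring⟩
        ⟨0, 0, 1, 0, by ring⟩ ⟨0, 0, 4 * gw ^ 2, 1, by rw [gD]; ring⟩
    · exact span_le4
        ⟨3 * e, -e, -2 * e * gz, 0, by rw [gA, gB]; linear_combination (-gx ^ 2) * he⟩
        ⟨-e, 3 * e, -2 * e * gz, 0, by rw [gA, gB]; linear_combination (-gy ^ 2) * he⟩
        ⟨0, 0, 1, 0, by ring⟩ ⟨0, 0, -4 * gw ^ 2, 1, by rw [gD]; ring⟩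
  have h2 : (Ideal.span {gx, gy, gw, gz ^ 3 + gx * gy} : Ideal (Germ 4)) =
      Ideal.span {gx ^ 1, gy ^ 1, gz ^ 3, gw ^ 1} := by
    apply le_antisymm
    · exact span_le4 ⟨1, 0, 0, 0, by ring⟩ ⟨0, 1, 0, 0, by ring⟩ ⟨0, 0, 0, 1, by ring⟩
        ⟨gy, 0, 1, 0, by ring⟩
    · exact span_le4 ⟨1, 0, 0, 0, by ring⟩ ⟨0, 1, 0, 0, by ring⟩ ⟨-gy, 0, 0, 1, by ring⟩
        ⟨0, 0, 1, 0, by ring⟩
  rw [len4_congr h1, len4_pow4 _ _ _ _ 2 2 1 1 K, len4_congr h2, len4_var_pow]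
  rw [← h1]
  exact hK.trans (jac_le (Dvd.intro_left _ rfl) (Dvd.intro_left _ rfl) (Dvd.intro _ rfl)
    (Dvd.intro_left _ rfl))

theorem len_ABCz (K : ℕ) (hK : mPow 4 K ≤ jacobianIdeal f0) : len4 gA gB gC gz = 12 := by
  obtain ⟨e, he⟩ := exists_inv8
  have h1 : (Ideal.span {gA, gB, gC, gz} : Ideal (Germ 4)) =
      Ideal.span {gx ^ 2, gy ^ 2, (gw ^ 3 + gx * gy) ^ 1, gz ^ 1} := by
    apply le_antisymm
    · exact span_le4 ⟨3, 1, 0, gw, by rw [gA]; ring⟩ ⟨1, 3, 0, gw, by rw [gB]; ring⟩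
        ⟨0, 0, 1, 4 * gz ^ 2, by rw [gC]; ring⟩ ⟨0, 0, 0, 1, by ring⟩
    · exact span_le4
        ⟨3 * e, -e, 0, -2 * e * gw, by rw [gA, gB]; linear_combination (-gx ^ 2) * he⟩
        ⟨-e, 3 * e, 0, -2 * e * gw, by rw [gA, gB]; linear_combination (-gy ^ 2) * he⟩
        ⟨0, 0, 1, -4 * gz ^ 2, by rw [gC]; ring⟩ ⟨0, 0, 0, 1, by ring⟩
  have h2 : (Ideal.span {gx, gy, gw ^ 3 + gx * gy, gz} : Ideal (Germ 4)) =
      Ideal.span {gx ^ 1, gy ^ 1, gz ^ 1, gw ^ 3} := by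
    apply le_antisymm
    · exact span_le4 ⟨1, 0, 0, 0, by ring⟩ ⟨0, 1, 0, 0, by ring⟩ ⟨gy, 0, 0, 1, by ring⟩
        ⟨0, 0, 1, 0, by ring⟩
    · exact span_le4 ⟨1, 0, 0, 0, by ring⟩ ⟨0, 1, 0, 0, by ring⟩ ⟨0, 0, 0, 1, by ring⟩
        ⟨-gy, 0, 1, 0, by ring⟩
  rw [len4_congr h1, len4_pow4 _ _ _ _ 2 2 1 1 K, len4_congr h2, len4_var_pow]
  rw [← h1]
  exact hK.trans (jac_le (Dvd.intro_left _ rfl) (Dvd.intro_left _ rfl) (Dvd.intro_left _ rfl)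
    (Dvd.intro _ rfl))

end HV
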