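import Pool.Agent.Work.MP_e9f12e_ag.MilDefs

/-!
# MilC: the length of the piece `(A, B, C, D)` is 24

PROOF. `(A, B, C, D) = ((x - y) (x + y), 4 x^2 + z w, z^3 - w^3, 5 z^3 + x y)` since
`A - B = 2 (x^2 - y^2)`, `3 A - B = 8 x^2 + 2 z w`, `C - D = 3 (z^3 - w^3)`, `4 C - D = 15 z^3 + 3 x y`
(all invertible combinations). With `ω` a primitive cube root of unity (`ω^2 + ω + 1 = 0`),
`z^3 - w^3 = (z - w) (z - ω w) (z - ω^2 w)`. By `len4_mul` (twice for the third generator, once for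
the first) the length is the sum over `s = ±1`, `ζ^3 = 1` of the lengths of the six ideals
`(x - s y, 4 x^2 + z w, z - ζ w, 5 z^3 + x y)`. Such an ideal contains, modulo `x - s y`, `z - ζ w`:
`u = 4 y^2 + ζ w^2` and `v = 5 w^3 + s y^2` (`s^2 = 1`, `ζ^3 = 1`). `4 s v - u = w^2 (20 s w - ζ)` and
`20 s w - ζ` is a unit (`isUnit_germ`, constant term `-ζ ≠ 0`), so the ideal is
`(x - s y, z - ζ w, w^2, y^2)`; by `len4_pow4` with exponents `(1, 1, 2, 2)`: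
`4 * len4 (x - s y) (z - ζ w) w y = 4 * len4 x z w y = 4`. Total `6 * 4 = 24`.
(`hK` with `jac_le`: all these ideals contain `(A, B, C, D) ⊇ J ⊇ mPow 4 K`.) You may choose any
other proof.
-/

namespace HV

private theorem span_le4 {a b c d a' b' c' d' : Germ 4}
    (ha : ∃ p q r s, a = p * a' + q * b' + r * c' + s * d')
    (hb : ∃ p q r s, b = p * a' + q * b' + r * c' + s * d')
    (hc : ∃ p q r s, c = p * a' + q * b' + r * c' + s * d')
    (hd : ∃ p q r s, d = p * a' + q * b' + r * c' + s * d') :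
    (Ideal.span {a, b, c, d} : Ideal (Germ 4)) ≤ Ideal.span {a', b', c', d'} := by
  rw [Ideal.span_le]
  intro g hg
  simp only [Set.mem_insert_iff, Set.mem_singleton_iff] at hg
  rcases hg with rfl | rfl | rfl | rfl
  · exact mem_spanQ.2 ha
  · exact mem_spanQ.2 hb
  · exact mem_spanQ.2 hc
  · exact mem_spanQ.2 hd

private theorem exists_inv_nat (n : ℕ) (hn : n ≠ 0) : ∃ e : Germ 4, (n : Germ 4) * e = 1 :=
  ⟨algebraMap ℂ _ (1 / n), by
    rw [← map_natCast (algebraMap ℂ (Germ 4)) n, ← map_mul, ← map_one (algebraMap ℂ (Germ 4))]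
    congr 1
    field_simp⟩

private theorem const_ser (c : ℂ) :
    MvPowerSeries.constantCoeff (Germ.ser (algebraMap ℂ (Germ 4) c)) = c := by
  rw [AlgHom.commutes, MvPowerSeries.algebraMap_apply]
  simp

private theorem const_gw : MvPowerSeries.constantCoeff (Germ.ser gw) = 0 := by
  classical
  rw [gw, mon, ser_mono, ← MvPowerSeries.coeff_zero_eq_constantCoeff_apply,
    MvPowerSeries.coeff_monomial, if_neg]
  intro h
  simpa using DFunLike.congr_fun h 3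

private theorem len_line (s ζ : ℂ) (hs : s ^ 2 = 1) (hζ : ζ ^ 3 = 1) (K : ℕ)
    (hK : mPow 4 K ≤ (Ideal.span {gx - algebraMap ℂ _ s * gy, 4 * gx ^ 2 + gz * gw,
      gz - algebraMap ℂ _ ζ * gw, 5 * gz ^ 3 + gx * gy} : Ideal (Germ 4))) :
    len4 (gx - algebraMap ℂ _ s * gy) (4 * gx ^ 2 + gz * gw) (gz - algebraMap ℂ _ ζ * gw)
      (5 * gz ^ 3 + gx * gy) = 4 := by
  have hζ0 : ζ ≠ 0 := by
    rintro rfl
    norm_num at hζ
  have hu : IsUnit (20 * algebraMap ℂ (Germ 4) s * gw - algebraMap ℂ (Germ 4) ζ) := by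
    apply isUnit_germ
    rw [map_sub, map_sub, map_mul, map_mul Germ.ser, map_mul, const_gw, mul_zero, const_ser,
      zero_sub]
    exact neg_ne_zero.2 hζ0
  obtain ⟨t, ht⟩ := hu.exists_left_inv
  obtain ⟨e, he⟩ := exists_inv_nat 4 (by norm_num)
  rw [Nat.cast_ofNat] at he
  have hs' : (algebraMap ℂ (Germ 4) s) ^ 2 = 1 := by rw [← map_pow, hs, map_one]
  have hζ' : (algebraMap ℂ (Germ 4) ζ) ^ 3 = 1 := by rw [← map_pow, hζ, map_one]
  revert ht hs' hζ' hK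
  generalize algebraMap ℂ (Germ 4) s = S
  generalize algebraMap ℂ (Germ 4) ζ = Z
  intro hK ht hs' hζ'
  have h1 : (Ideal.span {gx - S * gy, 4 * gx ^ 2 + gz * gw, gz - Z * gw, 5 * gz ^ 3 + gx * gy} :
      Ideal (Germ 4)) =
      Ideal.span {(gx - S * gy) ^ 1, (gz - Z * gw) ^ 1, gw ^ 2, gy ^ 2} := by
    apply le_antisymm
    · exact span_le4 ⟨1, 0, 0, 0, by ring⟩ ⟨4 * (gx + S * gy), gw, Z, 4 * S ^ 2, by ring⟩
        ⟨0, 1, 0, 0, by ring⟩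
        ⟨gy, 5 * (gz ^ 2 + gz * (Z * gw) + Z ^ 2 * gw ^ 2), 5 * Z ^ 3 * gw, S, by ring⟩
    · have h2 : gw ^ 2 = (t * (4 * (gx + S * gy)) - 4 * t * S * gy) * (gx - S * gy) +
          (-t) * (4 * gx ^ 2 + gz * gw) +
          (t * gw - 4 * t * S * (5 * (gz ^ 2 + gz * (Z * gw) + Z ^ 2 * gw ^ 2))) * (gz - Z * gw) +
          (4 * t * S) * (5 * gz ^ 3 + gx * gy) := by
        linear_combination (-gw ^ 2) * ht - 20 * t * S * gw ^ 3 * hζ'
      refine span_le4 ⟨1, 0, 0, 0, by ring⟩ ⟨0, 0, 1, 0, by ring⟩ ⟨_, _, _, _, h2⟩ ?_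
      have h3 : gy ^ 2 = (-e * (4 * (gx + S * gy))) * (gx - S * gy) +
          e * (4 * gx ^ 2 + gz * gw) + (-e * gw) * (gz - Z * gw) + (-e * Z) * gw ^ 2 := by
        linear_combination (-gy ^ 2 * S ^ 2) * he - gy ^ 2 * hs'
      exact ⟨-e * (4 * (gx + S * gy)) - e * Z * (t * (4 * (gx + S * gy)) - 4 * t * S * gy),
        e + e * Z * t, -e * gw - e * Z *
          (t * gw - 4 * t * S * (5 * (gz ^ 2 + gz * (Z * gw) + Z ^ 2 * gw ^ 2))),
        - e * Z * (4 * t * S), by linear_combination h3 + (-e * Z) * h2⟩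
  have h2 : (Ideal.span {gx - S * gy, gz - Z * gw, gw, gy} : Ideal (Germ 4)) =
      Ideal.span {gx ^ 1, gy ^ 1, gz ^ 1, gw ^ 1} := by
    apply le_antisymm
    · exact span_le4 ⟨1, -S, 0, 0, by ring⟩ ⟨0, 0, 1, -Z, by ring⟩ ⟨0, 0, 0, 1, by ring⟩
        ⟨0, 1, 0, 0, by ring⟩
    · exact span_le4 ⟨1, 0, 0, S, by ring⟩ ⟨0, 0, 0, 1, by ring⟩ ⟨0, 1, Z, 0, by ring⟩
        ⟨0, 0, 1, 0, by ring⟩
  rw [len4_congr h1, len4_pow4 _ _ _ _ 1 1 2 2 K, len4_congr h2, len4_var_pow]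
  rw [← h1]
  exact hK

private theorem exists_cube : ∃ ω : ℂ, ω ^ 2 + ω + 1 = 0 := by
  obtain ⟨δ, hδ⟩ := IsAlgClosed.exists_pow_nat_eq (-3 : ℂ) (n := 2) (by norm_num)
  exact ⟨(-1 + δ) / 2, by linear_combination (1 / 4 : ℂ) * hδ⟩

private theorem len_quad (s : ℂ) (hs : s ^ 2 = 1) (K : ℕ)
    (hK : mPow 4 K ≤ (Ideal.span {gx - algebraMap ℂ _ s * gy, 4 * gx ^ 2 + gz * gw,
      gz ^ 3 - gw ^ 3, 5 * gz ^ 3 + gx * gy} : Ideal (Germ 4))) :
    len4 (gx - algebraMap ℂ _ s * gy) (4 * gx ^ 2 + gz * gw) (gz ^ 3 - gw ^ 3)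
      (5 * gz ^ 3 + gx * gy) = 12 := by
  obtain ⟨ω, hω⟩ := exists_cube
  have h3 : ω ^ 3 = 1 := by linear_combination (ω - 1) * hω
  have h3' : (ω ^ 2) ^ 3 = 1 := by rw [← pow_mul, mul_comm, pow_mul, h3, one_pow]
  have hω' : (algebraMap ℂ (Germ 4) ω) ^ 2 + algebraMap ℂ (Germ 4) ω + 1 = 0 := by
    rw [← map_pow, ← map_add, ← map_one (algebraMap ℂ (Germ 4)), ← map_add, hω, map_zero]
  have e1 : gz ^ 3 - gw ^ 3 = (gz - algebraMap ℂ _ 1 * gw) *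
      ((gz - algebraMap ℂ _ ω * gw) * (gz - algebraMap ℂ _ (ω ^ 2) * gw)) := by
    rw [map_one, map_pow]
    revert hω'
    generalize algebraMap ℂ (Germ 4) ω = Z
    intro hω'
    linear_combination ((gz - gw) * (gz * gw - gw ^ 2 * (Z - 1))) * hω'
  have hle : ∀ c d : Germ 4, (Ideal.span {gx - algebraMap ℂ _ s * gy, 4 * gx ^ 2 + gz * gw,
      c * d, 5 * gz ^ 3 + gx * gy} : Ideal (Germ 4)) ≤
      Ideal.span {gx - algebraMap ℂ _ s * gy, 4 * gx ^ 2 + gz * gw,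
      c, 5 * gz ^ 3 + gx * gy} := fun c d => span_le4 ⟨1, 0, 0, 0, by ring⟩ ⟨0, 1, 0, 0, by ring⟩
        ⟨0, 0, d, 0, by ring⟩ ⟨0, 0, 0, 1, by ring⟩
  have hle' : ∀ c d : Germ 4, (Ideal.span {gx - algebraMap ℂ _ s * gy, 4 * gx ^ 2 + gz * gw,
      c * d, 5 * gz ^ 3 + gx * gy} : Ideal (Germ 4)) ≤
      Ideal.span {gx - algebraMap ℂ _ s * gy, 4 * gx ^ 2 + gz * gw,
      d, 5 * gz ^ 3 + gx * gy} := fun c d => by
    rw [mul_comm c d]
    exact hle d c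
  have l1 := len_line s 1 hs (one_pow 3) K
  have l2 := len_line s ω hs h3 K
  have l3 := len_line s (ω ^ 2) hs h3' K
  rw [e1] at hK ⊢
  have hK2 := hK.trans (hle' _ _)
  rw [len4_mul_trd _ _ _ _ _ K hK, len4_mul_trd _ _ _ _ _ K hK2,
    l1 (hK.trans (hle _ _)), l2 (hK2.trans (hle _ _)), l3 (hK2.trans (hle' _ _))]

theorem len_ABCD (K : ℕ) (hK : mPow 4 K ≤ jacobianIdeal f0) : len4 gA gB gC gD = 24 := by
  obtain ⟨e8, he8⟩ := exists_inv_nat 8 (by norm_num)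
  obtain ⟨e15, he15⟩ := exists_inv_nat 15 (by norm_num)
  rw [Nat.cast_ofNat] at he8 he15
  have h1 : (Ideal.span {gA, gB, gC, gD} : Ideal (Germ 4)) =
      Ideal.span {(gx - algebraMap ℂ _ 1 * gy) * (gx - algebraMap ℂ _ (-1) * gy),
        4 * gx ^ 2 + gz * gw, gz ^ 3 - gw ^ 3, 5 * gz ^ 3 + gx * gy} := by
    rw [map_neg, map_one]
    apply le_antisymm
    · exact span_le4 ⟨-1, 1, 0, 0, by rw [gA]; ring⟩ ⟨-3, 1, 0, 0, by rw [gB]; ring⟩
        ⟨0, 0, -1, 1, by rw [gC]; ring⟩ ⟨0, 0, -4, 1, by rw [gD]; ring⟩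
    · exact span_le4
        ⟨4 * e8, - 4 * e8, 0, 0, by
          rw [gA, gB]; linear_combination (-(gx ^ 2 - gy ^ 2)) * he8⟩
        ⟨12 * e8, -4 * e8, 0, 0, by
          rw [gA, gB]; linear_combination (-(4 * gx ^ 2 + gz * gw)) * he8⟩
        ⟨0, 0, 5 * e15, -5 * e15, by
          rw [gC, gD]; linear_combination (-(gz ^ 3 - gw ^ 3)) * he15⟩
        ⟨0, 0, 20 * e15, -5 * e15, by
          rw [gC, gD]; linear_combination (-(5 * gz ^ 3 + gx * gy)) * he15⟩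
  have hK1 : mPow 4 K ≤ (Ideal.span {gA, gB, gC, gD} : Ideal (Germ 4)) :=
    hK.trans (jac_le (Dvd.intro_left _ rfl) (Dvd.intro_left _ rfl) (Dvd.intro_left _ rfl)
    (Dvd.intro_left _ rfl))
  have hle : ∀ c d : Germ 4, (Ideal.span {c * d, 4 * gx ^ 2 + gz * gw,
      gz ^ 3 - gw ^ 3, 5 * gz ^ 3 + gx * gy} : Ideal (Germ 4)) ≤
      Ideal.span {c, 4 * gx ^ 2 + gz * gw,
      gz ^ 3 - gw ^ 3, 5 * gz ^ 3 + gx * gy} := fun c d =>
      span_le4 ⟨d, 0, 0, 0, by ring⟩ ⟨0, 1, 0, 0, by ring⟩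
        ⟨0, 0, 1, 0, by ring⟩ ⟨0, 0, 0, 1, by ring⟩
  have hle' : ∀ c d : Germ 4, (Ideal.span {c * d, 4 * gx ^ 2 + gz * gw,
      gz ^ 3 - gw ^ 3, 5 * gz ^ 3 + gx * gy} : Ideal (Germ 4)) ≤
      Ideal.span {d, 4 * gx ^ 2 + gz * gw,
      gz ^ 3 - gw ^ 3, 5 * gz ^ 3 + gx * gy} := fun c d => by
    rw [mul_comm c d]
    exact hle d c
  have l1 := len_quad 1 (one_pow 2) K
  have l2 := len_quad (-1) (by norm_num) K
  rw [h1] at hK1
  rw [len4_congr h1, len4_mul _ _ _ _ _ K hK1, l1 (hK1.trans (hle _ _)),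
    l2 (hK1.trans (hle' _ _))]

end HV
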