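import Pool.Agent.Work.MP_e9f12e_ag.MilA
import Pool.Agent.Work.MP_e9f12e_ag.MilB
import Pool.Agent.Work.MP_e9f12e_ag.MilC

/-!
# Milnor: the Milnor number of `f0` is 132

PROOF. `jac_eq`, so `finrank = len4 (y A) (x B) (w C) (z D)`; use `len4_mul` in each of the four
arguments (permuting with `len4_swap01` etc.; `hK` and `jac_le` for the hypotheses): the sum of the
16 lengths `1+3+3+9 + 2+6+6+18 + 2+6+6+18 + 4+12+12+24 = 132` of MilA, MilB, MilC.
-/

namespace HV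

private theorem jac_le4 {a b c d : Germ 4} (K : ℕ) (hK : mPow 4 K ≤ jacobianIdeal f0)
    (ha : a ∣ gy * gA) (hb : b ∣ gx * gB) (hc : c ∣ gw * gC) (hd : d ∣ gz * gD) :
    mPow 4 K ≤ Ideal.span {a, b, c, d} := hK.trans (jac_le ha hb hc hd)

private theorem split_fth (K : ℕ) (hK : mPow 4 K ≤ jacobianIdeal f0) {a b c : Germ 4}
    (ha : a ∣ gy * gA) (hb : b ∣ gx * gB) (hc : c ∣ gw * gC) :
    len4 a b c (gz * gD) = len4 a b c gz + len4 a b c gD :=
  len4_mul_fth _ _ _ _ _ K (jac_le4 K hK ha hb hc dvd_rfl)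

private theorem split_trd (K : ℕ) (hK : mPow 4 K ≤ jacobianIdeal f0) {a b d : Germ 4}
    (ha : a ∣ gy * gA) (hb : b ∣ gx * gB) (hd : d ∣ gz * gD) :
    len4 a b (gw * gC) d = len4 a b gw d + len4 a b gC d :=
  len4_mul_trd _ _ _ _ _ K (jac_le4 K hK ha hb dvd_rfl hd)

private theorem split_snd (K : ℕ) (hK : mPow 4 K ≤ jacobianIdeal f0) {a c d : Germ 4}
    (ha : a ∣ gy * gA) (hc : c ∣ gw * gC) (hd : d ∣ gz * gD) :
    len4 a (gx * gB) c d = len4 a gx c d + len4 a gB c d :=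
  len4_mul_snd _ _ _ _ _ K (jac_le4 K hK ha dvd_rfl hc hd)

private theorem split_fst (K : ℕ) (hK : mPow 4 K ≤ jacobianIdeal f0) {b c d : Germ 4}
    (hb : b ∣ gx * gB) (hc : c ∣ gw * gC) (hd : d ∣ gz * gD) :
    len4 (gy * gA) b c d = len4 gy b c d + len4 gA b c d :=
  len4_mul _ _ _ _ _ K (jac_le4 K hK dvd_rfl hb hc hd)

theorem finrank_milnor (K : ℕ) (hK : mPow 4 K ≤ jacobianIdeal f0) :
    Module.finrank ℂ (Germ 4 ⧸ jacobianIdeal f0) = 132 := by
  have hy : gy ∣ gy * gA := Dvd.intro _ rfl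
  have hA : gA ∣ gy * gA := Dvd.intro_left _ rfl
  have hx : gx ∣ gx * gB := Dvd.intro _ rfl
  have hB : gB ∣ gx * gB := Dvd.intro_left _ rfl
  have hw : gw ∣ gw * gC := Dvd.intro _ rfl
  have hC : gC ∣ gw * gC := Dvd.intro_left _ rfl
  have h1 : Module.finrank ℂ (Germ 4 ⧸ jacobianIdeal f0) =
      len4 (gy * gA) (gx * gB) (gw * gC) (gz * gD) := by
    rw [len4, jac_eq]
  rw [h1, split_fst K hK dvd_rfl dvd_rfl dvd_rfl, split_snd K hK hy dvd_rfl dvd_rfl,
    split_snd K hK hA dvd_rfl dvd_rfl, split_trd K hK hy hx dvd_rfl,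
    split_trd K hK hy hB dvd_rfl, split_trd K hK hA hx dvd_rfl, split_trd K hK hA hB dvd_rfl,
    split_fth K hK hy hx hw, split_fth K hK hy hx hC, split_fth K hK hy hB hw,
    split_fth K hK hy hB hC, split_fth K hK hA hx hw, split_fth K hK hA hx hC,
    split_fth K hK hA hB hw, split_fth K hK hA hB hC, len_yxwz, len_yxwD, len_yxCz, len_yxCD,
    len_yBwz, len_yBwD, len_yBCz, len_yBCD K hK, len_Axwz, len_AxwD, len_AxCz, len_AxCD K hK,
    len_ABwz, len_ABwD K hK, len_ABCz K hK, len_ABCD K hK]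

end HV
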