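import Pool.Agent.Work.MP_e9f12e_ag.RStar
import Pool.Agent.Work.MP_e9f12e_ag.Milnor

/-!
# BIndep: the 132 basis monomials are linearly independent modulo the Jacobian ideal

PROOF. The linear map `T : (BSet → ℂ) → Germ 4 ⧸ J`, `c ↦ ∑ c p [monP p]`, is surjective: `rstar 0`
with `Icl 0 = ⊤` (`Icl_of_nonpos`), `Rb 0 ≤ J`, `SpGe 0 ≤ span (monP '' BSet)`. Both sides have
dimension 132: `BSet.card = 132` (`decide +kernel`) and `finrank_milnor 13 mPow_le_jac`. So `T` is
injective (`LinearMap.injective_iff_surjective_of_finrank_eq_finrank`; the quotient is finite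
dimensional by `finite_of_mPow` or because `T` is surjective).
`SpGe_inf_jac`: an element of `SpGe b` is a combination `∑ p ∈ BSet, c p • monP p` with `c p = 0` if
`ordN p < b`.
-/

namespace HV

theorem card_BSet : BSet.card = 132 := by
  decide +kernel

private theorem bindep_aux (P : ℕ × ℕ × ℕ × ℕ → Prop) {g : Germ 4}
    (hg : g ∈ Submodule.span ℂ (monP '' {p | p ∈ BSet ∧ P p})) :
    ∃ c : ℕ × ℕ × ℕ × ℕ → ℂ, (∀ p, ¬ P p → c p = 0) ∧ g = ∑ p ∈ BSet, c p • monP p := by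
  classical
  induction hg using Submodule.span_induction with
  | mem x hx =>
    obtain ⟨p, ⟨hp, hP⟩, rfl⟩ := hx
    refine ⟨fun q => if q = p then 1 else 0, fun q hq => ?_, ?_⟩
    · refine if_neg ?_
      rintro rfl
      exact hq hP
    · rw [Finset.sum_eq_single p]
      · beta_reduce
        rw [if_pos rfl, one_smul]
      · intro q _ hq
        beta_reduce
        rw [if_neg hq, zero_smul]
      · intro h
        exact absurd hp h
  | zero =>
    exact ⟨fun _ => 0, fun _ _ => rfl, by simp⟩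
  | add x y _ _ hx hy =>
    obtain ⟨c, hc, rfl⟩ := hx
    obtain ⟨d, hd, rfl⟩ := hy
    refine ⟨fun p => c p + d p, fun p hp => by simp only [hc p hp, hd p hp, add_zero], ?_⟩
    rw [← Finset.sum_add_distrib]
    exact Finset.sum_congr rfl fun p _ => (add_smul _ _ _).symm
  | smul a x _ hx =>
    obtain ⟨c, hc, rfl⟩ := hx
    refine ⟨fun p => a * c p, fun p hp => by simp only [hc p hp, mul_zero], ?_⟩
    rw [Finset.smul_sum]
    exact Finset.sum_congr rfl fun p _ => by rw [smul_smul]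

/-- Elements of `SpGe b` as sums. -/
theorem mem_SpGe {b : ℤ} {g : Germ 4} (hg : g ∈ SpGe b) :
    ∃ c : ℕ × ℕ × ℕ × ℕ → ℂ, (∀ p, ordN p < b → c p = 0) ∧ g = ∑ p ∈ BSet, c p • monP p := by
  obtain ⟨c, hc, h⟩ := bindep_aux (fun p => b ≤ ordN p) hg
  exact ⟨c, fun p hp => hc p (not_le.2 hp), h⟩

/-- Elements of `Sp b` as sums. -/
theorem mem_Sp {b : ℤ} {g : Germ 4} (hg : g ∈ Sp b) :
    ∃ c : ℕ × ℕ × ℕ × ℕ → ℂ, (∀ p, ordN p ≠ b → c p = 0) ∧ g = ∑ p ∈ BSet, c p • monP p := by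
  obtain ⟨c, hc, h⟩ := bindep_aux (fun p => ordN p = b) hg
  exact ⟨c, hc, h⟩

theorem bindep (c : ℕ × ℕ × ℕ × ℕ → ℂ) (h : ∑ p ∈ BSet, c p • monP p ∈ jacobianIdeal f0) :
    ∀ p ∈ BSet, c p = 0 := by
  classical
  have hfin : Module.Finite ℂ (Germ 4 ⧸ jacobianIdeal f0) :=
    finite_of_mPow (jacobianIdeal f0) 13 mPow_le_jac
  have hrank : Module.finrank ℂ (Germ 4 ⧸ jacobianIdeal f0) = 132 :=
    finrank_milnor 13 mPow_le_jac
  let T : (BSet → ℂ) →ₗ[ℂ] (Germ 4 ⧸ jacobianIdeal f0) :=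
    (Ideal.Quotient.mkₐ ℂ (jacobianIdeal f0)).toLinearMap ∘ₗ
      (Fintype.linearCombination ℂ (fun p : BSet => monP p.1))
  have hT : ∀ d : ℕ × ℕ × ℕ × ℕ → ℂ, T (fun p => d p.1) =
      Ideal.Quotient.mk (jacobianIdeal f0) (∑ p ∈ BSet, d p • monP p) := by
    intro d
    change Ideal.Quotient.mk (jacobianIdeal f0)
      (Fintype.linearCombination ℂ (fun p : BSet => monP p.1) (fun p => d p.1)) = _
    rw [Fintype.linearCombination_apply, Finset.sum_coe_sort BSet (fun p => d p • monP p)]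
  have hsurj : Function.Surjective T := by
    intro x
    obtain ⟨g, rfl⟩ := Ideal.Quotient.mk_surjective x
    have h1 : g ∈ SpGe 0 ⊔ Rb 0 := rstar 0 (mem_Icl_of_nonpos le_rfl g)
    obtain ⟨s, hs, r, hr, rfl⟩ := Submodule.mem_sup.1 h1
    obtain ⟨d, -, hd⟩ := mem_SpGe hs
    refine ⟨fun p => d p.1, ?_⟩
    rw [hT, ← hd, Ideal.Quotient.mk_eq_mk_iff_sub_mem]
    have h2 : r ∈ jacobianIdeal f0 := Rb_le_jac 0 hr
    have h3 : s - (s + r) = -r := by ring
    rw [h3]
    exact neg_mem h2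
  have hinj : Function.Injective T := by
    refine (LinearMap.injective_iff_surjective_of_finrank_eq_finrank ?_).2 hsurj
    rw [Module.finrank_fintype_fun_eq_card, Fintype.card_coe, card_BSet, hrank]
  have h0 : T (fun p => c p.1) = T 0 := by
    rw [hT, map_zero]
    exact Ideal.Quotient.eq_zero_iff_mem.2 h
  intro p hp
  exact congrFun (hinj h0) ⟨p, hp⟩

theorem SpGe_inf_jac {b : ℤ} {g : Germ 4} (hg : g ∈ SpGe b) (hJ : g ∈ jacobianIdeal f0) :
    g = 0 := by
  obtain ⟨c, -, rfl⟩ := mem_SpGe hg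
  refine Finset.sum_eq_zero fun p hp => ?_
  rw [bindep c hJ p hp, zero_smul]

end HV
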