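import Pool.Agent.Work.MP_e9f12e_ag.F0

/-!
# The counterexample: basic objects

Coordinates `x = X 0`, `y = X 1`, `z = X 2`, `w = X 3` on `ℂ^4`,
`f0 = x^3 y + x y^3 + z^4 w + z w^4 + x y z w`.
The Newton filtration is given by the minimum of the four linear forms `lin k`
(in units of `1/60`); `x^m dx dy dz dw` has Newton order `(60 + min_k lin k m) / 60`.
-/

namespace HV

open MvPowerSeries

/-- The coefficients of the four linear forms (units `1/60`). -/
def wt : Fin 4 → Fin 4 → ℤ :=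
  ![![24, 12, 12, 12], ![12, 24, 12, 12], ![15, 15, 20, 10], ![15, 15, 10, 20]]

/-- The four linear forms on exponents. -/
def lin (k : Fin 4) (m : Fin 4 →₀ ℕ) : ℤ := ∑ i, wt k i * (m i : ℤ)

theorem lin_add (k : Fin 4) (m n : Fin 4 →₀ ℕ) : lin k (m + n) = lin k m + lin k n := by
  simp only [lin, Finsupp.add_apply, Nat.cast_add, mul_add, Finset.sum_add_distrib]

/-- The Newton order (units `1/60`, without the shift by `60`). -/
def ordF (m : Fin 4 →₀ ℕ) : ℤ := min (min (lin 0 m) (lin 1 m)) (min (lin 2 m) (lin 3 m))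

theorem le_ordF_iff (b : ℤ) (m : Fin 4 →₀ ℕ) : b ≤ ordF m ↔ ∀ k, b ≤ lin k m := by
  simp only [ordF, le_min_iff, Fin.forall_fin_succ, Fin.forall_fin_zero]
  constructor
  · rintro ⟨⟨h0, h1⟩, h2, h3⟩
    exact ⟨h0, h1, h2, h3, trivial⟩
  · rintro ⟨h0, h1, h2, h3, _⟩
    exact ⟨⟨h0, h1⟩, h2, h3⟩

@[simp] theorem ex_0 (x y z w : ℕ) : ex x y z w 0 = x := rfl
@[simp] theorem ex_1 (x y z w : ℕ) : ex x y z w 1 = y := rfl
@[simp] theorem ex_2 (x y z w : ℕ) : ex x y z w 2 = z := rfl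
@[simp] theorem ex_3 (x y z w : ℕ) : ex x y z w 3 = w := rfl

theorem ex_add (x y z w x' y' z' w' : ℕ) :
    ex x y z w + ex x' y' z' w' = ex (x + x') (y + y') (z + z') (w + w') := by
  ext i
  fin_cases i <;> rfl

theorem eq_ex (m : Fin 4 →₀ ℕ) : m = ex (m 0) (m 1) (m 2) (m 3) := by
  ext i
  fin_cases i <;> rfl

theorem lin_ex (k : Fin 4) (x y z w : ℕ) :
    lin k (ex x y z w) = wt k 0 * x + wt k 1 * y + wt k 2 * z + wt k 3 * w := by
  simp only [lin, Fin.sum_univ_four, ex_0, ex_1, ex_2, ex_3]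

theorem ordF_ex (x y z w : ℕ) : ordF (ex x y z w) =
    min (min (24 * (x : ℤ) + 12 * y + 12 * z + 12 * w) (12 * (x : ℤ) + 24 * y + 12 * z + 12 * w))
      (min (15 * (x : ℤ) + 15 * y + 20 * z + 10 * w) (15 * (x : ℤ) + 15 * y + 10 * z + 20 * w)) := by
  simp only [ordF, lin_ex]
  rfl

theorem ser_mono {n : ℕ} (m : Fin n →₀ ℕ) : (mono m).ser = monomial m 1 := rfl

theorem mono_mul {n : ℕ} (m p : Fin n →₀ ℕ) : mono m * mono p = mono (m + p) := by
  apply Germ.ext
  rw [map_mul, ser_mono, ser_mono, ser_mono, monomial_mul_monomial, one_mul]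

theorem mono_zero {n : ℕ} : mono (0 : Fin n →₀ ℕ) = 1 := by
  apply Germ.ext
  rw [ser_mono, map_one Germ.ser]
  rfl

/-- The coefficient of a germ. -/
noncomputable def co {n : ℕ} (m : Fin n →₀ ℕ) : Germ n →ₗ[ℂ] ℂ where
  toFun g := coeff m g.ser
  map_add' a b := by rw [map_add, map_add]
  map_smul' c a := by
    rw [map_smul, map_smul]
    rfl

theorem co_def {n : ℕ} (m : Fin n →₀ ℕ) (g : Germ n) : co m g = coeff m g.ser := rfl

theorem co_mono {n : ℕ} (m p : Fin n →₀ ℕ) [Decidable (m = p)] :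
    co m (mono p) = if m = p then 1 else 0 := by
  rw [co_def, ser_mono, coeff_monomial]
  split_ifs <;> rfl

theorem germ_ext_co {n : ℕ} {g h : Germ n} (H : ∀ m, co m g = co m h) : g = h :=
  Germ.ext (MvPowerSeries.ext H)

theorem mon_mul (x y z w x' y' z' w' : ℕ) :
    mon x y z w * mon x' y' z' w' = mon (x + x') (y + y') (z + z') (w + w') := by
  rw [mon, mon, mon, mono_mul, ex_add]

theorem pd_mono {n : ℕ} (i : Fin n) (m : Fin n →₀ ℕ) :
    pd i (mono m) = (m i : ℂ) • mono (m - Finsupp.single i 1) := by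
  classical
  apply germ_ext_co
  intro p
  rw [map_smul, co_mono, co_def, ser_pd, coeff_pderiv, ser_mono, coeff_monomial]
  by_cases h : p + Finsupp.single i 1 = m
  · have h' : p = m - Finsupp.single i 1 := by
      rw [← h, add_tsub_cancel_right]
    rw [if_pos h, if_pos h', ← h]
    simp
  · rw [if_neg h]
    by_cases h2 : p = m - Finsupp.single i 1
    · have h3 : m i = 0 := by
        by_contra h3
        apply h
        rw [h2]
        ext j
        simp only [Finsupp.add_apply, Finsupp.tsub_apply, Finsupp.single_apply]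
        by_cases hij : i = j
        · subst hij
          simp
          omega
        · simp [hij]
      simp [h3]
    · rw [if_neg h2]
      simp

theorem ex_sub_single0 (x y z w : ℕ) :
    ex x y z w - Finsupp.single 0 1 = ex (x - 1) y z w := by
  ext i; fin_cases i <;> simp [ex, Finsupp.equivFunOnFinite]

theorem ex_sub_single1 (x y z w : ℕ) :
    ex x y z w - Finsupp.single 1 1 = ex x (y - 1) z w := by
  ext i; fin_cases i <;> simp [ex, Finsupp.equivFunOnFinite]

theorem ex_sub_single2 (x y z w : ℕ) :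
    ex x y z w - Finsupp.single 2 1 = ex x y (z - 1) w := by
  ext i; fin_cases i <;> simp [ex, Finsupp.equivFunOnFinite]

theorem ex_sub_single3 (x y z w : ℕ) :
    ex x y z w - Finsupp.single 3 1 = ex x y z (w - 1) := by
  ext i; fin_cases i <;> simp [ex, Finsupp.equivFunOnFinite]

theorem pd0_mon (x y z w : ℕ) : pd 0 (mon x y z w) = (x : ℂ) • mon (x - 1) y z w := by
  rw [mon, pd_mono, ex_sub_single0, ex_0, mon]

theorem pd1_mon (x y z w : ℕ) : pd 1 (mon x y z w) = (y : ℂ) • mon x (y - 1) z w := by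
  rw [mon, pd_mono, ex_sub_single1, ex_1, mon]

theorem pd2_mon (x y z w : ℕ) : pd 2 (mon x y z w) = (z : ℂ) • mon x y (z - 1) w := by
  rw [mon, pd_mono, ex_sub_single2, ex_2, mon]

theorem pd3_mon (x y z w : ℕ) : pd 3 (mon x y z w) = (w : ℂ) • mon x y z (w - 1) := by
  rw [mon, pd_mono, ex_sub_single3, ex_3, mon]

theorem pd0_f0 : pd 0 f0 = (3 : ℂ) • mon 2 1 0 0 + mon 0 3 0 0 + mon 0 1 1 1 := by
  simp only [f0, map_add, pd0_mon]
  norm_num

theorem pd1_f0 : pd 1 f0 = mon 3 0 0 0 + (3 : ℂ) • mon 1 2 0 0 + mon 1 0 1 1 := by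
  simp only [f0, map_add, pd1_mon]
  norm_num

theorem pd2_f0 : pd 2 f0 = (4 : ℂ) • mon 0 0 3 1 + mon 0 0 0 4 + mon 1 1 0 1 := by
  simp only [f0, map_add, pd2_mon]
  norm_num

theorem pd3_f0 : pd 3 f0 = mon 0 0 4 0 + (4 : ℂ) • mon 0 0 1 3 + mon 1 1 1 0 := by
  simp only [f0, map_add, pd3_mon]
  norm_num

/-- The germs of Newton order at least `b` (units `1/60`, without the shift by `60`). -/
def Icl (b : ℤ) : Submodule ℂ (Germ 4) where
  carrier := {g | ∀ m, co m g ≠ 0 → ∀ k, b ≤ lin k m}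
  zero_mem' := fun m h => absurd (map_zero (co m)) h
  add_mem' := by
    intro a c ha hc m hm
    rw [map_add] at hm
    by_cases h : co m a = 0
    · exact hc m (by rwa [h, zero_add] at hm)
    · exact ha m h
  smul_mem' := by
    intro c a ha m hm
    rw [map_smul] at hm
    exact ha m fun h => hm (by rw [h, smul_zero])

/-- The coefficients of `g` allowed in `∂f/∂x_i * g` for Newton order `b + 60`. -/
def KI (i : Fin 4) (b : ℤ) : Submodule ℂ (Germ 4) where
  carrier := {g | ∀ m, co m g ≠ 0 → ∀ k, b + wt k i ≤ lin k m}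
  zero_mem' := fun m h => absurd (map_zero (co m)) h
  add_mem' := by
    intro a c ha hc m hm
    rw [map_add] at hm
    by_cases h : co m a = 0
    · exact hc m (by rwa [h, zero_add] at hm)
    · exact ha m h
  smul_mem' := by
    intro c a ha m hm
    rw [map_smul] at hm
    exact ha m fun h => hm (by rw [h, smul_zero])

/-- Combinations `∑ ∂f0/∂x_i g_i` with `g_i` of order at least `b - 60`. -/
noncomputable def Rb (b : ℤ) : Submodule ℂ (Germ 4) :=
  ⨆ i : Fin 4, (KI i (b - 60)).map (LinearMap.mulLeft ℂ (pd i f0))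

/-- The 132 exponents of the monomial basis of the Milnor algebra: the terminal monomials of the
rewriting system. -/
def IsTerm (x y z w : ℕ) : Prop :=
  let A : ℤ := 24 * x + 12 * y + 12 * z + 12 * w
  let B : ℤ := 12 * x + 24 * y + 12 * z + 12 * w
  let C : ℤ := 15 * x + 15 * y + 20 * z + 10 * w
  let D : ℤ := 15 * x + 15 * y + 10 * z + 20 * w
  let o : ℤ := min (min A B) (min C D)
  (3 ≤ x → A < o + 24) ∧ (3 ≤ y → B < o + 24) ∧ (4 ≤ z → C < o + 30) ∧ (4 ≤ w → D < o + 30) ∧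
    (x = 0 ∨ y = 0 ∨ z = 0 ∨ w = 0 ∨ (x = 1 ∧ y = 1 ∧ z = 1 ∧ w = 1) ∨
      (x = 2 ∧ y = 2 ∧ z = 2 ∧ w = 2))

instance (x y z w : ℕ) : Decidable (IsTerm x y z w) := by
  unfold IsTerm
  infer_instance

/-- The set of the 132 exponents. -/
def BSet : Finset (ℕ × ℕ × ℕ × ℕ) :=
  (Finset.range 5 ×ˢ Finset.range 5 ×ˢ Finset.range 5 ×ˢ Finset.range 5).filter
    fun p => IsTerm p.1 p.2.1 p.2.2.1 p.2.2.2

/-- The order as a function of four natural numbers. -/
def ordN (p : ℕ × ℕ × ℕ × ℕ) : ℤ :=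
  min (min (24 * (p.1 : ℤ) + 12 * p.2.1 + 12 * p.2.2.1 + 12 * p.2.2.2)
      (12 * (p.1 : ℤ) + 24 * p.2.1 + 12 * p.2.2.1 + 12 * p.2.2.2))
    (min (15 * (p.1 : ℤ) + 15 * p.2.1 + 20 * p.2.2.1 + 10 * p.2.2.2)
      (15 * (p.1 : ℤ) + 15 * p.2.1 + 10 * p.2.2.1 + 20 * p.2.2.2))

/-- The monomial germ with exponent `p`. -/
noncomputable def monP (p : ℕ × ℕ × ℕ × ℕ) : Germ 4 := mon p.1 p.2.1 p.2.2.1 p.2.2.2

/-- The span of the basis monomials of order exactly `b`. -/
noncomputable def Sp (b : ℤ) : Submodule ℂ (Germ 4) :=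
  Submodule.span ℂ (monP '' {p | p ∈ BSet ∧ ordN p = b})

/-- The span of the basis monomials of order at least `b`. -/
noncomputable def SpGe (b : ℤ) : Submodule ℂ (Germ 4) :=
  Submodule.span ℂ (monP '' {p | p ∈ BSet ∧ b ≤ ordN p})

end HV
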