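import Mathlib

/-!
# Spectrum of isolated hypersurface singularities: definitions

* `Germ n`: the ring of convergent power series in `n` complex variables, i.e. the ring of germs
  at the origin of holomorphic functions on `ℂ^n`.
* `GaussManin f`: the Gauss-Manin system of the germ `f`,
  `Ω^n[∂_t, ∂_t⁻¹] / (d - ∂_t df ∧) Ω^(n-1)[∂_t, ∂_t⁻¹]`; an element of `Ω^n[∂_t, ∂_t⁻¹]` is a finitely
  supported function `ℤ →₀ Germ n`, where `single k g` stands for `∂_t^(-k) g dx_1 ... dx_n`.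
* `dtInv f`, `dt f`, `tMul f`: the actions of `∂_t⁻¹`, `∂_t` and `t` on it.
* `brieskorn f`: the Brieskorn lattice `H''_0`, the image of `Ω^n`.
* `IsVFiltration f V`: `V` is the Kashiwara-Malgrange filtration (the V-filtration).
* `specMult f V α = dim Gr_V^α (H''_0 / ∂_t⁻¹ H''_0)`.
* `bernoulliMoment`: the Bernoulli moments of a tuple of rational numbers.
-/

namespace HV

open MvPowerSeries

theorem succ_le_two_pow (a : ℕ) : ((a : ℝ) + 1) ≤ 2 ^ a := by
  have h : a + 1 ≤ 2 ^ a := Nat.lt_two_pow_self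
  exact_mod_cast h

theorem card_antidiagonal_le {n : ℕ} (m : Fin n →₀ ℕ) :
    ((Finset.HasAntidiagonal.antidiagonal m).card : ℝ) ≤ 2 ^ (∑ i, m i) := by
  classical
  have h1 : (Finset.HasAntidiagonal.antidiagonal m).card ≤ (Finset.Iic m).card := by
    apply Finset.card_le_card_of_injOn (fun p => p.1)
    · intro p hp
      have hp' := Finset.HasAntidiagonal.mem_antidiagonal.mp (Finset.mem_coe.mp hp)
      rw [Finset.coe_Iic, Set.mem_Iic, ← hp']
      exact le_self_add
    · intro p hp q hq h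
      have hp' := Finset.HasAntidiagonal.mem_antidiagonal.mp (Finset.mem_coe.mp hp)
      have hq' := Finset.HasAntidiagonal.mem_antidiagonal.mp (Finset.mem_coe.mp hq)
      have h' : p.1 = q.1 := h
      refine Prod.ext h' ?_
      rw [← hq', h'] at hp'
      exact add_left_cancel hp'
  have h2 : (Finset.Iic m).card = ∏ i, (m i + 1) := by
    rw [Finsupp.card_Iic]
    rw [Finset.prod_subset (Finset.subset_univ m.support)]
    · exact Finset.prod_congr rfl fun i _ => Nat.card_Iic _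
    · intro i _ hi
      rw [Finsupp.notMem_support_iff.mp hi]
      rfl
  calc ((Finset.HasAntidiagonal.antidiagonal m).card : ℝ) ≤ ((Finset.Iic m).card : ℝ) := by
        exact_mod_cast h1
    _ = ∏ i, ((m i : ℝ) + 1) := by rw [h2]; push_cast; rfl
    _ ≤ ∏ i, (2 : ℝ) ^ (m i) :=
        Finset.prod_le_prod (fun i _ => by positivity) fun i _ => succ_le_two_pow _
    _ = 2 ^ (∑ i, m i) := by rw [Finset.prod_pow_eq_pow_sum]

theorem sum_add' {n : ℕ} (p q : Fin n →₀ ℕ) : ∑ i, (p + q) i = ∑ i, p i + ∑ i, q i := by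
  simp [Finset.sum_add_distrib]

/-- The growth condition of a convergent power series. -/
def IsConvergent {n : ℕ} (g : MvPowerSeries (Fin n) ℂ) : Prop :=
  ∃ C r : ℝ, 0 < r ∧ ∀ m : Fin n →₀ ℕ, ‖coeff m g‖ * r ^ (∑ i, m i) ≤ C

theorem IsConvergent.mono_radius {n : ℕ} {g : MvPowerSeries (Fin n) ℂ} {C r s : ℝ} (hs : 0 < s)
    (hsr : s ≤ r) (h : ∀ m : Fin n →₀ ℕ, ‖coeff m g‖ * r ^ (∑ i, m i) ≤ C) :
    ∀ m : Fin n →₀ ℕ, ‖coeff m g‖ * s ^ (∑ i, m i) ≤ C := by
  intro m
  refine le_trans ?_ (h m)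
  gcongr

theorem IsConvergent.mul {n : ℕ} {f g : MvPowerSeries (Fin n) ℂ} (hf : IsConvergent f)
    (hg : IsConvergent g) : IsConvergent (f * g) := by
  classical
  obtain ⟨C, r, hr, hC⟩ := hf
  obtain ⟨D, s, hs, hD⟩ := hg
  have hρ : 0 < min r s := lt_min hr hs
  have hC' := IsConvergent.mono_radius hρ (min_le_left r s) hC
  have hD' := IsConvergent.mono_radius hρ (min_le_right r s) hD
  set ρ := min r s with hρdef
  have hC0 : 0 ≤ C := le_trans (by positivity) (hC 0)
  refine ⟨C * D, ρ / 2, by positivity, fun m => ?_⟩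
  rw [coeff_mul]
  calc ‖∑ p ∈ Finset.HasAntidiagonal.antidiagonal m, coeff p.1 f * coeff p.2 g‖ * (ρ / 2) ^ (∑ i, m i)
      ≤ (∑ p ∈ Finset.HasAntidiagonal.antidiagonal m, ‖coeff p.1 f * coeff p.2 g‖)
          * (ρ / 2) ^ (∑ i, m i) := by
        gcongr
        exact norm_sum_le _ _
    _ = ∑ p ∈ Finset.HasAntidiagonal.antidiagonal m,
          (‖coeff p.1 f‖ * ρ ^ (∑ i, p.1 i)) * (‖coeff p.2 g‖ * ρ ^ (∑ i, p.2 i))
            * (1 / 2) ^ (∑ i, m i) := by
        rw [Finset.sum_mul]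
        refine Finset.sum_congr rfl fun p hp => ?_
        have hp' := Finset.HasAntidiagonal.mem_antidiagonal.mp hp
        rw [norm_mul, div_eq_mul_one_div ρ 2, mul_pow, ← hp', sum_add', pow_add]
        ring
    _ ≤ ∑ p ∈ Finset.HasAntidiagonal.antidiagonal m, (C * D) * (1 / 2) ^ (∑ i, m i) := by
        refine Finset.sum_le_sum fun p _ => ?_
        gcongr
        · exact hC' p.1
        · exact hD' p.2
    _ = ((Finset.HasAntidiagonal.antidiagonal m).card : ℝ) * (1 / 2) ^ (∑ i, m i) * (C * D) := by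
        rw [Finset.sum_const, nsmul_eq_mul]
        ring
    _ ≤ 2 ^ (∑ i, m i) * (1 / 2) ^ (∑ i, m i) * (C * D) := by
        have hD0 : 0 ≤ D := le_trans (by positivity) (hD 0)
        gcongr
        exact card_antidiagonal_le m
    _ = C * D := by
        rw [← mul_pow]
        norm_num

theorem IsConvergent.add {n : ℕ} {f g : MvPowerSeries (Fin n) ℂ} (hf : IsConvergent f)
    (hg : IsConvergent g) : IsConvergent (f + g) := by
  obtain ⟨C, r, hr, hC⟩ := hf
  obtain ⟨D, s, hs, hD⟩ := hg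
  have hρ : 0 < min r s := lt_min hr hs
  have hC' := IsConvergent.mono_radius hρ (min_le_left r s) hC
  have hD' := IsConvergent.mono_radius hρ (min_le_right r s) hD
  refine ⟨C + D, min r s, hρ, fun m => ?_⟩
  rw [map_add]
  calc ‖coeff m f + coeff m g‖ * (min r s) ^ (∑ i, m i)
      ≤ (‖coeff m f‖ + ‖coeff m g‖) * (min r s) ^ (∑ i, m i) := by
        gcongr
        exact norm_add_le _ _
    _ = ‖coeff m f‖ * (min r s) ^ (∑ i, m i) + ‖coeff m g‖ * (min r s) ^ (∑ i, m i) := by ring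
    _ ≤ C + D := add_le_add (hC' m) (hD' m)

theorem IsConvergent.pderiv {n : ℕ} (i : Fin n) {f : MvPowerSeries (Fin n) ℂ}
    (hf : IsConvergent f) : IsConvergent (MvPowerSeries.pderiv ℂ i f) := by
  classical
  obtain ⟨C, r, hr, hC⟩ := hf
  have hC0 : 0 ≤ C := le_trans (by positivity) (hC 0)
  refine ⟨C / r, r / 2, by positivity, fun m => ?_⟩
  rw [coeff_pderiv]
  have h1 : ∑ j, (m + Finsupp.single i 1 : Fin n →₀ ℕ) j = ∑ j, m j + 1 := by
    rw [sum_add']
    congr 1
    simp [Finsupp.single_apply]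
  have h2 := hC (m + Finsupp.single i 1)
  rw [h1] at h2
  have h3 : ‖((m i : ℂ) + 1)‖ ≤ 2 ^ (∑ j, m j) := by
    have h4 : ‖((m i : ℂ) + 1)‖ = (m i : ℝ) + 1 := by
      have : ((m i : ℂ) + 1) = (((m i : ℝ) + 1 : ℝ) : ℂ) := by push_cast; rfl
      rw [this, Complex.norm_real, Real.norm_of_nonneg (by positivity)]
    rw [h4]
    refine le_trans (succ_le_two_pow _) ?_
    have h5 : m i ≤ ∑ j, m j := Finset.single_le_sum (fun j _ => Nat.zero_le _) (Finset.mem_univ i)
    exact pow_le_pow_right₀ (by norm_num) h5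
  calc ‖coeff (m + Finsupp.single i 1) f * ((m i : ℂ) + 1)‖ * (r / 2) ^ (∑ j, m j)
      = ‖coeff (m + Finsupp.single i 1) f‖ * ‖((m i : ℂ) + 1)‖ * (r / 2) ^ (∑ j, m j) := by
        rw [norm_mul]
    _ ≤ ‖coeff (m + Finsupp.single i 1) f‖ * 2 ^ (∑ j, m j) * (r / 2) ^ (∑ j, m j) := by gcongr
    _ = (‖coeff (m + Finsupp.single i 1) f‖ * r ^ (∑ j, m j + 1)) / r := by
        rw [div_pow, pow_succ]
        field_simp
    _ ≤ C / r := by gcongr

/-- The subalgebra of convergent power series: those whose coefficients satisfy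
`‖a_m‖ r^|m| ≤ C` for some `r > 0` and some `C`. -/
noncomputable def convergentSeries (n : ℕ) : Subalgebra ℂ (MvPowerSeries (Fin n) ℂ) where
  carrier := {g | IsConvergent g}
  mul_mem' := fun hf hg => IsConvergent.mul hf hg
  add_mem' := fun hf hg => IsConvergent.add hf hg
  algebraMap_mem' := by
    classical
    intro c
    refine ⟨‖c‖, 1, one_pos, fun m => ?_⟩
    rw [one_pow, mul_one]
    change ‖coeff m (C c)‖ ≤ ‖c‖
    rw [coeff_C]
    split_ifs
    · exact le_refl _
    · rw [norm_zero]; exact norm_nonneg _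

/-- The ring of germs at the origin of holomorphic functions on `ℂ^n`, i.e. the ring of convergent
power series in `n` variables. -/
def Germ (n : ℕ) : Type := ↥(convergentSeries n)

noncomputable instance (n : ℕ) : CommRing (Germ n) :=
  inferInstanceAs (CommRing ↥(convergentSeries n))

noncomputable instance (n : ℕ) : Algebra ℂ (Germ n) :=
  inferInstanceAs (Algebra ℂ ↥(convergentSeries n))

noncomputable instance (n : ℕ) : AddCommGroup (Germ n) :=
  Ring.toAddCommGroup

noncomputable instance (n : ℕ) : AddCommMonoid (Germ n) :=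
  AddCommGroup.toAddCommMonoid

noncomputable instance (n : ℕ) : Module ℂ (Germ n) :=
  Algebra.toModule

noncomputable instance (n : ℕ) : Zero (Germ n) :=
  MulZeroClass.toZero

/-- The power series of a germ. -/
noncomputable def Germ.ser {n : ℕ} : Germ n →ₐ[ℂ] MvPowerSeries (Fin n) ℂ :=
  (convergentSeries n).val

/-- A convergent power series as a germ. -/
def Germ.mk {n : ℕ} (g : MvPowerSeries (Fin n) ℂ) (h : IsConvergent g) : Germ n := ⟨g, h⟩

@[simp] theorem Germ.ser_mk {n : ℕ} (g : MvPowerSeries (Fin n) ℂ) (h : IsConvergent g) :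
    (Germ.mk g h).ser = g := rfl

theorem Germ.conv {n : ℕ} (g : Germ n) : IsConvergent g.ser := g.2

theorem Germ.ext {n : ℕ} {g h : Germ n} (H : g.ser = h.ser) : g = h := Subtype.ext H

/-- The partial derivative `∂/∂x_i` on germs. -/
noncomputable def pd {n : ℕ} (i : Fin n) : Germ n →ₗ[ℂ] Germ n where
  toFun g := Germ.mk (MvPowerSeries.pderiv ℂ i g.ser) (IsConvergent.pderiv i g.conv)
  map_add' a b := Germ.ext (map_add (MvPowerSeries.pderiv ℂ i) a.ser b.ser)
  map_smul' c a := Germ.ext ((MvPowerSeries.pderiv ℂ i).map_smul c a.ser)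

theorem ser_pd {n : ℕ} (i : Fin n) (g : Germ n) :
    (pd i g).ser = MvPowerSeries.pderiv ℂ i g.ser := rfl

/-- The Jacobian ideal `(∂f/∂x_1, ..., ∂f/∂x_n)`. -/
noncomputable def jacobianIdeal {n : ℕ} (f : Germ n) : Ideal (Germ n) :=
  Ideal.span (Set.range fun i => pd i f)

/-- The Milnor number. -/
noncomputable def milnorNumber {n : ℕ} (f : Germ n) : ℕ :=
  Module.finrank ℂ (Germ n ⧸ jacobianIdeal f)

/-- `f` defines an isolated hypersurface singularity: `f(0) = 0`, the origin is a critical point,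
and it is an isolated critical point, i.e. the Milnor algebra has finite dimension. -/
def IsIsolatedSingularity {n : ℕ} (f : Germ n) : Prop :=
  constantCoeff f.ser = 0 ∧ (∀ i, constantCoeff (pd i f).ser = 0) ∧
    Module.Finite ℂ (Germ n ⧸ jacobianIdeal f)

/-- The relations `∂_t^(-k-1) [∂g/∂x_i dx] = ∂_t^(-k) [∂f/∂x_i g dx]` of the Gauss-Manin system. -/
noncomputable def relations {n : ℕ} (f : Germ n) : Submodule ℂ (ℤ →₀ Germ n) :=
  Submodule.span ℂ {r | ∃ (k : ℤ) (i : Fin n) (g : Germ n),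
    r = Finsupp.single (k + 1) (pd i g) - Finsupp.single k (pd i f * g)}

/-- The Gauss-Manin system of `f`. -/
def GaussManin {n : ℕ} (f : Germ n) : Type := (ℤ →₀ Germ n) ⧸ relations f

noncomputable instance {n : ℕ} (f : Germ n) : AddCommGroup (GaussManin f) :=
  Submodule.Quotient.addCommGroup (relations f)

noncomputable instance {n : ℕ} (f : Germ n) : Module ℂ (GaussManin f) :=
  Submodule.Quotient.module (relations f)

/-- The class of an element of `Ω^n[∂_t, ∂_t⁻¹]` in the Gauss-Manin system. -/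
noncomputable def toGM {n : ℕ} (f : Germ n) : (ℤ →₀ Germ n) →ₗ[ℂ] GaussManin f :=
  (relations f).mkQ

/-- The class of `∂_t^(-k) g dx_1 ... dx_n` in the Gauss-Manin system. -/
noncomputable def cls {n : ℕ} (f : Germ n) (k : ℤ) : Germ n →ₗ[ℂ] GaussManin f :=
  toGM f ∘ₗ Finsupp.lsingle k

/-- Multiplication by `∂_t^(-j)` on `Ω^n[∂_t, ∂_t⁻¹]`. -/
noncomputable def shiftFun (n : ℕ) (j : ℤ) : (ℤ →₀ Germ n) →ₗ[ℂ] (ℤ →₀ Germ n) :=
  Finsupp.lmapDomain (Germ n) ℂ (fun k => k + j)

theorem shiftFun_single {n : ℕ} (j k : ℤ) (g : Germ n) :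
    shiftFun n j (Finsupp.single k g) = Finsupp.single (k + j) g := by
  simp [shiftFun]

theorem shiftFun_relations {n : ℕ} (f : Germ n) (j : ℤ) :
    relations f ≤ (relations f).comap (shiftFun n j) := by
  rw [relations, Submodule.span_le]
  rintro r ⟨k, i, g, rfl⟩
  refine Submodule.subset_span ⟨k + j, i, g, ?_⟩
  rw [map_sub, shiftFun_single, shiftFun_single]
  congr 2
  ring

/-- Multiplication by `∂_t^(-j)` on the Gauss-Manin system. -/
noncomputable def dtPow {n : ℕ} (f : Germ n) (j : ℤ) : GaussManin f →ₗ[ℂ] GaussManin f :=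
  (relations f).mapQ (relations f) (shiftFun n j) (shiftFun_relations f j)

/-- The action of `∂_t⁻¹`. -/
noncomputable def dtInv {n : ℕ} (f : Germ n) : GaussManin f →ₗ[ℂ] GaussManin f := dtPow f 1

/-- The action of `∂_t`. -/
noncomputable def dt {n : ℕ} (f : Germ n) : GaussManin f →ₗ[ℂ] GaussManin f := dtPow f (-1)

/-- `t ∂_t^(-k) g = ∂_t^(-k) f g + k ∂_t^(-k-1) g`. -/
noncomputable def tTerm {n : ℕ} (f : Germ n) (k : ℤ) (g : Germ n) : ℤ →₀ Germ n :=
  Finsupp.single k (f * g) + Finsupp.single (k + 1) ((k : ℂ) • g)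

theorem tTerm_zero {n : ℕ} (f : Germ n) (k : ℤ) : tTerm f k 0 = 0 := by
  simp [tTerm]

theorem tTerm_add {n : ℕ} (f : Germ n) (k : ℤ) (g h : Germ n) :
    tTerm f k (g + h) = tTerm f k g + tTerm f k h := by
  simp only [tTerm, mul_add, smul_add, Finsupp.single_add]
  abel

theorem tTerm_smul {n : ℕ} (f : Germ n) (k : ℤ) (c : ℂ) (g : Germ n) :
    tTerm f k (c • g) = c • tTerm f k g := by
  simp only [tTerm, mul_smul_comm, smul_add, Finsupp.smul_single, smul_comm c (k : ℂ) g]

/-- The action of `t` on `Ω^n[∂_t, ∂_t⁻¹]`: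
`t ∂_t^(-k) g = ∂_t^(-k) f g + k ∂_t^(-k-1) g`. -/
noncomputable def tFun {n : ℕ} (f : Germ n) : (ℤ →₀ Germ n) →ₗ[ℂ] (ℤ →₀ Germ n) where
  toFun y := y.sum (tTerm f)
  map_add' _ _ := Finsupp.sum_add_index' (tTerm_zero f) (tTerm_add f)
  map_smul' c y := by
    rw [Finsupp.sum_smul_index' (fun k => tTerm_zero f k), RingHom.id_apply, Finsupp.smul_sum]
    exact Finsupp.sum_congr fun k _ => tTerm_smul f k c (y k)

theorem tFun_single {n : ℕ} (f : Germ n) (k : ℤ) (g : Germ n) :
    tFun f (Finsupp.single k g) =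
      Finsupp.single k (f * g) + Finsupp.single (k + 1) ((k : ℂ) • g) :=
  Finsupp.sum_single_index (tTerm_zero f k)

theorem pd_mul {n : ℕ} (i : Fin n) (f g : Germ n) : pd i (f * g) = f * pd i g + pd i f * g := by
  apply Germ.ext
  rw [ser_pd, map_mul, Derivation.leibniz, map_add (Germ.ser), map_mul Germ.ser, map_mul Germ.ser,
    ser_pd, ser_pd]
  simp only [smul_eq_mul]
  ring

theorem tFun_relations {n : ℕ} (f : Germ n) :
    relations f ≤ (relations f).comap (tFun f) := by
  rw [relations, Submodule.span_le]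
  rintro r ⟨k, i, g, rfl⟩
  change tFun f _ ∈ Submodule.span ℂ _
  rw [map_sub, tFun_single, tFun_single]
  have h1 : Finsupp.single (k + 1) (pd i (f * g)) - Finsupp.single k (pd i f * (f * g)) ∈
      Submodule.span ℂ {r | ∃ (k : ℤ) (i : Fin n) (g : Germ n),
        r = Finsupp.single (k + 1) (pd i g) - Finsupp.single k (pd i f * g)} :=
    Submodule.subset_span ⟨k, i, f * g, rfl⟩
  have h2 : Finsupp.single (k + 1 + 1) (pd i g) - Finsupp.single (k + 1) (pd i f * g) ∈
      Submodule.span ℂ {r | ∃ (k : ℤ) (i : Fin n) (g : Germ n),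
        r = Finsupp.single (k + 1) (pd i g) - Finsupp.single k (pd i f * g)} :=
    Submodule.subset_span ⟨k + 1, i, g, rfl⟩
  have h3 := Submodule.sub_mem _ (Submodule.add_mem _ h1
    (Submodule.smul_mem _ ((k : ℂ) + 1) h2)) (Submodule.zero_mem _)
  convert h3 using 1
  rw [pd_mul, smul_sub, Finsupp.smul_single, Finsupp.smul_single, mul_left_comm f (pd i f) g,
    Finsupp.single_add, sub_zero]
  push_cast
  rw [add_smul, one_smul, Finsupp.single_add, add_smul, one_smul, Finsupp.single_add]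
  abel

/-- The action of `t`. -/
noncomputable def tMul {n : ℕ} (f : Germ n) : GaussManin f →ₗ[ℂ] GaussManin f :=
  (relations f).mapQ (relations f) (tFun f) (tFun_relations f)

/-- The Brieskorn lattice `H''_0`, the image of `Ω^n` in the Gauss-Manin system. -/
noncomputable def brieskorn {n : ℕ} (f : Germ n) : Submodule ℂ (GaussManin f) :=
  LinearMap.range (cls f 0)

/-- `V^{>α} = ⋃_{β > α} V^β`. -/
def VGT {M : Type*} [AddCommGroup M] [Module ℂ M] (V : ℚ → Submodule ℂ M) (α : ℚ) :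
    Submodule ℂ M := ⨆ β : {β : ℚ // α < β}, V β.1

/-- `V` is the V-filtration (Kashiwara-Malgrange filtration) of the Gauss-Manin system of `f`:
a decreasing filtration indexed discretely by rational numbers, with `∂_t⁻¹ V^α = V^(α+1)` and
`t V^α ⊆ V^(α+1)`, commensurable with the Brieskorn lattice, such that `∂_t t - α` is nilpotent on
`V^α / V^{>α}`. -/
structure IsVFiltration {n : ℕ} (f : Germ n) (V : ℚ → Submodule ℂ (GaussManin f)) : Prop where
  /-- `V` is decreasing -/
  anti : ∀ α β, α ≤ β → V β ≤ V α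
  /-- `V` is indexed discretely and is left continuous -/
  discrete : ∃ N : ℕ, 0 < N ∧ ∀ α, V α = V ((⌈(N : ℚ) * α⌉ : ℚ) / N)
  /-- `∂_t⁻¹ V^α = V^(α+1)` -/
  shift : ∀ α, (V α).map (dtInv f) = V (α + 1)
  /-- `t V^α ⊆ V^(α+1)` -/
  stable : ∀ α, (V α).map (tMul f) ≤ V (α + 1)
  /-- `∂_t^(-k) H''_0 ⊆ V^α` and `∂_t^(-k) V^α ⊆ H''_0` for some `k` -/
  commensurable : ∀ α, ∃ k : ℕ, (brieskorn f).map (dtPow f k) ≤ V α ∧
    (V α).map (dtPow f k) ≤ brieskorn f
  /-- `∂_t t - α` is nilpotent on `V^α / V^{>α}` -/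
  nilpotent : ∀ α, ∃ k : ℕ, ∀ v ∈ V α,
    ((dt f ∘ₗ tMul f - (α : ℂ) • LinearMap.id : Module.End ℂ (GaussManin f)) ^ k) v ∈ VGT V α

/-- `(V^α ∩ H''_0) + ∂_t⁻¹ H''_0`. -/
noncomputable def specFil {n : ℕ} (f : Germ n) (W : Submodule ℂ (GaussManin f)) :
    Submodule ℂ (GaussManin f) :=
  (W ⊓ brieskorn f) ⊔ (brieskorn f).map (dtInv f)

/-- The multiplicity of `α` in the spectrum: `dim Gr_V^α (H''_0 / ∂_t⁻¹ H''_0)`. -/
noncomputable def specMult {n : ℕ} (f : Germ n) (V : ℚ → Submodule ℂ (GaussManin f)) (α : ℚ) : ℕ :=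
  Module.finrank ℂ (specFil f (V α) ⧸ (specFil f (VGT V α)).submoduleOf (specFil f (V α)))

/-- `Sp = (α_1 ≤ ... ≤ α_N)` is the normalized spectrum of `f`: `α_j + n/2` are the spectral
numbers, counted with multiplicity. (In this normalization of the V-filtration the spectral
numbers lie in the interval from `0` to `n` and are symmetric about `n/2`.) -/
def IsNormalizedSpectrum {n : ℕ} (f : Germ n) {N : ℕ} (a : Fin N → ℚ) : Prop :=
  Monotone a ∧ ∃ V, IsVFiltration f V ∧
    ∀ α : ℚ, specMult f V α = (Finset.univ.filter fun j => a j + n / 2 = α).card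

/-- The power series `log ((t/2) / sinh (t/2)) = ∑_{m ≥ 2 even} - B_m / m * t^m / m!`. -/
noncomputable def logSinh : PowerSeries ℚ :=
  PowerSeries.mk fun m => if m = 0 ∨ Odd m then 0 else -(bernoulli m) / m / (m.factorial : ℚ)

/-- The exponential of a power series without constant term. -/
noncomputable def expSeries (L : PowerSeries ℚ) : PowerSeries ℚ :=
  PowerSeries.mk fun m => ∑ j ∈ Finset.range (m + 1), PowerSeries.coeff m (L ^ j) / (j.factorial : ℚ)

/-- The Bernoulli moment: `∑_m bernoulliMoment a ν m * t^m / m! =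
(∑_j exp (a_j t)) * exp (ν log ((t/2) / sinh (t/2)))`. -/
noncomputable def bernoulliMoment {N : ℕ} (a : Fin N → ℚ) (ν : ℚ) (m : ℕ) : ℚ :=
  (m.factorial : ℚ) * PowerSeries.coeff m
    ((∑ j, PowerSeries.rescale (a j) (PowerSeries.exp ℚ)) * expSeries (PowerSeries.C ν * logSinh))

/-- The conjecture on the signs of the Bernoulli moments: for every isolated hypersurface
singularity `f` with normalized spectrum `α_1 ≤ ... ≤ α_N` and `ν = α_N - α_1`, and every `k ≥ 1`,
`(-1)^k Γ_{2k}(Sp, ν) ≥ 0`. -/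
def BernoulliMomentConjecture : Prop :=
  ∀ (m : ℕ) (f : Germ (m + 1)), IsIsolatedSingularity f →
    ∀ (N : ℕ) (a : Fin (N + 1) → ℚ), IsNormalizedSpectrum f a →
      ∀ k : ℕ, 1 ≤ k → 0 ≤ (-1) ^ k * bernoulliMoment a (a (Fin.last N) - a 0) (2 * k)

end HV
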