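import Pool.Agent.Work.MP_e9f12e_ag.Defs

/-!
# F0: the germ of the counterexample
-/

namespace HV

open MvPowerSeries

/-- The exponent `(x, y, z, w)`. -/
noncomputable def ex (x y z w : ℕ) : Fin 4 →₀ ℕ := Finsupp.equivFunOnFinite.symm ![x, y, z, w]

/-- Monomials are convergent. -/
theorem isConvergent_monomial {n : ℕ} (m : Fin n →₀ ℕ) (c : ℂ) :
    IsConvergent (monomial m c) := by
  classical
  refine ⟨‖c‖, 1, one_pos, fun p => ?_⟩
  rw [one_pow, mul_one, coeff_monomial]
  split_ifs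
  · exact le_refl _
  · rw [norm_zero]; exact norm_nonneg _

/-- The monomial germ `X^m`. -/
noncomputable def mono {n : ℕ} (m : Fin n →₀ ℕ) : Germ n := Germ.mk (monomial m 1) (isConvergent_monomial m 1)

/-- The monomial germ `x^a y^b z^c w^d`. -/
noncomputable def mon (x y z w : ℕ) : Germ 4 := mono (ex x y z w)

/-- The singularity `x^3 y + x y^3 + z^4 w + z w^4 + x y z w`. -/
noncomputable def f0 : Germ 4 :=
  mon 3 1 0 0 + mon 1 3 0 0 + mon 0 0 4 1 + mon 0 0 1 4 + mon 1 1 1 1

end HV
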