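import Pool.Agent.Work.MP_e9f12e_ag.Base

/-!
# Basic formulas in the Gauss-Manin system
-/

namespace HV

variable {n : ℕ} (f : Germ n)

theorem cls_eq (k : ℤ) (g : Germ n) : cls f k g = toGM f (Finsupp.single k g) := rfl

theorem dtPow_toGM (j : ℤ) (y : ℤ →₀ Germ n) : dtPow f j (toGM f y) = toGM f (shiftFun n j y) := rfl

theorem tMul_toGM (y : ℤ →₀ Germ n) : tMul f (toGM f y) = toGM f (tFun f y) := rfl

theorem toGM_eq_iff (y z : ℤ →₀ Germ n) : toGM f y = toGM f z ↔ y - z ∈ relations f :=
  Submodule.Quotient.eq _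

theorem toGM_surjective : Function.Surjective (toGM f) := Submodule.mkQ_surjective _

theorem dtPow_cls (j k : ℤ) (g : Germ n) : dtPow f j (cls f k g) = cls f (k + j) g := by
  rw [cls_eq, cls_eq, dtPow_toGM, shiftFun_single]

theorem dtInv_cls (k : ℤ) (g : Germ n) : dtInv f (cls f k g) = cls f (k + 1) g := dtPow_cls f 1 k g

theorem dt_cls (k : ℤ) (g : Germ n) : dt f (cls f k g) = cls f (k - 1) g := dtPow_cls f (-1) k g

theorem tMul_cls (k : ℤ) (g : Germ n) :
    tMul f (cls f k g) = cls f k (f * g) + (k : ℂ) • cls f (k + 1) g := by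
  rw [cls_eq, cls_eq, cls_eq, tMul_toGM, tFun_single, map_add, ← Finsupp.smul_single, map_smul]

theorem cls_rel (k : ℤ) (i : Fin n) (g : Germ n) :
    cls f (k + 1) (pd i g) = cls f k (pd i f * g) := by
  rw [cls_eq, cls_eq, toGM_eq_iff]
  exact Submodule.subset_span ⟨k, i, g, rfl⟩

/-- Every element is a finite sum of classes. -/
theorem gm_induction {p : GaussManin f → Prop} (h0 : p 0) (hadd : ∀ a b, p a → p b → p (a + b))
    (hcls : ∀ k g, p (cls f k g)) (x : GaussManin f) : p x := by
  obtain ⟨y, rfl⟩ := toGM_surjective f x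
  induction y using Finsupp.induction_linear with
  | zero => simpa using h0
  | add a b ha hb => rw [map_add]; exact hadd _ _ ha hb
  | single k g => exact hcls k g

theorem dtPow_zero (x : GaussManin f) : dtPow f 0 x = x := by
  induction x using gm_induction with
  | h0 => simp
  | hadd a b ha hb => rw [map_add, ha, hb]
  | hcls k g => rw [dtPow_cls, add_zero]

theorem dtPow_add (i j : ℤ) (x : GaussManin f) : dtPow f i (dtPow f j x) = dtPow f (i + j) x := by
  induction x using gm_induction with
  | h0 => simp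
  | hadd a b ha hb => simp only [map_add, ha, hb]
  | hcls k g => rw [dtPow_cls, dtPow_cls, dtPow_cls, show k + j + i = k + (i + j) by ring]

theorem dtPow_injective (j : ℤ) : Function.Injective (dtPow f j) := by
  intro x y h
  have := congrArg (dtPow f (-j)) h
  rwa [dtPow_add, dtPow_add, neg_add_cancel, dtPow_zero, dtPow_zero] at this

theorem dt_dtInv (x : GaussManin f) : dt f (dtInv f x) = x := by
  rw [dt, dtInv, dtPow_add]
  exact dtPow_zero f x

theorem dtInv_dt (x : GaussManin f) : dtInv f (dt f x) = x := by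
  rw [dt, dtInv, dtPow_add]
  exact dtPow_zero f x

/-- `t ∂_t^(-j) = ∂_t^(-j) t + j ∂_t^(-j-1)`. -/
theorem tMul_dtPow (j : ℤ) (x : GaussManin f) :
    tMul f (dtPow f j x) = dtPow f j (tMul f x) + (j : ℂ) • dtPow f (j + 1) x := by
  induction x using gm_induction with
  | h0 => simp
  | hadd a b ha hb =>
    simp only [map_add, ha, hb, smul_add]
    abel
  | hcls k g =>
    have h1 : tMul f (dtPow f j (cls f k g)) =
        cls f (k + j) (f * g) + ((k + j : ℤ) : ℂ) • cls f (k + j + 1) g := by
      rw [dtPow_cls, tMul_cls]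
    have h2 : dtPow f j (tMul f (cls f k g)) =
        cls f (k + j) (f * g) + (k : ℂ) • cls f (k + j + 1) g := by
      rw [tMul_cls, map_add, map_smul, dtPow_cls, dtPow_cls, show k + 1 + j = k + j + 1 by ring]
    have h3 : dtPow f (j + 1) (cls f k g) = cls f (k + j + 1) g := by
      rw [dtPow_cls, add_assoc]
    rw [h1, h2, h3]
    push_cast
    module

theorem mem_brieskorn {x : GaussManin f} : x ∈ brieskorn f ↔ ∃ g, cls f 0 g = x := Iff.rfl

/-- `∂_t⁻¹ H''_0 ⊆ H''_0` for `n ≥ 1`: every form is exact. -/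
theorem cls_one_mem (i : Fin n) (g h : Germ n) (hg : pd i g = h) :
    cls f 1 h = cls f 0 (pd i f * g) := by
  rw [← hg, ← cls_rel f 0 i g]
  rfl

end HV
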