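import Pool.Agent.Work.MP_e9f12e_ag.NDefs

/-!
# GMKey: `∂_t t` on monomial classes

For `k : Fin 4` let `vk k` be the exponent with `lin j (vk k) = 60` for `j ≠ k`,
`lin k (vk k) = 84` (`k = 0, 1`) or `90` (`k = 2, 3`), and `cst k = (lin k (vk k) - 60) / 60`.

PROOF of `key`. Euler vector field `E_k = ∑ i, (wt k i / 60) X_i ∂_i`: by `pd0_f0 .. pd3_f0` and
`mon_mul`: `∑ i, (wt k i / 60 : ℂ) • (mono (single i 1) * pd i f0) = f0 + cst k • mono (vk k)`
(four explicit cases; `single i 1` is `ex 1 0 0 0`, ...). For `g = mono m`: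
`∑ i, pd i ((wt k i / 60 : ℂ) • (mono (single i 1) * mono m)) = ((60 + lin k m) / 60) • mono m`
(`pd_mono` with exponent `m + single i 1`: coefficient `m i + 1`; `∑ i, wt k i = 60`).
Apply `cls f0 0`, and `cls f0 0 (pd i h) = cls f0 (-1) (pd i f0 * h)` (`cls_rel` with `k = -1`):
`((60 + lin k m) / 60) • cls f0 0 (mono m) = cls f0 (-1) ((f0 + cst k • mono (vk k)) * mono m)`.
Finally `dt (tMul (cls 0 g)) = cls (-1) (f0 * g)` (`tMul_cls`, `dt_cls`) and
`mono (vk k) * mono m = mono (m + vk k)`.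
-/

namespace HV

/-- The exponents of the monomials of `f0` other than `x y z w`. -/
noncomputable def vk : Fin 4 → (Fin 4 →₀ ℕ) := ![ex 3 1 0 0, ex 1 3 0 0, ex 0 0 4 1, ex 0 0 1 4]

/-- The constants. -/
noncomputable def cst : Fin 4 → ℂ := ![2 / 5, 2 / 5, 1 / 2, 1 / 2]

theorem lin_vk_ne {j k : Fin 4} (h : j ≠ k) : lin j (vk k) = 60 := by
  revert h
  fin_cases k <;> fin_cases j <;> intro h <;> first | exact absurd rfl h | skip
  all_goals
    simp only [vk]
    first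
    | (change lin _ (ex 3 1 0 0) = 60; rw [lin_ex]; rfl)
    | (change lin _ (ex 1 3 0 0) = 60; rw [lin_ex]; rfl)
    | (change lin _ (ex 0 0 4 1) = 60; rw [lin_ex]; rfl)
    | (change lin _ (ex 0 0 1 4) = 60; rw [lin_ex]; rfl)

theorem lin_vk_self (k : Fin 4) : 61 ≤ lin k (vk k) := by
  fin_cases k
  · change 61 ≤ lin 0 (ex 3 1 0 0)
    rw [lin_ex]; decide
  · change 61 ≤ lin 1 (ex 1 3 0 0)
    rw [lin_ex]; decide
  · change 61 ≤ lin 2 (ex 0 0 4 1)
    rw [lin_ex]; decide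
  · change 61 ≤ lin 3 (ex 0 0 1 4)
    rw [lin_ex]; decide

private theorem gk_single0 : (Finsupp.single 0 1 : Fin 4 →₀ ℕ) = ex 1 0 0 0 := by
  ext i; fin_cases i <;> simp [ex, Finsupp.equivFunOnFinite]

private theorem gk_single1 : (Finsupp.single 1 1 : Fin 4 →₀ ℕ) = ex 0 1 0 0 := by
  ext i; fin_cases i <;> simp [ex, Finsupp.equivFunOnFinite]

private theorem gk_single2 : (Finsupp.single 2 1 : Fin 4 →₀ ℕ) = ex 0 0 1 0 := by
  ext i; fin_cases i <;> simp [ex, Finsupp.equivFunOnFinite]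

private theorem gk_single3 : (Finsupp.single 3 1 : Fin 4 →₀ ℕ) = ex 0 0 0 1 := by
  ext i; fin_cases i <;> simp [ex, Finsupp.equivFunOnFinite]

private theorem gk_euler (k : Fin 4) :
    ∑ i : Fin 4, ((wt k i : ℂ) / 60) • (mono (Finsupp.single i 1) * pd i f0) =
      f0 + cst k • mono (vk k) := by
  rw [Fin.sum_univ_four, gk_single0, gk_single1, gk_single2, gk_single3, pd0_f0, pd1_f0, pd2_f0,
    pd3_f0]
  have e1 : ∀ x y z w, mono (ex x y z w) = mon x y z w := fun _ _ _ _ => rfl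
  simp only [e1, mul_add, mul_smul_comm, mon_mul, f0]
  fin_cases k
  · simp [wt, cst, vk, e1]
    module
  · simp [wt, cst, vk, e1]
    module
  · simp [wt, cst, vk, e1]
    module
  · simp [wt, cst, vk, e1]
    module

private theorem gk_sum60 (k : Fin 4) : (∑ i, wt k i : ℤ) = 60 := by
  revert k
  decide

private theorem gk_div (k : Fin 4) (m : Fin 4 →₀ ℕ) :
    ∑ i : Fin 4, pd i (((wt k i : ℂ) / 60) • (mono (Finsupp.single i 1) * mono m)) =
      (((60 + lin k m : ℤ) : ℂ) / 60) • mono m := by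
  have h : ∀ i : Fin 4, pd i (((wt k i : ℂ) / 60) • (mono (Finsupp.single i 1) * mono m)) =
      (((wt k i : ℂ) / 60) * ((m i : ℂ) + 1)) • mono m := by
    intro i
    rw [map_smul, mono_mul, pd_mono, smul_smul, add_tsub_cancel_left]
    congr 2
    simp [add_comm]
  rw [Finset.sum_congr rfl fun i _ => h i, ← Finset.sum_smul]
  congr 1
  have h2 : (∑ i, wt k i : ℤ) = 60 := gk_sum60 k
  have h3 : (∑ i, (wt k i : ℂ)) = 60 := by
    exact_mod_cast h2
  have h4 : ((lin k m : ℤ) : ℂ) = ∑ i, (wt k i : ℂ) * (m i : ℂ) := by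
    rw [lin]; push_cast; rfl
  push_cast
  rw [h4, ← h3, ← Finset.sum_add_distrib, Finset.sum_div]
  rw [h3]
  refine Finset.sum_congr rfl fun i _ => ?_
  ring

theorem key (k : Fin 4) (m : Fin 4 →₀ ℕ) :
    dt f0 (tMul f0 (cls f0 0 (mono m))) - (((60 + lin k m : ℤ) : ℂ) / 60) • cls f0 0 (mono m) =
      -(cst k • cls f0 (-1) (mono (m + vk k))) := by
  have h1 : dt f0 (tMul f0 (cls f0 0 (mono m))) = cls f0 (-1) (f0 * mono m) := by
    rw [tMul_cls]
    simp [dt_cls]
  have h2 : (((60 + lin k m : ℤ) : ℂ) / 60) • cls f0 0 (mono m) =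
      cls f0 (-1) ((f0 + cst k • mono (vk k)) * mono m) := by
    rw [← map_smul, ← gk_div, ← gk_euler, Finset.sum_mul, map_sum, map_sum]
    refine Finset.sum_congr rfl fun i _ => ?_
    have := cls_rel f0 (-1) i (((wt k i : ℂ) / 60) • (mono (Finsupp.single i 1) * mono m))
    rw [neg_add_cancel] at this
    rw [this]
    congr 1
    rw [mul_smul_comm, smul_mul_assoc, mul_left_comm, mul_assoc]
  rw [h1, h2, add_mul, map_add, smul_mul_assoc, mono_mul, map_smul, add_comm (vk k) m]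
  abel

end HV
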