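import Pool.Agent.Work.MP_e9f12e_ag.NDefs

/-!
# GMRb: classes of `Rb b` and of the Jacobian ideal are divisible by `∂_t⁻¹`

PROOF. `mem_Rb` gives `g = ∑ i, pd i f0 * u i`, `u i ∈ KI i (b - 60)`; by `cls_rel`
`cls f0 k g = cls f0 (k + 1) (∑ i, pd i (u i))` and `pd_mem_Icl`. For `cls_jac` use
`Ideal.mem_span_range_iff_exists_fun`.
-/

namespace HV

theorem cls_Rb {b k : ℤ} {g : Germ 4} (hg : g ∈ Rb b) :
    ∃ h ∈ Icl (b - 60), cls f0 k g = cls f0 (k + 1) h := by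
  obtain ⟨u, hu, rfl⟩ := mem_Rb.mp hg
  refine ⟨∑ i, pd i (u i), Submodule.sum_mem _ fun i _ => pd_mem_Icl (hu i), ?_⟩
  rw [map_sum, map_sum]
  exact Finset.sum_congr rfl fun i _ => (cls_rel f0 k i (u i)).symm

theorem cls_jac {n : ℕ} (f : Germ n) (k : ℤ) {g : Germ n} (hg : g ∈ jacobianIdeal f) :
    ∃ h, cls f k g = cls f (k + 1) h := by
  rw [jacobianIdeal, Ideal.mem_span_range_iff_exists_fun] at hg
  obtain ⟨c, rfl⟩ := hg
  refine ⟨∑ i, pd i (c i), ?_⟩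
  rw [map_sum, map_sum]
  refine Finset.sum_congr rfl fun i _ => ?_
  rw [cls_rel f k i (c i), mul_comm]

theorem cls_jac_mem {n : ℕ} (f : Germ n) {g : Germ n} (hg : g ∈ jacobianIdeal f) :
    cls f 0 g ∈ (brieskorn f).map (dtInv f) := by
  obtain ⟨h, hh⟩ := cls_jac f 0 hg
  refine ⟨cls f 0 h, ⟨h, rfl⟩, ?_⟩
  rw [dtInv_cls, hh]

end HV
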