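import Pool.Agent.Work.MP_e9f12e_ag.Base

/-!
# GSplit: splitting a germ along a finite set of monomials

PROOF. Define the power series `q i` by `coeff m (q i) = if c (m + e i) = i then coeff (m + e i) g
else 0`. It is convergent: `‖coeff m (q i)‖ r^|m| ≤ C r^(-|e i|)`. The coefficient of `x^p` in
`∑ i, x^(e i) * q i` is `∑ i, if e i ≤ p then coeff (p - e i) (q i) else 0 =
∑ i, if e i ≤ p ∧ c p = i then coeff p g else 0 = coeff p g` (if `coeff p g ≠ 0` then `e (c p) ≤ p`).
-/

namespace HV

open MvPowerSeries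

theorem split_germ {n : ℕ} {ι : Type} [Fintype ι] [DecidableEq ι] (e : ι → (Fin n →₀ ℕ))
    (c : (Fin n →₀ ℕ) → ι) (g : Germ n) (hc : ∀ m, co m g ≠ 0 → e (c m) ≤ m) :
    ∃ q : ι → Germ n, g = ∑ i, mono (e i) * q i ∧
      ∀ i m, co m (q i) = if c (m + e i) = i then co (m + e i) g else 0 := by
  obtain ⟨C, r, hr, hC⟩ := g.conv
  have hC0 : 0 ≤ C := le_trans (by positivity) (hC 0)
  let qs : ι → MvPowerSeries (Fin n) ℂ :=
    fun i m => if c (m + e i) = i then co (m + e i) g else 0
  have hqs : ∀ i m, coeff m (qs i) = if c (m + e i) = i then co (m + e i) g else 0 :=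
    fun i m => rfl
  have hconv : ∀ i, IsConvergent (qs i) := by
    intro i
    refine ⟨C / r ^ (∑ j, e i j), r, hr, fun m => ?_⟩
    rw [hqs]
    split_ifs
    · rw [le_div_iff₀ (by positivity)]
      have h1 := hC (m + e i)
      rw [sum_add', pow_add, ← mul_assoc] at h1
      exact h1
    · rw [norm_zero, zero_mul]
      positivity
  refine ⟨fun i => Germ.mk (qs i) (hconv i), ?_, fun i m => hqs i m⟩
  apply germ_ext_co
  intro p
  rw [map_sum]
  have h1 : ∀ i, co p (mono (e i) * Germ.mk (qs i) (hconv i)) =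
      if c p = i then co p g else 0 := by
    intro i
    rw [co_def, map_mul, ser_mono, Germ.ser_mk, coeff_monomial_mul, one_mul]
    by_cases h2 : e i ≤ p
    · rw [if_pos h2, hqs, tsub_add_cancel_of_le h2]
    · rw [if_neg h2]
      split_ifs with h3
      · by_contra h4
        apply h2
        rw [← h3]
        exact hc p fun h5 => h4 h5.symm
      · rfl
  rw [Finset.sum_congr rfl fun i _ => h1 i, Finset.sum_ite_eq]
  simp

end HV
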