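import Pool.Agent.Work.MP_e9f12e_ag.GUnit
import Pool.Agent.Work.MP_e9f12e_ag.GSplit

/-!
# GPow: powers of the maximal ideal of the ring of germs

`mPow n K` = germs vanishing to order at least `K`. PROOFS.
* `mPow_le_span`: `split_germ` with `ι` = the finite type of exponents of degree `K` (a subtype of
  the finite set `Finset.Iic (fun _ => K)` or `Finset.finsuppAntidiag`); for an exponent `m` with
  `|m| ≥ K` choose an exponent `e ≤ m` with `|e| = K` (induction or greedy).
* `mPow_mul`: an exponent of degree `K + L` is a sum of exponents of degrees `K` and `L`.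
* `mPow_one_le_jacobson`: `1 + h` is a unit for `h` without constant term (`isUnit_germ`):
  `Ideal.mem_jacobson_bot` or `mem_jacobson_iff`.
* `nakayama`: `mPow n K` is finitely generated (by `mPow_le_span`), and
  `mPow n (K+1) ≤ mPow n 1 * mPow n K`; apply
  `Submodule.le_of_le_smul_of_le_jacobson_bot` (from `N.FG`, `I ≤ jacobson ⊥`, `N ≤ N' ⊔ I • N`).
-/

namespace HV

open MvPowerSeries

/-- The germs vanishing to order at least `K` at the origin. -/
def mPow (n K : ℕ) : Ideal (Germ n) where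
  carrier := {g | ∀ m, ∑ i, m i < K → co m g = 0}
  zero_mem' := fun m _ => map_zero (co m)
  add_mem' := fun {a b} ha hb m hm => by rw [map_add, ha m hm, hb m hm, add_zero]
  smul_mem' := by
    intro c g hg m hm
    rw [smul_eq_mul, co_def, map_mul, coeff_mul]
    refine Finset.sum_eq_zero fun p hp => ?_
    have hp' := Finset.HasAntidiagonal.mem_antidiagonal.mp hp
    have h1 : ∑ i, p.2 i < K := by
      rw [← hp', sum_add'] at hm
      omega
    have h2 : coeff p.2 g.ser = 0 := hg p.2 h1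
    rw [h2, mul_zero]

theorem mem_mPow {n K : ℕ} {g : Germ n} : g ∈ mPow n K ↔ ∀ m, ∑ i, m i < K → co m g = 0 := Iff.rfl

private theorem mono_mem {n K : ℕ} {e : Fin n →₀ ℕ} (he : K ≤ ∑ i, e i) :
    mono e ∈ mPow n K := by
  classical
  intro m hm
  rw [co_mono, if_neg]
  rintro rfl
  omega

private theorem exists_le {n : ℕ} (K : ℕ) (m : Fin n →₀ ℕ) (h : K ≤ ∑ i, m i) :
    ∃ e : Fin n →₀ ℕ, e ≤ m ∧ ∑ i, e i = K := by
  induction K with
  | zero => exact ⟨0, zero_le, by simp⟩
  | succ K ih =>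
    obtain ⟨e, he, hK⟩ := ih (by omega)
    have h1 : ∃ i, e i < m i := by
      by_contra h2
      push Not at h2
      have : ∑ i, m i ≤ ∑ i, e i := Finset.sum_le_sum fun i _ => h2 i
      omega
    obtain ⟨i, hi⟩ := h1
    refine ⟨e + Finsupp.single i 1, ?_, ?_⟩
    · intro j
      rw [Finsupp.add_apply, Finsupp.single_apply]
      split_ifs with hij
      · subst hij
        omega
      · have := he j
        omega
    · rw [sum_add', hK]
      congr 1
      simp [Finsupp.single_apply]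

private theorem mem_fa {n K : ℕ} {e : Fin n →₀ ℕ} :
    e ∈ Finset.finsuppAntidiag Finset.univ K ↔ ∑ i, e i = K := by
  rw [Finset.mem_finsuppAntidiag]
  simp

theorem mPow_le_span (n K : ℕ) :
    mPow n K ≤ Ideal.span {g : Germ n | ∃ m : Fin n →₀ ℕ, ∑ i, m i = K ∧ g = mono m} := by
  classical
  intro g hg
  by_cases hne : Nonempty {e : Fin n →₀ ℕ // e ∈ Finset.finsuppAntidiag Finset.univ K}
  · obtain ⟨i0⟩ := hne
    have hex : ∀ m : Fin n →₀ ℕ,
        ∃ i : {e : Fin n →₀ ℕ // e ∈ Finset.finsuppAntidiag Finset.univ K},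
          K ≤ ∑ j, m j → i.1 ≤ m := by
      intro m
      by_cases hm : K ≤ ∑ j, m j
      · obtain ⟨e, he, hK⟩ := exists_le K m hm
        exact ⟨⟨e, mem_fa.2 hK⟩, fun _ => he⟩
      · exact ⟨i0, fun h => (hm h).elim⟩
    choose c hc using hex
    obtain ⟨q, hq, -⟩ := split_germ (fun i : {e : Fin n →₀ ℕ // e ∈ Finset.finsuppAntidiag Finset.univ K} => i.1) c g
      fun m hm => hc m (by
      by_contra h
      exact hm (hg m (by omega)))
    rw [hq]
    refine Ideal.sum_mem _ fun i _ => ?_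
    exact Ideal.mul_mem_right _ _ (Ideal.subset_span ⟨i.1, mem_fa.1 i.2, rfl⟩)
  · have : g = 0 := by
      apply germ_ext_co
      intro m
      rw [map_zero]
      apply hg
      by_contra h
      obtain ⟨e, he, hK⟩ := exists_le K m (by omega)
      exact hne ⟨⟨e, mem_fa.2 hK⟩⟩
    rw [this]
    exact Ideal.zero_mem _

theorem mPow_fg (n K : ℕ) : (mPow n K).FG := by
  classical
  refine ⟨(Finset.finsuppAntidiag Finset.univ K).image mono, ?_⟩
  apply le_antisymm
  · rw [Submodule.span_le]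
    intro g hg
    rw [Finset.mem_coe, Finset.mem_image] at hg
    obtain ⟨e, he, rfl⟩ := hg
    exact mono_mem (mem_fa.1 he).ge
  · refine (mPow_le_span n K).trans (Ideal.span_mono ?_)
    rintro _ ⟨m, hm, rfl⟩
    rw [Finset.mem_coe, Finset.mem_image]
    exact ⟨m, mem_fa.2 hm, rfl⟩

theorem mPow_mul (n K L : ℕ) : mPow n (K + L) ≤ mPow n K * mPow n L := by
  refine (mPow_le_span n (K + L)).trans ?_
  rw [Ideal.span_le]
  rintro _ ⟨m, hm, rfl⟩
  obtain ⟨e, he, hK⟩ := exists_le K m (by omega)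
  have h1 : m = e + (m - e) := (add_tsub_cancel_of_le he).symm
  have h2 : ∑ i, (m - e) i = L := by
    have := sum_add' e (m - e)
    rw [← h1, hm, hK] at this
    omega
  rw [h1, ← mono_mul]
  exact Ideal.mul_mem_mul (mono_mem hK.ge) (mono_mem h2.ge)

theorem mPow_one_le_jacobson (n : ℕ) : mPow n 1 ≤ Ideal.jacobson ⊥ := by
  intro h hh
  rw [Ideal.mem_jacobson_bot]
  intro y
  apply isUnit_germ
  have h1 : h * y ∈ mPow n 1 := Ideal.mul_mem_right _ _ hh
  have h2 : constantCoeff (h * y).ser = 0 := h1 0 (by simp)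
  rw [map_add, map_add, h2, zero_add, map_one, map_one]
  exact one_ne_zero

theorem nakayama {n : ℕ} (J : Ideal (Germ n)) (K : ℕ) (h : mPow n K ≤ J ⊔ mPow n (K + 1)) :
    mPow n K ≤ J := by
  refine Submodule.le_of_le_smul_of_le_jacobson_bot (mPow_fg n K) (mPow_one_le_jacobson n) ?_
  refine h.trans (sup_le_sup le_rfl ?_)
  rw [smul_eq_mul, add_comm K 1]
  exact mPow_mul n 1 K

/-- A quotient by an ideal containing a power of the maximal ideal is finite dimensional. -/
theorem finite_of_mPow {n : ℕ} (I : Ideal (Germ n)) (K : ℕ) (h : mPow n K ≤ I) :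
    Module.Finite ℂ (Germ n ⧸ I) := by
  classical
  let S : Finset (Fin n →₀ ℕ) :=
    (Finset.range K).biUnion fun k => Finset.finsuppAntidiag Finset.univ k
  have hS : ∀ m, m ∈ S ↔ ∑ i, m i < K := by
    intro m
    rw [Finset.mem_biUnion]
    constructor
    · rintro ⟨k, hk, hm⟩
      rw [mem_fa.1 hm]
      exact Finset.mem_range.1 hk
    · intro hm
      exact ⟨_, Finset.mem_range.2 hm, mem_fa.2 rfl⟩
  let F : (S → ℂ) →ₗ[ℂ] (Germ n ⧸ I) :=
    (Ideal.Quotient.mkₐ ℂ I).toLinearMap ∘ₗ
      (∑ s : S, (LinearMap.toSpanSingleton ℂ (Germ n) (mono s.1)) ∘ₗ LinearMap.proj s)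
  refine Module.Finite.of_surjective F fun y => ?_
  obtain ⟨g, rfl⟩ := Ideal.Quotient.mk_surjective y
  refine ⟨fun s => co s.1 g, ?_⟩
  have h1 : (∑ s : S, (LinearMap.toSpanSingleton ℂ (Germ n) (mono s.1)) ∘ₗ
      LinearMap.proj (R := ℂ) (φ := fun _ => ℂ) s) (fun s => co s.1 g) =
      ∑ s : S, co s.1 g • mono s.1 := by
    rw [LinearMap.sum_apply]
    rfl
  change Ideal.Quotient.mk I _ = _
  rw [h1, Ideal.Quotient.eq]
  apply h
  intro m hm
  rw [map_sub, map_sum]
  have h2 : ∀ s : S, co m (co s.1 g • mono s.1) = if s.1 = m then co m g else 0 := by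
    intro s
    rw [map_smul, co_mono, smul_eq_mul]
    by_cases h3 : s.1 = m
    · rw [if_pos h3, if_pos h3.symm, h3, mul_one]
    · rw [if_neg h3, if_neg fun h4 => h3 h4.symm, mul_zero]
  rw [Finset.sum_congr rfl fun s _ => h2 s, Finset.sum_eq_single (⟨m, (hS m).2 hm⟩ : S)]
  · rw [if_pos rfl, sub_self]
  · intro s _ hs
    rw [if_neg]
    intro h3
    exact hs (Subtype.ext h3)
  · intro h3
    exact (h3 (Finset.mem_univ _)).elim

end HV
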