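import Pool.Agent.Work.MP_e9f12e_ag.Base

/-!
# GUnit: a convergent power series with nonzero constant term is invertible as a germ

PROOF. `MvPowerSeries (Fin n) ℂ` has an inverse `g⁻¹` with `g * g⁻¹ = 1`
(`MvPowerSeries.mul_inv_cancel`) when the constant coefficient is nonzero. Growth: after dividing
by the constant coefficient assume `g = 1 - h`, `h` without constant term and
`‖coeff m h‖ ≤ C s^|m|` (`C ≥ 0`, `s = 1/r > 0`), `|m| = ∑ i, m i`. From `g⁻¹ = 1 + h g⁻¹`:
`coeff m g⁻¹ = ∑_{p + q = m, p ≠ 0} coeff p h * coeff q g⁻¹` for `m ≠ 0`. Claim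
`‖coeff m g⁻¹‖ ≤ A^|m|` for `A` large, by strong induction on `|m|`:
the sum is at most `A^|m| * ∑_{p ≠ 0, p ≤ m} C (s/A)^|p|` and
`∑_{p ≠ 0, p ≤ m} (s/A)^|p| ≤ (1 - s/A)^(-n) - 1`, which is `≤ 1/C` for `A` large.
(Alternative for the last estimate, simpler: count `p ≤ m` crudely by absorbing it in the radius:
the number of `p` with `|p| = k` is at most `(k+1)^n`, or use `(k+1)^n ≤ B 2^k`; choose
`A = 2 s (1 + C B ...)`. Any crude bound is fine.)
-/

namespace HV

open MvPowerSeries

private theorem gu_sum {n : ℕ} (m : Fin n →₀ ℕ) :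
    ∑ p ∈ Finset.HasAntidiagonal.antidiagonal m, (1 / 2 : ℝ) ^ (∑ i, p.1 i) ≤ 2 ^ n := by
  classical
  calc ∑ p ∈ Finset.HasAntidiagonal.antidiagonal m, (1 / 2 : ℝ) ^ (∑ i, p.1 i)
      = ∑ x ∈ (Finset.HasAntidiagonal.antidiagonal m).image (fun p => (p.1 : Fin n → ℕ)),
          (1 / 2 : ℝ) ^ (∑ i, x i) := by
        rw [Finset.sum_image]
        intro p hp q hq h
        have hp' := Finset.HasAntidiagonal.mem_antidiagonal.mp (Finset.mem_coe.mp hp)
        have hq' := Finset.HasAntidiagonal.mem_antidiagonal.mp (Finset.mem_coe.mp hq)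
        have h' : p.1 = q.1 := DFunLike.coe_injective h
        refine Prod.ext h' ?_
        rw [← hq', h'] at hp'
        exact add_left_cancel hp'
    _ ≤ ∑ x ∈ Fintype.piFinset (fun i => Finset.range (m i + 1)), (1 / 2 : ℝ) ^ (∑ i, x i) := by
        refine Finset.sum_le_sum_of_subset_of_nonneg ?_ (fun _ _ _ => by positivity)
        intro x hx
        obtain ⟨p, hp, rfl⟩ := Finset.mem_image.mp hx
        have hp' := Finset.HasAntidiagonal.mem_antidiagonal.mp hp
        rw [Fintype.mem_piFinset]
        intro i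
        rw [Finset.mem_range, ← hp', Finsupp.add_apply]
        omega
    _ = ∏ i, ∑ k ∈ Finset.range (m i + 1), (1 / 2 : ℝ) ^ k := by
        rw [Finset.prod_univ_sum]
        exact Finset.sum_congr rfl fun x _ => (Finset.prod_pow_eq_pow_sum _ _ _).symm
    _ ≤ ∏ _i : Fin n, (2 : ℝ) :=
        Finset.prod_le_prod (fun i _ => Finset.sum_nonneg fun _ _ => by positivity)
          fun i _ => sum_geometric_two_le _
    _ = 2 ^ n := by simp

theorem isConvergent_inv {n : ℕ} (g : MvPowerSeries (Fin n) ℂ) (h : IsConvergent g)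
    (h0 : constantCoeff g ≠ 0) : IsConvergent g⁻¹ := by
  classical
  obtain ⟨C, r, hr, hC⟩ := h
  have hC0 : 0 ≤ C := le_trans (by positivity) (hC 0)
  set D : ℝ := ‖(constantCoeff g)⁻¹‖ with hD
  have hD0 : 0 < D := norm_pos_iff.mpr (inv_ne_zero h0)
  set ε : ℝ := 1 / (2 ^ n * (C * D + 1)) with hε
  have hCD : 0 ≤ C * D := mul_nonneg hC0 hD0.le
  have hε0 : 0 < ε := by positivity
  have hε1 : ε ≤ 1 := by
    rw [hε, div_le_one (by positivity)]
    have h1 : (1 : ℝ) ≤ 2 ^ n := one_le_pow₀ (by norm_num)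
    nlinarith
  have hε2 : C * D * ε * 2 ^ n ≤ 1 := by
    rw [hε]
    have h2 : (0 : ℝ) < 2 ^ n := by positivity
    have : C * D * (1 / (2 ^ n * (C * D + 1))) * 2 ^ n = C * D / (C * D + 1) := by
      field_simp
    rw [this, div_le_one (by positivity)]
    linarith
  set A : ℝ := 2 / (r * ε) with hA
  have hA0 : 0 < A := by positivity
  have hrA : r⁻¹ = A * (ε * (1 / 2)) := by
    rw [hA]
    field_simp
  have key : ∀ N : ℕ, ∀ m : Fin n →₀ ℕ, ∑ i, m i = N → ‖coeff m g⁻¹‖ ≤ D * A ^ N := by
    intro N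
    induction N using Nat.strong_induction_on with
    | _ N ih =>
      intro m hm
      rw [coeff_inv]
      split_ifs with hm0
      · rw [← hD]
        have : N = 0 := by rw [← hm, hm0]; simp
        rw [this, pow_zero, mul_one]
      · rw [norm_mul, norm_neg, ← hD]
        refine mul_le_mul_of_nonneg_left ?_ hD0.le
        calc ‖∑ x ∈ Finset.HasAntidiagonal.antidiagonal m,
              if x.2 < m then coeff x.1 g * coeff x.2 g⁻¹ else 0‖
            ≤ ∑ x ∈ Finset.HasAntidiagonal.antidiagonal m,
              ‖if x.2 < m then coeff x.1 g * coeff x.2 g⁻¹ else 0‖ := norm_sum_le _ _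
          _ ≤ ∑ x ∈ Finset.HasAntidiagonal.antidiagonal m,
              C * D * ε * A ^ N * (1 / 2) ^ (∑ i, x.1 i) := by
            refine Finset.sum_le_sum fun x hx => ?_
            have hx' := Finset.HasAntidiagonal.mem_antidiagonal.mp hx
            split_ifs with hlt
            · have hs : ∑ i, x.1 i + ∑ i, x.2 i = N := by rw [← sum_add', hx', hm]
              have hpos : 0 < ∑ i, x.1 i := by
                rw [Nat.pos_iff_ne_zero]
                intro h0
                have : x.1 = 0 := by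
                  ext i
                  rw [Finset.sum_eq_zero_iff] at h0
                  exact h0 i (Finset.mem_univ i)
                rw [this, zero_add] at hx'
                exact absurd hx' hlt.ne
              have h1 := ih (∑ i, x.2 i) (by omega) x.2 rfl
              have h2 : ‖coeff x.1 g‖ ≤ C * r⁻¹ ^ (∑ i, x.1 i) := by
                rw [inv_pow, ← div_eq_mul_inv, le_div_iff₀ (by positivity)]
                exact hC x.1
              have h3 : (ε : ℝ) ^ (∑ i, x.1 i) ≤ ε := by
                calc ε ^ (∑ i, x.1 i) ≤ ε ^ 1 := pow_le_pow_of_le_one hε0.le hε1 hpos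
                  _ = ε := pow_one _
              rw [norm_mul]
              calc ‖coeff x.1 g‖ * ‖coeff x.2 g⁻¹‖
                  ≤ (C * r⁻¹ ^ (∑ i, x.1 i)) * (D * A ^ (∑ i, x.2 i)) := by
                    gcongr
                _ = C * D * ε ^ (∑ i, x.1 i) * A ^ N * (1 / 2) ^ (∑ i, x.1 i) := by
                    rw [hrA, mul_pow, mul_pow, ← hs, pow_add]
                    ring
                _ ≤ C * D * ε * A ^ N * (1 / 2) ^ (∑ i, x.1 i) := by
                    gcongr
            · rw [norm_zero]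
              positivity
          _ = (C * D * ε * A ^ N) * ∑ x ∈ Finset.HasAntidiagonal.antidiagonal m,
                (1 / 2) ^ (∑ i, x.1 i) := by rw [Finset.mul_sum]
          _ ≤ (C * D * ε * A ^ N) * 2 ^ n := by
            gcongr
            exact gu_sum m
          _ = (C * D * ε * 2 ^ n) * A ^ N := by ring
          _ ≤ 1 * A ^ N := by gcongr
          _ = A ^ N := one_mul _
  refine ⟨D, A⁻¹, by positivity, fun m => ?_⟩
  rw [inv_pow, ← div_eq_mul_inv, div_le_iff₀ (by positivity)]
  exact key _ m rfl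

theorem isUnit_germ {n : ℕ} (g : Germ n) (h0 : constantCoeff g.ser ≠ 0) : IsUnit g := by
  refine IsUnit.of_mul_eq_one (Germ.mk g.ser⁻¹ (isConvergent_inv g.ser g.conv h0)) ?_
  apply Germ.ext
  rw [map_mul, Germ.ser_mk, map_one Germ.ser]
  exact MvPowerSeries.mul_inv_cancel _ h0

end HV
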