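import Pool.Agent.Work.MP_e9f12e_ag.RRules

/-!
# IclBasic: first properties of the spaces `Icl b`, `KI i b`, `Rb b`
-/

namespace HV

open MvPowerSeries

theorem mem_Icl {b : ℤ} {g : Germ 4} : g ∈ Icl b ↔ ∀ m, co m g ≠ 0 → ∀ k, b ≤ lin k m := Iff.rfl

theorem mem_KI {i : Fin 4} {b : ℤ} {g : Germ 4} :
    g ∈ KI i b ↔ ∀ m, co m g ≠ 0 → ∀ k, b + wt k i ≤ lin k m := Iff.rfl

theorem Icl_anti {b c : ℤ} (h : b ≤ c) : Icl c ≤ Icl b :=
  fun _ hg m hm k => h.trans (hg m hm k)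

theorem KI_anti {i : Fin 4} {b c : ℤ} (h : b ≤ c) : KI i c ≤ KI i b :=
  fun _ hg m hm k => le_trans (by linarith) (hg m hm k)

theorem Rb_anti {b c : ℤ} (h : b ≤ c) : Rb c ≤ Rb b :=
  iSup_mono fun _ => Submodule.map_mono (KI_anti (by linarith))

theorem SpGe_anti {b c : ℤ} (h : b ≤ c) : SpGe c ≤ SpGe b :=
  Submodule.span_mono (Set.image_mono fun _ hp => ⟨hp.1, h.trans hp.2⟩)

theorem Sp_le_SpGe (b : ℤ) : Sp b ≤ SpGe b :=
  Submodule.span_mono (Set.image_mono fun _ hp => ⟨hp.1, hp.2.ge⟩)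

theorem wt_nonneg (k i : Fin 4) : 0 ≤ wt k i := by
  revert k i
  decide

theorem ten_le_wt (k i : Fin 4) : 10 ≤ wt k i := by
  revert k i
  decide

theorem wt_le (k i : Fin 4) : wt k i ≤ 24 := by
  revert k i
  decide

theorem lin_nonneg (k : Fin 4) (m : Fin 4 →₀ ℕ) : 0 ≤ lin k m :=
  Finset.sum_nonneg fun i _ => mul_nonneg (wt_nonneg k i) (Nat.cast_nonneg _)

theorem ten_mul_le_lin (k : Fin 4) (m : Fin 4 →₀ ℕ) : 10 * ((∑ i, m i : ℕ) : ℤ) ≤ lin k m := by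
  push_cast
  rw [Finset.mul_sum, lin]
  exact Finset.sum_le_sum fun i _ =>
    mul_le_mul_of_nonneg_right (ten_le_wt k i) (Nat.cast_nonneg _)

theorem lin_le (k : Fin 4) (m : Fin 4 →₀ ℕ) : lin k m ≤ 24 * ((∑ i, m i : ℕ) : ℤ) := by
  push_cast
  rw [Finset.mul_sum, lin]
  exact Finset.sum_le_sum fun i _ =>
    mul_le_mul_of_nonneg_right (wt_le k i) (Nat.cast_nonneg _)

theorem lin_single (k i : Fin 4) (a : ℕ) : lin k (Finsupp.single i a) = wt k i * a := by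
  rw [lin, Finset.sum_eq_single i]
  · rw [Finsupp.single_eq_same]
  · intro j _ hj
    rw [Finsupp.single_eq_of_ne hj]
    simp
  · intro h
    exact absurd (Finset.mem_univ i) h

/-- Every germ has nonnegative order. -/
theorem Icl_of_nonpos {b : ℤ} (h : b ≤ 0) : Icl b = ⊤ :=
  eq_top_iff.mpr fun _ _ m _ k => h.trans (lin_nonneg k m)

theorem mem_Icl_of_nonpos {b : ℤ} (h : b ≤ 0) (g : Germ 4) : g ∈ Icl b := by
  rw [Icl_of_nonpos h]
  exact Submodule.mem_top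

/-- The coefficients of a product. -/
theorem exists_of_co_mul_ne_zero {n : ℕ} {g h : Germ n} {m : Fin n →₀ ℕ} (hm : co m (g * h) ≠ 0) :
    ∃ p q, p + q = m ∧ co p g ≠ 0 ∧ co q h ≠ 0 := by
  classical
  rw [co_def, map_mul, coeff_mul] at hm
  obtain ⟨p, hp, hne⟩ := Finset.exists_ne_zero_of_sum_ne_zero hm
  exact ⟨p.1, p.2, Finset.HasAntidiagonal.mem_antidiagonal.mp hp, left_ne_zero_of_mul hne,
    right_ne_zero_of_mul hne⟩

theorem mul_mem_Icl {b c : ℤ} {g h : Germ 4} (hg : g ∈ Icl b) (hh : h ∈ Icl c) :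
    g * h ∈ Icl (b + c) := by
  intro m hm k
  obtain ⟨p, q, rfl, hp, hq⟩ := exists_of_co_mul_ne_zero hm
  rw [lin_add]
  exact add_le_add (hg p hp k) (hh q hq k)

theorem mul_mem_Icl_left {c : ℤ} (g : Germ 4) {h : Germ 4} (hh : h ∈ Icl c) : g * h ∈ Icl c := by
  have := mul_mem_Icl (mem_Icl_of_nonpos le_rfl g) hh
  rwa [zero_add] at this

theorem mul_mem_KI_left {i : Fin 4} {c : ℤ} (g : Germ 4) {h : Germ 4} (hh : h ∈ KI i c) :
    g * h ∈ KI i c := by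
  intro m hm k
  obtain ⟨p, q, rfl, hp, hq⟩ := exists_of_co_mul_ne_zero hm
  rw [lin_add]
  have := lin_nonneg k p
  linarith [hh q hq k]

theorem f0_mem : f0 ∈ Icl 60 := by
  rw [f0]
  refine Submodule.add_mem _ (Submodule.add_mem _ (Submodule.add_mem _ (Submodule.add_mem _
    ?_ ?_) ?_) ?_) ?_ <;>
  · refine mono_mem_Icl fun k => ?_
    rw [lin_ex]
    fin_cases k <;> decide

/-- `f0 * Icl b ⊆ Icl (b + 60)`. -/
theorem f0_mul_mem {b : ℤ} {g : Germ 4} (hg : g ∈ Icl b) : f0 * g ∈ Icl (b + 60) := by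
  have := mul_mem_Icl f0_mem hg
  rwa [add_comm] at this

/-- `∂/∂x_i` maps `KI i b` to `Icl b`. -/
theorem pd_mem_Icl {i : Fin 4} {b : ℤ} {g : Germ 4} (hg : g ∈ KI i b) : pd i g ∈ Icl b := by
  intro m hm k
  rw [co_def, ser_pd, coeff_pderiv] at hm
  have h1 := hg (m + Finsupp.single i 1) (left_ne_zero_of_mul hm) k
  rw [lin_add, lin_single] at h1
  push_cast at h1
  linarith

theorem Rb_le_jac (b : ℤ) : Rb b ≤ (jacobianIdeal f0).restrictScalars ℂ := by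
  refine iSup_le fun i => ?_
  rintro _ ⟨g, _, rfl⟩
  exact Ideal.mul_mem_right _ _ (Ideal.subset_span ⟨i, rfl⟩)

/-- Elements of `Rb b` as sums. -/
theorem mem_Rb {b : ℤ} {g : Germ 4} :
    g ∈ Rb b ↔ ∃ u : Fin 4 → Germ 4, (∀ i, u i ∈ KI i (b - 60)) ∧ g = ∑ i, pd i f0 * u i := by
  constructor
  · intro h
    rw [Rb, Submodule.mem_iSup_iff_exists_finsupp] at h
    obtain ⟨v, hv, rfl⟩ := h
    choose u hu huv using hv
    refine ⟨u, hu, ?_⟩
    rw [Finsupp.sum_fintype _ _ (fun _ => rfl)]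
    exact Finset.sum_congr rfl fun i _ => (huv i).symm
  · rintro ⟨u, hu, rfl⟩
    exact Submodule.sum_mem _ fun i _ => mul_mem_Rb (hu i)

end HV
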