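import Pool.Agent.Work.MP_e9f12e_ag.IclBasic

/-!
# IclStep: splitting off the monomials of order exactly `b`

PROOF. The set of exponents `m` with `ordF m = b` is finite (`10 |m| ≤ ordF m`, `ten_mul_le_lin`), call
it `T` (a Finset). For `g ∈ Icl b` put `p = ∑ m ∈ T, co m g • mono m`; then `co q (g - p) = 0` for
`q ∈ T` and `= co q g` for `q ∉ T` (`co_mono`), so a monomial `q` of `g - p` has `b ≤ ordF q`,
`ordF q ≠ b`, i.e. `b + 1 ≤ lin k q` for all `k` (`le_ordF_iff`).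
-/

namespace HV

theorem finite_ordF (b : ℤ) : {m : Fin 4 →₀ ℕ | ordF m = b}.Finite := by
  refine (Set.finite_Iic (Finsupp.equivFunOnFinite.symm (fun _ : Fin 4 => b.toNat))).subset ?_
  intro m hm
  have hm' : ordF m = b := hm
  have h1 : b ≤ lin 0 m := (le_ordF_iff b m).mp hm'.ge 0
  have h2 : 10 * ((∑ i, m i : ℕ) : ℤ) ≤ ordF m := (le_ordF_iff _ m).mpr fun k => ten_mul_le_lin k m
  rw [hm'] at h2
  rw [Set.mem_Iic]
  intro i
  have h3 : m i ≤ ∑ j, m j := Finset.single_le_sum (fun j _ => Nat.zero_le _) (Finset.mem_univ i)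
  show m i ≤ b.toNat
  have h4 : ((m i : ℕ) : ℤ) ≤ ((∑ j, m j : ℕ) : ℤ) := by exact_mod_cast h3
  have h5 : (0 : ℤ) ≤ ((∑ j, m j : ℕ) : ℤ) := Int.natCast_nonneg _
  omega

theorem Icl_step (b : ℤ) :
    Icl b ≤ Submodule.span ℂ {g | ∃ m : Fin 4 →₀ ℕ, ordF m = b ∧ g = mono m} ⊔ Icl (b + 1) := by
  classical
  intro g hg
  set T := (finite_ordF b).toFinset with hT
  have hmem : ∀ m, m ∈ T ↔ ordF m = b := fun m => by rw [hT, Set.Finite.mem_toFinset]; rfl
  set p : Germ 4 := ∑ m ∈ T, co m g • mono m with hp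
  have hp1 : p ∈ Submodule.span ℂ {g | ∃ m : Fin 4 →₀ ℕ, ordF m = b ∧ g = mono m} :=
    Submodule.sum_mem _ fun m hm =>
      Submodule.smul_mem _ _ (Submodule.subset_span ⟨m, (hmem m).1 hm, rfl⟩)
  have hcp : ∀ q, co q p = if q ∈ T then co q g else 0 := by
    intro q
    rw [hp, map_sum]
    have : ∀ m ∈ T, co q (co m g • (mono m : Germ 4)) = if q = m then co m g else 0 := by
      intro m _
      rw [map_smul, co_mono]
      split_ifs <;> simp
    rw [Finset.sum_congr rfl this, Finset.sum_ite_eq]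
  refine Submodule.mem_sup.2 ⟨p, hp1, g - p, ?_, add_sub_cancel p g⟩
  intro q hq
  rw [map_sub, hcp] at hq
  by_cases hqT : q ∈ T
  · rw [if_pos hqT, sub_self] at hq
    exact absurd rfl hq
  · rw [if_neg hqT, sub_zero] at hq
    have h1 : b ≤ ordF q := (le_ordF_iff b q).mpr (hg q hq)
    have h2 : ordF q ≠ b := fun h => hqT ((hmem q).2 h)
    exact (le_ordF_iff (b + 1) q).mp (by omega)

end HV
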