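import Pool.Agent.Work.MP_e9f12e_ag.KosG
import Pool.Agent.Work.MP_e9f12e_ag.GMBasic

/-!
# JacLemma: `H''_0 / ∂_t⁻¹ H''_0` is the Milnor algebra

PROOF of `mem_jac_of_cls`. `single 0 g - single 1 h ∈ relations f` (`Submodule.Quotient.eq`), and
(`exists_rel`) an element of `relations f` is
`∑ over k of (single (k+1) (∑ i, pd i (u k i)) - single k (∑ i, pd i f * u k i))` for a finitely
supported `u : ℤ →₀ (Fin 4 → Germ 4)` (`Submodule.span_induction`). Comparing the coefficient at `k`:
(E_k)  `∑ i, pd i (u (k-1) i) - ∑ i, pd i f * u k i = (g if k = 0) - (h if k = 1)`.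
Claim: `u` can be chosen with `u k = 0` for all `k < 0`; then (E_0) gives `g = -∑ pd i f * u 0 i ∈ J`.
Removing the lowest term: let `k₀ < 0` with `u k = 0` for `k < k₀`. (E_{k₀}) reads
`∑ i, pd i f * u k₀ i = 0`, so by `koszul_germ` (`p i = pd i f`)
`u k₀ i = ∑ j, pd j f * a i j`, `a` antisymmetric. Replace `u k₀` by `0` and `u (k₀+1) j` by
`u (k₀+1) j - ∑ i, pd i (a i j)`. (E_{k₀+1}) still holds: by `pd_mul`
`∑ i, pd i (u k₀ i) = ∑ i j, pd j f * pd i (a i j) + ∑ i j, pd i (pd j f) * a i j` and the last sum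
vanishes by symmetry of `pd i (pd j f)` (`pd_comm`) and antisymmetry of `a`. (E_{k₀+2}) still holds:
`∑ i j, pd j (pd i (a i j)) = 0`. Other equations unchanged. After finitely many steps all negative
terms are gone (induction on `-k₀`). It is convenient to work with functions `u : ℤ → Fin 4 → Germ 4`
satisfying all (E_k) and `u k = 0` for `k < k₀` (only the lower bound is needed; forget the finite
support). `pd_comm`: coefficients (`coeff_pderiv`).
-/

namespace HV

open MvPowerSeries

theorem pd_comm {n : ℕ} (i j : Fin n) (g : Germ n) : pd i (pd j g) = pd j (pd i g) := by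
  classical
  apply germ_ext_co
  intro m
  rw [co_def, co_def, ser_pd, ser_pd, ser_pd, ser_pd, coeff_pderiv, coeff_pderiv, coeff_pderiv,
    coeff_pderiv]
  by_cases hij : i = j
  · rw [hij]
  · have h1 : (m + Finsupp.single i 1 : Fin n →₀ ℕ) j = m j := by
      rw [Finsupp.add_apply, Finsupp.single_apply, if_neg hij, add_zero]
    have h2 : (m + Finsupp.single j 1 : Fin n →₀ ℕ) i = m i := by
      rw [Finsupp.add_apply, Finsupp.single_apply, if_neg (Ne.symm hij), add_zero]
    rw [h1, h2, add_right_comm m (Finsupp.single j 1) (Finsupp.single i 1)]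
    ring

theorem exists_rel {n : ℕ} (f : Germ n) {r : ℤ →₀ Germ n} (hr : r ∈ relations f) :
    ∃ u : ℤ →₀ (Fin n → Germ n), ∀ k : ℤ,
      r k = ∑ i, pd i (u (k - 1) i) - ∑ i, pd i f * u k i := by
  classical
  rw [relations] at hr
  induction hr using Submodule.span_induction with
  | mem x hx =>
    obtain ⟨k0, i0, g, rfl⟩ := hx
    refine ⟨Finsupp.single k0 (Pi.single i0 g), fun k => ?_⟩
    rw [Finsupp.sub_apply]
    congr 1
    · rw [Finset.sum_eq_single i0]
      · rw [Finsupp.single_apply, Finsupp.single_apply]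
        by_cases h : k0 + 1 = k
        · rw [if_pos h, if_pos (by omega), Pi.single_eq_same]
        · rw [if_neg h, if_neg (by omega), Pi.zero_apply, map_zero]
      · intro j _ hj
        rw [Finsupp.single_apply]
        split_ifs
        · rw [Pi.single_eq_of_ne hj, map_zero]
        · rw [Pi.zero_apply, map_zero]
      · intro h
        exact (h (Finset.mem_univ _)).elim
    · rw [Finset.sum_eq_single i0]
      · rw [Finsupp.single_apply, Finsupp.single_apply]
        split_ifs with h
        · rw [Pi.single_eq_same]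
        · rw [Pi.zero_apply, mul_zero]
      · intro j _ hj
        rw [Finsupp.single_apply]
        split_ifs
        · rw [Pi.single_eq_of_ne hj, mul_zero]
        · rw [Pi.zero_apply, mul_zero]
      · intro h
        exact (h (Finset.mem_univ _)).elim
  | zero => exact ⟨0, fun k => by simp⟩
  | add x y _ _ hx hy =>
    obtain ⟨u, hu⟩ := hx
    obtain ⟨v, hv⟩ := hy
    refine ⟨u + v, fun k => ?_⟩
    rw [Finsupp.add_apply, hu, hv]
    simp only [Finsupp.add_apply, Pi.add_apply, map_add, mul_add, Finset.sum_add_distrib]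
    abel
  | smul c x _ hx =>
    obtain ⟨u, hu⟩ := hx
    refine ⟨c • u, fun k => ?_⟩
    rw [Finsupp.smul_apply, hu, smul_sub, Finset.smul_sum, Finset.smul_sum]
    simp only [Finsupp.smul_apply, Pi.smul_apply, map_smul, mul_smul_comm]

private theorem antisum {S : Fin 4 → Fin 4 → Germ 4} (h : ∀ i j, S i j = -S j i) :
    ∑ i, ∑ j, S i j = 0 := by
  have h1 : ∑ i, ∑ j, S i j = -∑ i, ∑ j, S i j := by
    conv_lhs => rw [Finset.sum_comm]
    rw [← Finset.sum_neg_distrib]
    refine Finset.sum_congr rfl fun i _ => ?_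
    rw [← Finset.sum_neg_distrib]
    exact Finset.sum_congr rfl fun j _ => h j i
  have h2 : (2 : ℂ) • (∑ i, ∑ j, S i j) = 0 := by
    rw [two_smul]
    nth_rewrite 1 [h1]
    exact neg_add_cancel _
  exact (smul_eq_zero.1 h2).resolve_left two_ne_zero

private theorem remove (f : Germ 4) (K : ℕ) (hK : mPow 4 K ≤ jacobianIdeal f) (L : ℤ → Germ 4)
    (hL : ∀ k < 0, L k = 0) (N : ℕ) : ∀ u : ℤ → Fin 4 → Germ 4,
    (∀ k, L k = ∑ i, pd i (u (k - 1) i) - ∑ i, pd i f * u k i) → (∀ k < -(N : ℤ), u k = 0) →
    ∃ u : ℤ → Fin 4 → Germ 4,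
      (∀ k, L k = ∑ i, pd i (u (k - 1) i) - ∑ i, pd i f * u k i) ∧ ∀ k < 0, u k = 0 := by
  induction N with
  | zero =>
    intro u hu h0
    exact ⟨u, hu, fun k hk => h0 k (by simpa using hk)⟩
  | succ N ih =>
    intro u hu h0
    push_cast at h0
    set k0 : ℤ := -((N : ℤ) + 1) with hk0
    have hE := hu k0
    have hz : ∀ i, u (k0 - 1) i = 0 := fun i => by rw [h0 (k0 - 1) (by omega)]; rfl
    have hsum : ∑ i, pd i f * u k0 i = 0 := by
      rw [hL k0 (by omega)] at hE
      simp only [hz, map_zero, Finset.sum_const_zero, zero_sub] at hE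
      exact neg_eq_zero.1 hE.symm
    obtain ⟨a, ha, -, hua⟩ := koszul_germ (fun i => pd i f) K hK (u k0) hsum
    have hdiv : ∑ i, pd i (u k0 i) = ∑ j, pd j f * ∑ i, pd i (a i j) := by
      have h1 : ∑ i, pd i (u k0 i) =
          ∑ i, ∑ j, (pd j f * pd i (a i j)) + ∑ i, ∑ j, (pd i (pd j f) * a i j) := by
        rw [← Finset.sum_add_distrib]
        refine Finset.sum_congr rfl fun i _ => ?_
        rw [hua i, map_sum, ← Finset.sum_add_distrib]
        exact Finset.sum_congr rfl fun j _ => pd_mul i (pd j f) (a i j)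
      have h2 : ∑ i, ∑ j, (pd i (pd j f) * a i j) = 0 := by
        apply antisum
        intro i j
        rw [pd_comm i j f, ha i j, mul_neg]
      rw [h1, h2, add_zero, Finset.sum_comm]
      exact Finset.sum_congr rfl fun j _ => (Finset.mul_sum _ _ _).symm
    have hdd : ∑ j, pd j (∑ i, pd i (a i j)) = 0 := by
      have h1 : ∑ j, pd j (∑ i, pd i (a i j)) = ∑ j, ∑ i, pd j (pd i (a i j)) :=
        Finset.sum_congr rfl fun j _ => map_sum _ _ _
      rw [h1]
      apply antisum
      intro j i
      rw [pd_comm j i, ha i j, map_neg, map_neg]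
    let u' : ℤ → Fin 4 → Germ 4 := fun k j =>
      if k = k0 then 0 else if k = k0 + 1 then u (k0 + 1) j - ∑ i, pd i (a i j) else u k j
    have hu'0 : ∀ j, u' k0 j = 0 := fun j => if_pos rfl
    have hu'1 : ∀ j, u' (k0 + 1) j = u (k0 + 1) j - ∑ i, pd i (a i j) := fun j => by
      change (if k0 + 1 = k0 then (0 : Germ 4) else if k0 + 1 = k0 + 1 then _ else _) = _
      rw [if_neg (by omega), if_pos rfl]
    have hu'2 : ∀ k, k ≠ k0 → k ≠ k0 + 1 → ∀ j, u' k j = u k j := fun k h1 h2 j => by
      change (if k = k0 then (0 : Germ 4) else if k = k0 + 1 then _ else _) = _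
      rw [if_neg h1, if_neg h2]
    apply ih u'
    · intro k
      by_cases c0 : k = k0
      · rw [c0, hL k0 (by omega)]
        simp only [hu'0, hu'2 (k0 - 1) (by omega) (by omega), hz, map_zero, mul_zero,
          Finset.sum_const_zero, sub_zero]
      · by_cases c1 : k = k0 + 1
        · rw [c1, hu (k0 + 1), add_sub_cancel_right, hdiv]
          simp only [hu'0, hu'1, map_zero, Finset.sum_const_zero, mul_sub,
            Finset.sum_sub_distrib]
          abel
        · by_cases c2 : k = k0 + 2
          · have h3 : k - 1 = k0 + 1 := by omega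
            rw [hu k, h3]
            simp only [hu'1, hu'2 k c0 c1, map_sub, Finset.sum_sub_distrib, hdd, sub_zero]
          · rw [hu k]
            simp only [hu'2 k c0 c1, hu'2 (k - 1) (by omega) (by omega)]
    · intro k hk
      funext j
      by_cases c0 : k = k0
      · rw [c0]
        exact hu'0 j
      · rw [hu'2 k c0 (by omega), h0 k (by omega)]

theorem mem_jac_of_cls (f : Germ 4) (K : ℕ) (hK : mPow 4 K ≤ jacobianIdeal f) {g h : Germ 4}
    (hgh : cls f 0 g = cls f 1 h) : g ∈ jacobianIdeal f := by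
  classical
  have h1 : Finsupp.single 0 g - Finsupp.single 1 h ∈ relations f :=
    (toGM_eq_iff f _ _).1 hgh
  obtain ⟨u, hu⟩ := exists_rel f h1
  obtain ⟨v, hv, hv0⟩ := remove f K hK
    (fun k => (Finsupp.single 0 g - Finsupp.single 1 h : ℤ →₀ Germ 4) k) (fun k hk => by
      change (Finsupp.single 0 g - Finsupp.single 1 h : ℤ →₀ Germ 4) k = 0
      rw [Finsupp.sub_apply, Finsupp.single_apply, Finsupp.single_apply, if_neg (by omega),
        if_neg (by omega), sub_zero])
    (∑ k ∈ u.support, k.natAbs) (fun k => u k) hu (fun k hk => by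
      by_contra h2
      have h3 : k ∈ u.support := Finsupp.mem_support_iff.2 h2
      have h4 : k.natAbs ≤ ∑ k ∈ u.support, k.natAbs :=
        Finset.single_le_sum (f := fun k : ℤ => k.natAbs) (fun _ _ => Nat.zero_le _) h3
      omega)
  have h5 := hv 0
  have hz : ∑ i, pd i (v (0 - 1) i) = 0 := Finset.sum_eq_zero fun i _ => by
    rw [hv0 (0 - 1) (by norm_num)]
    exact map_zero _
  rw [hz, zero_sub] at h5
  rw [Finsupp.sub_apply, Finsupp.single_eq_same, Finsupp.single_apply, if_neg (by norm_num),
    sub_zero] at h5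
  have h6 : g = -∑ i, pd i f * v 0 i := h5
  rw [h6]
  refine neg_mem (Ideal.sum_mem _ fun i _ => ?_)
  exact Ideal.mul_mem_right _ _ (Ideal.subset_span ⟨i, rfl⟩)

end HV
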