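import Mathlib

/-!
# KosA: if four elements of a ring generate an ideal containing a regular sequence of length four,
then their first syzygies are Koszul syzygies

PROOF (depth sensitivity of the Koszul complex, done by hand). Let `I_k = (b i : i < k)` and work
with congruences modulo `I_k`. Koszul chains: `K_1`: 4-tuples `g i`; `K_2`: antisymmetric `h i j`
(6 components); `K_3`: totally antisymmetric (4 components, one for each omitted index); `K_4`: one
element `u`. Differentials: `K_4 → K_3`: `u ↦ ± p_l u`; etc. Claim `C_s` (`s = 4, 3, 2, 1`): every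
cycle of `K_s` modulo `I_{s-1}` is a boundary modulo `I_{s-1}` (for `s = 4`: if `p_i u ∈ I_3` for
all `i` then `u ∈ I_3`).
* `C_4`: `b 3 ∈ (p)` so `b 3 * u ∈ I_3`, hence `u ∈ I_3` by regularity.
* `C_{s+1} ⇒ C_s`: let `z ∈ K_s` be a cycle modulo `I_{s-1}`. Put `b = b (s-1)`, `b = ∑ c_i p_i`;
  wedge with `c` is a homotopy: `b z = d (c ∧ z) + c ∧ (d z)` hence `b z ≡ d y` modulo `I_{s-1}`
  with `y = c ∧ z`. Modulo `I_s = I_{s-1} + (b)`, `y` is a cycle, so by `C_{s+1}` (modulo `I_s`)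
  `y ≡ d y' + b y''` modulo `I_{s-1}`. So `b z ≡ b d y''` modulo `I_{s-1}` and by regularity of
  `b = b (s-1)` modulo `I_{s-1}`: `z ≡ d y''`.
The wanted statement is `C_1` (modulo `I_0 = 0`). One may write everything with explicit components
(4, 6, 4, 1 of them) and `linear_combination`, or use exterior powers / functions on `Finset`s /
any other proof (e.g. induction through quotients `R ⧸ Ideal.span ...`).
-/

namespace HV

section kos

variable {R : Type*} [CommRing R]

/-- Koszul differential, components indexed by bit masks -/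
private def kD (p : Fin 4 → R) (z : Fin 16 → R) : Fin 16 → R :=
  ![p 0 * z 1 + p 1 * z 2 + p 2 * z 4 + p 3 * z 8,
    -(p 1 * z 3) - p 2 * z 5 - p 3 * z 9,
    p 0 * z 3 - p 2 * z 6 - p 3 * z 10,
    p 2 * z 7 + p 3 * z 11,
    p 0 * z 5 + p 1 * z 6 - p 3 * z 12,
    -(p 1 * z 7) + p 3 * z 13,
    p 0 * z 7 + p 3 * z 14,
    -(p 3 * z 15),
    p 0 * z 9 + p 1 * z 10 + p 2 * z 12,
    -(p 1 * z 11) - p 2 * z 13,
    p 0 * z 11 - p 2 * z 14,
    p 2 * z 15,
    p 0 * z 13 + p 1 * z 14,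
    -(p 1 * z 15),
    p 0 * z 15,
    0]

/-- wedge with c -/
private def kW (c : Fin 4 → R) (z : Fin 16 → R) : Fin 16 → R :=
  ![0,
    c 0 * z 0,
    c 1 * z 0,
    c 0 * z 2 - c 1 * z 1,
    c 2 * z 0,
    c 0 * z 4 - c 2 * z 1,
    c 1 * z 4 - c 2 * z 2,
    c 0 * z 6 - c 1 * z 5 + c 2 * z 3,
    c 3 * z 0,
    c 0 * z 8 - c 3 * z 1,
    c 1 * z 8 - c 3 * z 2,
    c 0 * z 10 - c 1 * z 9 + c 3 * z 3,
    c 2 * z 8 - c 3 * z 4,
    c 0 * z 12 - c 2 * z 9 + c 3 * z 5,
    c 1 * z 12 - c 2 * z 10 + c 3 * z 6,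
    c 0 * z 14 - c 1 * z 13 + c 2 * z 11 - c 3 * z 7]

/-- number of bits -/
private def kP : Fin 16 → ℕ := ![0, 1, 1, 2, 1, 2, 2, 3, 1, 2, 2, 3, 2, 3, 3, 4]


private theorem kD_kD (p : Fin 4 → R) (z : Fin 16 → R) : kD p (kD p z) = 0 := by
  funext s
  fin_cases s <;> simp [kD] <;> ring

private theorem kD_kW (p c : Fin 4 → R) (z : Fin 16 → R) (s : Fin 16) :
    kD p (kW c z) s + kW c (kD p z) s = (∑ i, p i * c i) * z s := by
  rw [Fin.sum_univ_four]
  fin_cases s <;> simp [kD, kW] <;> ring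

private theorem kD_mem (p : Fin 4 → R) (z : Fin 16 → R) (I : Ideal R) (hz : ∀ s, z s ∈ I)
    (s : Fin 16) : kD p z s ∈ I := by
  have h : ∀ (a : R) (i : Fin 16), a * z i ∈ I := fun a i => I.mul_mem_left a (hz i)
  fin_cases s <;> simp [kD] <;>
    repeat' first | exact h _ _ | apply I.add_mem | apply I.sub_mem | apply I.neg_mem

private theorem kW_mem (p : Fin 4 → R) (z : Fin 16 → R) (I : Ideal R) (hz : ∀ s, z s ∈ I)
    (s : Fin 16) : kW p z s ∈ I := by
  have h : ∀ (a : R) (i : Fin 16), a * z i ∈ I := fun a i => I.mul_mem_left a (hz i)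
  fin_cases s <;> simp [kW] <;>
    repeat' first | exact h _ _ | apply I.add_mem | apply I.sub_mem


private def kF (k : ℕ) (z : Fin 16 → R) : Prop := ∀ s, kP s < k → z s = 0

private theorem kD_F (p : Fin 4 → R) (z : Fin 16 → R) (k : ℕ) (h : kF (k + 1) z) :
    kF k (kD p z) := by
  intro s hs
  unfold kF at h
  fin_cases s <;> simp [kP] at hs <;> simp (disch := (simp [kP]; omega)) [kD, h]

private theorem kW_F (p : Fin 4 → R) (z : Fin 16 → R) (k : ℕ) (h : kF k z) :
    kF (k + 1) (kW p z) := by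
  intro s hs
  unfold kF at h
  fin_cases s <;> simp [kP] at hs <;> simp (disch := (simp [kP]; omega)) [kW, h]


private theorem kD_lin (p : Fin 4 → R) (x y z : Fin 16 → R) (r : R) (s : Fin 16) :
    kD p (fun i => x i + r * y i + z i) s = kD p x s + r * kD p y s + kD p z s := by
  fin_cases s <;> simp [kD] <;> ring

private def kI (b : Fin 4 → R) (k : ℕ) : Ideal R := Ideal.span (b '' {i | (i : ℕ) < k})

private theorem kI_succ (b : Fin 4 → R) (k : ℕ) (hk : k < 4) :
    kI b (k + 1) = kI b k ⊔ Ideal.span {b ⟨k, hk⟩} := by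
  unfold kI
  rw [← Ideal.span_union]
  congr 1
  ext x
  constructor
  · rintro ⟨i, hi, rfl⟩
    have hi' : (i : ℕ) < k + 1 := hi
    by_cases h : (i : ℕ) < k
    · exact Or.inl ⟨i, h, rfl⟩
    · right
      have : i = ⟨k, hk⟩ := by ext; show (i : ℕ) = k; omega
      rw [this]
      rfl
  · rintro (⟨i, hi, rfl⟩ | h)
    · have hi' : (i : ℕ) < k := hi
      exact ⟨i, show (i : ℕ) < k + 1 by omega, rfl⟩
    · exact ⟨⟨k, hk⟩, Nat.lt_succ_self k, h.symm⟩

private theorem kA (p b : Fin 4 → R) (hb : ∀ i, b i ∈ Ideal.span (Set.range p))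
    (hreg : ∀ k (hk : k < 4) r, b ⟨k, hk⟩ * r ∈ kI b k → r ∈ kI b k) (j : ℕ) :
    ∀ k, k + j = 4 → ∀ z : Fin 16 → R, kF (k + 1) z → (∀ s, kD p z s ∈ kI b k) →
      ∃ y, kF (k + 2) y ∧ ∀ s, z s - kD p y s ∈ kI b k := by
  induction j with
  | zero =>
    intro k hk z hz hd
    refine ⟨0, fun s _ => rfl, fun s => ?_⟩
    have h1 : z s = 0 := by
      apply hz
      have : kP s ≤ 4 := by revert s; decide
      omega
    rw [h1, zero_sub]
    exact (kI b k).neg_mem (kD_mem p 0 _ (fun s => (kI b k).zero_mem) s)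
  | succ j ih =>
    intro k hk z hz hd
    have hk4 : k < 4 := by omega
    obtain ⟨c, hc⟩ := Ideal.mem_span_range_iff_exists_fun.mp (hb ⟨k, hk4⟩)
    set B := b ⟨k, hk4⟩ with hB
    have hc' : ∑ i, p i * c i = B := by rw [← hc]; exact Finset.sum_congr rfl fun i _ => mul_comm _ _
    have hle : kI b k ≤ kI b (k + 1) := by rw [kI_succ b k hk4]; exact le_sup_left
    have hBm : B ∈ kI b (k + 1) := by
      rw [kI_succ b k hk4]
      exact (le_sup_right : _ ≤ kI b k ⊔ Ideal.span {b ⟨k, hk4⟩}) (Ideal.subset_span rfl)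
    have hom : ∀ s, kD p (kW c z) s + kW c (kD p z) s = B * z s := by
      intro s
      rw [kD_kW, hc']
    have hwd : ∀ s, kW c (kD p z) s ∈ kI b k := kW_mem c _ _ hd
    have hy : ∀ s, kD p (kW c z) s ∈ kI b (k + 1) := by
      intro s
      rw [eq_sub_of_add_eq (hom s)]
      exact (kI b (k + 1)).sub_mem (Ideal.mul_mem_right _ _ hBm) (hle (hwd s))
    obtain ⟨y', hy'F, hy'⟩ := ih (k + 1) (by omega) (kW c z) (kW_F c z _ hz) hy
    have hu : ∀ s, ∃ u, kW c z s - kD p y' s - B * u ∈ kI b k ∧ (kP s < k + 2 → u = 0) := by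
      intro s
      by_cases hs : kP s < k + 2
      · refine ⟨0, ?_, fun _ => rfl⟩
        rw [kW_F c z _ hz s hs, kD_F p y' _ hy'F s hs]
        simp
      · have h1 := hy' s
        rw [kI_succ b k hk4, Submodule.mem_sup] at h1
        obtain ⟨v, hv, w, hw, hvw⟩ := h1
        obtain ⟨u, hu⟩ := Ideal.mem_span_singleton'.mp hw
        refine ⟨u, ?_, fun h => absurd h hs⟩
        have : kW c z s - kD p y' s - B * u = v := by
          rw [← hvw, ← hu]
          ring
        rw [this]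
        exact hv
    choose u hu1 hu2 using hu
    refine ⟨u, hu2, fun s => ?_⟩
    apply hreg k hk4
    have e1 : kW c z = fun i => kD p y' i + B * u i + (kW c z i - kD p y' i - B * u i) := by
      funext i
      ring
    have e2 := hom s
    rw [e1, kD_lin, kD_kD] at e2
    have e3 : B * (z s - kD p u s) = kD p (fun i => kW c z i - kD p y' i - B * u i) s +
        kW c (kD p z) s := by
      rw [mul_sub, ← e2]
      simp only [Pi.zero_apply]
      ring
    rw [e3]
    exact (kI b k).add_mem (kD_mem p _ _ hu1 s) (hwd s)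

end kos

theorem koszul_of_regular {R : Type*} [CommRing R] (p b : Fin 4 → R)
    (hb : ∀ i, b i ∈ Ideal.span (Set.range p))
    (hreg : ∀ j : Fin 4, ∀ r : R, b j * r ∈ Ideal.span (b '' {i | i < j}) →
      r ∈ Ideal.span (b '' {i | i < j}))
    (g : Fin 4 → R) (hg : ∑ i, p i * g i = 0) :
    ∃ h : Fin 4 → Fin 4 → R, (∀ i j, h i j = -h j i) ∧ (∀ i, h i i = 0) ∧
      ∀ i, g i = ∑ j, p j * h i j := by
  rw [Fin.sum_univ_four] at hg
  obtain ⟨y, -, hy⟩ := kA p b hb (fun k hk r h => hreg ⟨k, hk⟩ r h) 4 0 rfl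
    ![0, g 0, g 1, 0, g 2, 0, 0, 0, g 3, 0, 0, 0, 0, 0, 0, 0]
    (by
      intro s hs
      fin_cases s <;> simp [kP] at hs ⊢)
    (by
      intro s
      have : kD p ![0, g 0, g 1, 0, g 2, 0, 0, 0, g 3, 0, 0, 0, 0, 0, 0, 0] s = 0 := by
        fin_cases s <;> simp [kD]
        exact hg
      rw [this]
      exact Ideal.zero_mem _)
  have h0 : kI b 0 = ⊥ := by
    unfold kI
    simp
  rw [h0] at hy
  have h1 := hy 1
  have h2 := hy 2
  have h4 := hy 4
  have h8 := hy 8
  rw [Ideal.mem_bot, sub_eq_zero] at h1 h2 h4 h8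
  simp [kD] at h1 h2 h4 h8
  refine ⟨![![0, -y 3, -y 5, -y 9], ![y 3, 0, -y 6, -y 10], ![y 5, y 6, 0, -y 12],
    ![y 9, y 10, y 12, 0]], ?_, ?_, ?_⟩
  · intro i j
    fin_cases i <;> fin_cases j <;> simp
  · intro i
    fin_cases i <;> simp
  · intro i
    rw [Fin.sum_univ_four]
    fin_cases i
    · simp; rw [h1]; ring
    · simp; rw [h2]; ring
    · simp; rw [h4]; ring
    · simp; rw [h8]

end HV
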