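import Pool.Agent.Work.MP_e9f12e_ag.GPow
import Pool.Agent.Work.MP_e9f12e_ag.KosA

/-!
# KosG: syzygies of four germs generating an ideal of finite colength are Koszul

PROOF. Apply `koszul_of_regular` with `b i = mono (single i K) = X_i^K`, which lies in `mPow 4 K`.
Regularity: `Ideal.span (b '' {i | i < j})` = germs all of whose monomials `m` (nonzero coefficient)
satisfy `K ≤ m i` for some `i < j` (`⊆` is clear, the set is an ideal; `⊇` by `split_germ`, for
`j = 0` the set is `{0}`). If `X_j^K r` is in this set, so is `r`: the coefficient of `r` at `m` is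
the coefficient of `X_j^K r` at `m + K e_j`, which has the same coordinates `i < j`.
-/

namespace HV

open MvPowerSeries

private theorem kg_co_add {n : ℕ} (e m : Fin n →₀ ℕ) (r : Germ n) :
    co (e + m) (mono e * r) = co m r := by
  rw [co_def, map_mul, ser_mono, coeff_add_monomial_mul, one_mul, co_def]

private theorem kg_le (K : ℕ) (j : Fin 4) (r : Germ 4)
    (hr : r ∈ Ideal.span ((fun i : Fin 4 => (mono (Finsupp.single i K) : Germ 4)) '' {i | i < j})) :
    ∀ m, co m r ≠ 0 → ∃ i < j, K ≤ m i := by
  classical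
  induction hr using Submodule.span_induction with
  | mem x hx =>
    obtain ⟨i, hi, rfl⟩ := hx
    intro m hm
    have h1 : m = Finsupp.single i K := by
      by_contra h
      apply hm
      show co m (mono (Finsupp.single i K)) = 0
      rw [co_mono, if_neg h]
    exact ⟨i, hi, by rw [h1]; simp⟩
  | zero => exact fun m hm => absurd (map_zero (co m)) hm
  | add a b _ _ ha hb =>
    intro m hm
    rw [map_add] at hm
    by_cases h : co m a = 0
    · exact hb m (by rwa [h, zero_add] at hm)
    · exact ha m h
  | smul a b _ hb =>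
    intro m hm
    rw [smul_eq_mul, co_def, map_mul, coeff_mul] at hm
    obtain ⟨p, hp, hne⟩ := Finset.exists_ne_zero_of_sum_ne_zero hm
    have hp' := Finset.HasAntidiagonal.mem_antidiagonal.mp hp
    obtain ⟨i, hi, hK⟩ := hb p.2 (right_ne_zero_of_mul hne)
    exact ⟨i, hi, by rw [← hp', Finsupp.add_apply]; omega⟩

private theorem kg_mem (K : ℕ) (j : Fin 4) (r : Germ 4)
    (hr : ∀ m, co m r ≠ 0 → ∃ i < j, K ≤ m i) :
    r ∈ Ideal.span ((fun i : Fin 4 => (mono (Finsupp.single i K) : Germ 4)) '' {i | i < j}) := by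
  classical
  set c : (Fin 4 →₀ ℕ) → Fin 4 := fun m =>
    if h : ∃ i < j, K ≤ m i then h.choose else 0 with hc
  have hcs : ∀ m, co m r ≠ 0 → c m < j ∧ K ≤ m (c m) := by
    intro m hm
    have h := hr m hm
    have h1 : c m = h.choose := by rw [hc]; exact dif_pos h
    rw [h1]
    exact h.choose_spec
  obtain ⟨q, hq, hqc⟩ := split_germ (fun i : Fin 4 => Finsupp.single i K) c r (by
    intro m hm
    rw [Finsupp.single_le_iff]
    exact (hcs m hm).2)
  rw [hq]
  refine Ideal.sum_mem _ fun i _ => ?_
  by_cases hi : i < j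
  · exact Ideal.mul_mem_right _ _ (Ideal.subset_span ⟨i, hi, rfl⟩)
  · have h0 : q i = 0 := by
      apply germ_ext_co
      intro m
      rw [hqc, map_zero]
      split_ifs with h
      · by_contra hne
        apply hi
        rw [← h]
        exact (hcs _ hne).1
      · rfl
    rw [h0, mul_zero]
    exact Ideal.zero_mem _

theorem koszul_germ (p : Fin 4 → Germ 4) (K : ℕ) (hK : mPow 4 K ≤ Ideal.span (Set.range p))
    (g : Fin 4 → Germ 4) (hg : ∑ i, p i * g i = 0) :
    ∃ h : Fin 4 → Fin 4 → Germ 4, (∀ i j, h i j = -h j i) ∧ (∀ i, h i i = 0) ∧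
      ∀ i, g i = ∑ j, p j * h i j := by
  classical
  refine koszul_of_regular p (fun i => mono (Finsupp.single i K)) ?_ ?_ g hg
  · intro i
    apply hK
    rw [mem_mPow]
    intro m hm
    rw [co_mono, if_neg]
    rintro rfl
    simp [Finsupp.single_apply] at hm
  · intro j r hr
    have h1 := kg_le K j _ hr
    refine kg_mem K j r fun m hm => ?_
    obtain ⟨i, hi, hK⟩ := h1 (Finsupp.single j K + m) (by rwa [kg_co_add])
    refine ⟨i, hi, ?_⟩
    rw [Finsupp.add_apply, Finsupp.single_apply, if_neg (by rintro rfl; exact lt_irrefl _ hi),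
      zero_add] at hK
    exact hK

end HV
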