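import Pool.Agent.Work.MP_e9f12e_ag.KosG

/-!
# LenMul: additivity of the length of complete intersections

`len4 a b c d = dim_ℂ O/(a, b, c, d)` for germs in four variables.

PROOF of `len4_mul`. Let `I = (b, c, d)`. All ideals contain `mPow 4 K` (`(a a', I) ⊆ (a, I)`,
`(a', I)`), so all quotients are finite dimensional (`finite_of_mPow`). Exact sequence
`0 → O/(a', I) → O/(a a', I) → O/(a, I) → 0`, the first map is multiplication by `a`. It is
injective: if `a g = a a' h + i`, `i = b i_1 + c i_2 + d i_3`, then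
`a (g - a' h) - b i_1 - c i_2 - d i_3 = 0` is a syzygy of `(a, b, c, d)`, so by `koszul_germ`
`g - a' h ∈ (b, c, d)` (`h 0 0 = 0`), so `g ∈ (a', I)`. Dimensions: rank-nullity
(`LinearMap.finrank_range_add_finrank_ker` for the surjection `O/(a a', I) → O/(a, I)`, whose kernel
is the image of multiplication by `a`). NOTE that germs `a` may be units etc.; no hypothesis needed.
-/

namespace HV

/-- `dim_ℂ O/(a, b, c, d)`. -/
noncomputable def len4 (a b c d : Germ 4) : ℕ :=
  Module.finrank ℂ (Germ 4 ⧸ (Ideal.span {a, b, c, d} : Ideal (Germ 4)))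

private theorem finrank_quot_mul {R : Type*} [CommRing R] [Algebra ℂ R] (a : R) (J1 J2 J3 : Ideal R)
    [Module.Finite ℂ (R ⧸ J1)] (h3 : ∀ g, g ∈ J3 ↔ a * g ∈ J1) (h12 : J1 ≤ J2) (ha : a ∈ J2)
    (h2 : ∀ g ∈ J2, ∃ h, g - a * h ∈ J1) :
    Module.finrank ℂ (R ⧸ J1) = Module.finrank ℂ (R ⧸ J2) + Module.finrank ℂ (R ⧸ J3) := by
  let φ : (R ⧸ J3) →ₗ[R] (R ⧸ J1) :=
    Submodule.liftQ J3 ((Submodule.mkQ J1) ∘ₗ (LinearMap.mulLeft R a)) (by
      intro g hg
      rw [LinearMap.mem_ker, LinearMap.comp_apply, Submodule.mkQ_apply,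
        Submodule.Quotient.mk_eq_zero]
      exact (h3 g).1 hg)
  let π : (R ⧸ J1) →ₗ[R] (R ⧸ J2) := Submodule.factor h12
  have hφ : Function.Injective (φ.restrictScalars ℂ) := by
    rw [← LinearMap.ker_eq_bot, LinearMap.ker_eq_bot']
    intro q hq
    obtain ⟨g, rfl⟩ := Submodule.Quotient.mk_surjective J3 q
    have h : Submodule.Quotient.mk (p := J1) (a * g) = 0 := hq
    rw [Submodule.Quotient.mk_eq_zero] at h
    rw [Submodule.Quotient.mk_eq_zero]
    exact (h3 g).2 h
  have hπ : LinearMap.range (π.restrictScalars ℂ) = ⊤ := by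
    rw [LinearMap.range_eq_top]
    intro q
    obtain ⟨g, rfl⟩ := Submodule.Quotient.mk_surjective J2 q
    exact ⟨Submodule.Quotient.mk g, rfl⟩
  have hk : LinearMap.ker (π.restrictScalars ℂ) = LinearMap.range (φ.restrictScalars ℂ) := by
    ext q
    obtain ⟨g, rfl⟩ := Submodule.Quotient.mk_surjective J1 q
    rw [LinearMap.mem_ker, LinearMap.mem_range]
    constructor
    · intro hq
      have hq' : Submodule.Quotient.mk (p := J2) g = 0 := hq
      rw [Submodule.Quotient.mk_eq_zero] at hq'
      obtain ⟨h, hh⟩ := h2 g hq'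
      refine ⟨Submodule.Quotient.mk h, ?_⟩
      have : Submodule.Quotient.mk (p := J1) (a * h) = Submodule.Quotient.mk (p := J1) g := by
        rw [Submodule.Quotient.eq, ← neg_sub]
        exact J1.neg_mem hh
      exact this
    · rintro ⟨r, hr⟩
      obtain ⟨h, rfl⟩ := Submodule.Quotient.mk_surjective J3 r
      have hr' : Submodule.Quotient.mk (p := J1) (a * h) = Submodule.Quotient.mk (p := J1) g := hr
      rw [Submodule.Quotient.eq] at hr'
      change Submodule.Quotient.mk (p := J2) g = 0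
      rw [Submodule.Quotient.mk_eq_zero]
      have := J2.sub_mem (J2.mul_mem_right h ha) (h12 hr')
      rwa [sub_sub_cancel] at this
  have := LinearMap.finrank_range_add_finrank_ker (π.restrictScalars ℂ)
  rw [hπ, finrank_top, hk, LinearMap.finrank_range_of_inj hφ] at this
  exact this.symm

private theorem sum_span4 (p : Fin 4 → Germ 4) (a b c d : Germ 4) (h0 : p 0 = a) (h1 : p 1 = b)
    (h2 : p 2 = c) (h3 : p 3 = d) :
    Ideal.span (Set.range p) = Ideal.span {a, b, c, d} := by
  congr 1
  ext g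
  simp only [Set.mem_range, Fin.exists_fin_succ, Set.mem_insert_iff, Set.mem_singleton_iff]
  constructor
  · rintro (h | h | h | h | ⟨i, _⟩)
    · left; rw [← h]; exact h0
    · right; left; rw [← h]; exact h1
    · right; right; left; rw [← h]; exact h2
    · right; right; right; rw [← h]; exact h3
    · exact i.elim0
  · rintro (h | h | h | h)
    · left; rw [h]; exact h0
    · right; left; rw [h]; exact h1
    · right; right; left; rw [h]; exact h2
    · right; right; right; left; rw [h]; exact h3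

/-- Membership in an ideal generated by four elements. -/
theorem mem_spanQ {R : Type*} [CommRing R] {a b c d g : R} :
    g ∈ (Ideal.span {a, b, c, d} : Ideal R) ↔ ∃ p q r s, g = p * a + q * b + r * c + s * d := by
  constructor
  · intro h
    rw [Ideal.mem_span_insert] at h
    obtain ⟨p, z, hz, rfl⟩ := h
    rw [Ideal.mem_span_insert] at hz
    obtain ⟨q, z, hz, rfl⟩ := hz
    rw [Ideal.mem_span_pair] at hz
    obtain ⟨r, s, rfl⟩ := hz
    exact ⟨p, q, r, s, by ring⟩
  · rintro ⟨p, q, r, s, rfl⟩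
    have ha : a ∈ (Ideal.span {a, b, c, d} : Ideal R) := Ideal.subset_span (by simp)
    have hb : b ∈ (Ideal.span {a, b, c, d} : Ideal R) := Ideal.subset_span (by simp)
    have hc : c ∈ (Ideal.span {a, b, c, d} : Ideal R) := Ideal.subset_span (by simp)
    have hd : d ∈ (Ideal.span {a, b, c, d} : Ideal R) := Ideal.subset_span (by simp)
    exact Ideal.add_mem _ (Ideal.add_mem _ (Ideal.add_mem _ (Ideal.mul_mem_left _ _ ha)
      (Ideal.mul_mem_left _ _ hb)) (Ideal.mul_mem_left _ _ hc)) (Ideal.mul_mem_left _ _ hd)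

theorem len4_congr {a b c d a' b' c' d' : Germ 4}
    (h : (Ideal.span {a, b, c, d} : Ideal (Germ 4)) = Ideal.span {a', b', c', d'}) :
    len4 a b c d = len4 a' b' c' d' := by
  rw [len4, len4, h]

theorem len4_mul (a a' b c d : Germ 4) (K : ℕ)
    (hK : mPow 4 K ≤ (Ideal.span {a * a', b, c, d} : Ideal (Germ 4))) :
    len4 (a * a') b c d = len4 a b c d + len4 a' b c d := by
  have hle : (Ideal.span {a * a', b, c, d} : Ideal (Germ 4)) ≤ Ideal.span {a, b, c, d} := by
    intro g hg
    rw [mem_spanQ] at hg ⊢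
    obtain ⟨p, q, r, s, rfl⟩ := hg
    exact ⟨p * a', q, r, s, by ring⟩
  have : Module.Finite ℂ (Germ 4 ⧸ (Ideal.span {a * a', b, c, d} : Ideal (Germ 4))) :=
    finite_of_mPow _ K hK
  refine finrank_quot_mul a _ _ _ ?_ hle (Ideal.subset_span (by simp)) ?_
  · intro g
    constructor
    · intro hg
      rw [mem_spanQ] at hg ⊢
      obtain ⟨p, q, r, s, rfl⟩ := hg
      exact ⟨p, a * q, a * r, a * s, by ring⟩
    · intro hg
      rw [mem_spanQ] at hg ⊢
      obtain ⟨p, q, r, s, h⟩ := hg
      obtain ⟨k, -, hk0, hk⟩ := koszul_germ ![a, b, c, d] K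
        (by rw [sum_span4 ![a, b, c, d] a b c d rfl rfl rfl rfl]; exact hK.trans hle)
        ![g - p * a', -q, -r, -s] (by
          simp only [Fin.sum_univ_four]
          change a * (g - p * a') + b * (-q) + c * (-r) + d * (-s) = 0
          rw [mul_sub, h]
          ring)
      have h0 := hk 0
      simp only [Fin.sum_univ_four] at h0
      change g - p * a' = a * k 0 0 + b * k 0 1 + c * k 0 2 + d * k 0 3 at h0
      rw [hk0 0] at h0
      exact ⟨p, k 0 1, k 0 2, k 0 3, by rw [eq_add_of_sub_eq h0]; ring⟩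
  · intro g hg
    rw [mem_spanQ] at hg
    obtain ⟨p, q, r, s, rfl⟩ := hg
    refine ⟨p, ?_⟩
    rw [mem_spanQ]
    exact ⟨0, q, r, s, by ring⟩

theorem len4_pow (a b c d : Germ 4) (K k : ℕ)
    (hK : mPow 4 K ≤ (Ideal.span {a ^ k, b, c, d} : Ideal (Germ 4))) :
    len4 (a ^ k) b c d = k * len4 a b c d := by
  induction k with
  | zero =>
    rw [pow_zero, zero_mul, len4]
    have h : (Ideal.span {1, b, c, d} : Ideal (Germ 4)) = ⊤ := by
      rw [Ideal.eq_top_iff_one]
      exact Ideal.subset_span (by simp)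
    rw [h]
    have : Subsingleton (Germ 4 ⧸ (⊤ : Ideal (Germ 4))) := Ideal.Quotient.subsingleton_iff.2 rfl
    exact Module.finrank_zero_of_subsingleton
  | succ k ih =>
    have h : mPow 4 K ≤ (Ideal.span {a ^ k, b, c, d} : Ideal (Germ 4)) := by
      refine hK.trans ?_
      intro g hg
      rw [mem_spanQ] at hg ⊢
      obtain ⟨p, q, r, s, rfl⟩ := hg
      exact ⟨p * a, q, r, s, by ring⟩
    rw [pow_succ, len4_mul (a ^ k) a b c d K (by rw [← pow_succ]; exact hK), ih h]
    ring

end HV
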