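import Pool.Agent.Work.MP_e9f12e_ag.RMain
import Pool.Agent.Work.MP_e9f12e_ag.IclStep
import Pool.Agent.Work.MP_e9f12e_ag.GPow

/-!
# MPow: the Jacobian ideal contains a power of the maximal ideal

PROOF. `Icl_le_Q'`: from `Icl_step` and `mono_mem_Q`: `Icl b ≤ Sp b ⊔ Rb b ⊔ Icl (b + 1)`.
No element of `BSet` has order `> 120` (`decide +kernel`), so `Sp b = ⊥` for `b > 120`, and
`Rb b ≤ J` (`Rb_le_jac`). So `Icl b ≤ J ⊔ Icl (b + 1)` for `b > 120` and by induction on `b' - b`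
`Icl b ≤ J ⊔ Icl b'`. A germ in `mPow 4 13` lies in `Icl 130` (`ten_mul_le_lin`), a germ in
`Icl (24 * 13 + 1)` lies in `mPow 4 14` (`lin_le`). So `mPow 4 13 ≤ J ⊔ mPow 4 14` and `nakayama`.
-/

namespace HV

theorem Icl_le_Q' (b : ℤ) : Icl b ≤ Q b := by
  refine (Icl_step b).trans (sup_le ?_ (Icl_le_Q b))
  rw [Submodule.span_le]
  rintro g ⟨m, hm, rfl⟩
  exact mono_mem_Q ((le_ordF_iff b m).1 hm.ge)

theorem ordN_le_of_mem_BSet {p : ℕ × ℕ × ℕ × ℕ} (hp : p ∈ BSet) : ordN p ≤ 120 := by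
  have h : ∀ p ∈ BSet, ordN p ≤ 120 := by decide +kernel
  exact h p hp

theorem mPow_le_Icl (K : ℕ) : (mPow 4 K).restrictScalars ℂ ≤ Icl (10 * K) := by
  intro g hg m hm k
  have h1 : K ≤ ∑ i, m i := by
    by_contra h
    exact hm (hg m (not_le.1 h))
  have h2 := ten_mul_le_lin k m
  have h3 : (K : ℤ) ≤ ((∑ i, m i : ℕ) : ℤ) := by exact_mod_cast h1
  linarith

theorem Icl_le_mPow (K : ℕ) {b : ℤ} (h : 24 * (K : ℤ) < b + 24) :
    Icl b ≤ (mPow 4 K).restrictScalars ℂ := by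
  intro g hg m hm
  by_contra h1
  have h2 := hg m h1 0
  have h3 := lin_le 0 m
  have h4 : ((∑ i, m i : ℕ) : ℤ) + 1 ≤ (K : ℤ) := by exact_mod_cast hm
  linarith

private theorem mpowSp {b : ℤ} (h : 120 < b) : SpGe b = ⊥ := by
  rw [SpGe, Submodule.span_eq_bot]
  rintro _ ⟨p, ⟨hp1, hp2⟩, rfl⟩
  have := ordN_le_of_mem_BSet hp1
  omega

private theorem mpowStep {b : ℤ} (h : 120 < b) :
    Icl b ≤ (jacobianIdeal f0).restrictScalars ℂ ⊔ Icl (b + 1) := by
  refine (Icl_le_Q' b).trans ?_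
  refine sup_le (sup_le ?_ ((Rb_le_jac b).trans le_sup_left)) le_sup_right
  refine (Sp_le_SpGe b).trans ?_
  rw [mpowSp h]
  exact bot_le

theorem mPow_le_jac : mPow 4 13 ≤ jacobianIdeal f0 := by
  apply nakayama
  have h : ∀ n : ℕ, Icl 130 ≤ (jacobianIdeal f0).restrictScalars ℂ ⊔ Icl (130 + n) := by
    intro n
    induction n with
    | zero => simp
    | succ n ih =>
      refine ih.trans (sup_le le_sup_left ?_)
      have := mpowStep (b := 130 + (n : ℤ)) (by omega)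
      push_cast
      rwa [← add_assoc]
  intro g hg
  have h1 : g ∈ Icl 130 := by
    have := mPow_le_Icl 13 (show g ∈ (mPow 4 13).restrictScalars ℂ from hg)
    simpa using this
  have h2 := h 183 h1
  obtain ⟨a, ha, c, hc, e⟩ := Submodule.mem_sup.1 h2
  have h3 := Icl_le_mPow 14 (b := 130 + ((183 : ℕ) : ℤ)) (by norm_num) hc
  rw [← e]
  exact Submodule.add_mem_sup (show a ∈ jacobianIdeal f0 from ha) (show c ∈ mPow 4 (13 + 1) from h3)

end HV
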