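import Pool.Agent.Work.MP_e9f12e_ag.Defs

/-!
# Moment: the second Bernoulli moment
-/

namespace HV

theorem moment_log0 : PowerSeries.coeff 0 logSinh = 0 := by
  rw [logSinh, PowerSeries.coeff_mk]
  simp

theorem moment_log1 : PowerSeries.coeff 1 logSinh = 0 := by
  rw [logSinh, PowerSeries.coeff_mk, if_pos]
  right
  decide

theorem moment_log2 : PowerSeries.coeff 2 logSinh = -1 / 24 := by
  rw [logSinh, PowerSeries.coeff_mk, if_neg]
  · rw [bernoulli_eq_bernoulli'_of_ne_one (by norm_num), bernoulli'_two]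
    norm_num [Nat.factorial]
  · push Not
    refine ⟨by norm_num, ?_⟩
    decide

theorem moment_L (ν : ℚ) (m : ℕ) : PowerSeries.coeff m (PowerSeries.C ν * logSinh) =
    ν * PowerSeries.coeff m logSinh := by
  rw [PowerSeries.coeff_C_mul]

theorem moment_exp0 (ν : ℚ) : PowerSeries.coeff 0 (expSeries (PowerSeries.C ν * logSinh)) = 1 := by
  rw [expSeries, PowerSeries.coeff_mk]
  simp

theorem moment_exp1 (ν : ℚ) : PowerSeries.coeff 1 (expSeries (PowerSeries.C ν * logSinh)) = 0 := by
  rw [expSeries, PowerSeries.coeff_mk, Finset.sum_range_succ, Finset.sum_range_succ,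
    Finset.sum_range_zero, pow_zero, pow_one, moment_L, moment_log1, PowerSeries.coeff_one]
  norm_num

theorem moment_exp2 (ν : ℚ) :
    PowerSeries.coeff 2 (expSeries (PowerSeries.C ν * logSinh)) = -ν / 24 := by
  have h2 : PowerSeries.coeff 2 ((PowerSeries.C ν * logSinh) ^ 2) = 0 := by
    rw [pow_two, PowerSeries.coeff_mul, Finset.Nat.sum_antidiagonal_eq_sum_range_succ_mk,
      Finset.sum_range_succ, Finset.sum_range_succ, Finset.sum_range_succ, Finset.sum_range_zero]
    simp only [Nat.sub_zero, Nat.sub_self]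
    rw [moment_L, moment_L, moment_L, moment_log0, moment_log1]
    ring
  rw [expSeries, PowerSeries.coeff_mk, Finset.sum_range_succ, Finset.sum_range_succ,
    Finset.sum_range_succ, Finset.sum_range_zero, pow_zero, pow_one, h2, moment_L, moment_log2,
    PowerSeries.coeff_one]
  norm_num
  ring

theorem moment_sum {N : ℕ} (a : Fin N → ℚ) (m : ℕ) :
    PowerSeries.coeff m (∑ j, PowerSeries.rescale (a j) (PowerSeries.exp ℚ)) =
      (∑ j, a j ^ m) * (1 / (m.factorial : ℚ)) := by
  rw [map_sum, Finset.sum_mul]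
  refine Finset.sum_congr rfl fun j _ => ?_
  rw [PowerSeries.coeff_rescale, PowerSeries.coeff_exp]
  rfl

theorem bernoulliMoment_two {N : ℕ} (a : Fin N → ℚ) (ν : ℚ) :
    bernoulliMoment a ν 2 = ∑ j, a j ^ 2 - N * ν / 12 := by
  rw [bernoulliMoment, PowerSeries.coeff_mul, Finset.Nat.sum_antidiagonal_eq_sum_range_succ_mk,
      Finset.sum_range_succ, Finset.sum_range_succ, Finset.sum_range_succ, Finset.sum_range_zero]
  simp only [Nat.sub_zero, Nat.sub_self]
  rw [show (2 - 1 : ℕ) = 1 from rfl, moment_exp0, moment_exp1, moment_exp2, moment_sum, moment_sum,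
    moment_sum]
  have hN : (∑ j : Fin N, a j ^ 0) = N := by simp
  have h2 : ((Nat.factorial 2 : ℕ) : ℚ) = 2 := by norm_num [Nat.factorial]
  have h0 : ((Nat.factorial 0 : ℕ) : ℚ) = 1 := by norm_num [Nat.factorial]
  rw [hN, h2, h0]
  generalize (∑ j, a j ^ 2) = S
  ring

theorem bernoulliMoment_zero {N : ℕ} (a : Fin N → ℚ) (ν : ℚ) :
    bernoulliMoment a ν 0 = N := by
  rw [bernoulliMoment, PowerSeries.coeff_mul, Finset.Nat.sum_antidiagonal_eq_sum_range_succ_mk,
      Finset.sum_range_succ, Finset.sum_range_zero]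
  simp only [Nat.sub_zero]
  rw [moment_exp0, moment_sum]
  norm_num [Nat.factorial]

end HV
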