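import Mathlib

/-!
# Spec: the list of the spectral numbers
-/

namespace HV

/-- The spectral numbers of `f0` in `(0, 4)`, multiplied by 60, in increasing order. -/
def specList : List ℤ :=
  List.replicate 1 60 ++ List.replicate 2 70 ++ List.replicate 2 72 ++ List.replicate 2 80 ++
  List.replicate 7 84 ++ List.replicate 3 90 ++ List.replicate 4 95 ++ List.replicate 8 96 ++
  List.replicate 2 100 ++ List.replicate 6 105 ++ List.replicate 13 108 ++ List.replicate 2 110 ++
  List.replicate 4 115 ++ List.replicate 20 120 ++ List.replicate 4 125 ++ List.replicate 2 130 ++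
  List.replicate 13 132 ++ List.replicate 6 135 ++ List.replicate 2 140 ++ List.replicate 8 144 ++
  List.replicate 4 145 ++ List.replicate 3 150 ++ List.replicate 7 156 ++ List.replicate 2 160 ++
  List.replicate 2 168 ++ List.replicate 2 170 ++ List.replicate 1 180

/-- The normalized spectrum of `f0`. -/
def spec (j : Fin 132) : ℚ := ((specList.getD j 0 : ℤ) : ℚ) / 60 - 2

end HV
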