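import Pool.Agent.Work.MP_e9f12e_ag.Base
import Pool.Agent.Work.MP_e9f12e_ag.Spec

/-!
# Numeric: the spectrum of `f0` as a sorted list
-/

namespace HV

theorem numeric_mono : ∀ i j : Fin 132, i ≤ j → specList.getD i 0 ≤ specList.getD j 0 := by
  decide +kernel

theorem spec_monotone : Monotone spec := by
  intro i j h
  have := numeric_mono i j h
  have h2 : ((specList.getD i 0 : ℤ) : ℚ) ≤ ((specList.getD j 0 : ℤ) : ℚ) := by exact_mod_cast this
  unfold spec
  linarith

theorem numeric_bound1 : ∀ j : Fin 132, 0 ≤ specList.getD j 0 ∧ specList.getD j 0 < 200 := by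
  decide +kernel

theorem numeric_bound2 : ∀ p ∈ BSet, 0 ≤ 60 + ordN p ∧ 60 + ordN p < 200 := by
  decide +kernel

theorem numeric_count : ∀ v : Fin 200,
    (Finset.univ.filter fun j : Fin 132 => specList.getD j 0 = (v : ℤ)).card =
      (BSet.filter fun p => 60 + ordN p = (v : ℤ)).card := by
  decide +kernel

theorem spec_count (α : ℚ) : (Finset.univ.filter fun j => spec j + ((4 : ℕ) : ℚ) / 2 = α).card =
    (BSet.filter fun p => ((60 + ordN p : ℤ) : ℚ) / 60 = α).card := by
  have e1 : ∀ j : Fin 132, (spec j + ((4 : ℕ) : ℚ) / 2 = α ↔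
      ((specList.getD j 0 : ℤ) : ℚ) = 60 * α) := by
    intro j
    unfold spec
    constructor
    · intro h
      rw [← h]
      push_cast
      ring
    · intro h
      rw [h]
      push_cast
      ring
  have e2 : ∀ p : ℕ × ℕ × ℕ × ℕ, (((60 + ordN p : ℤ) : ℚ) / 60 = α ↔
      ((60 + ordN p : ℤ) : ℚ) = 60 * α) := by
    intro p
    constructor
    · intro h
      rw [← h]
      field_simp
    · intro h
      rw [h]
      field_simp
  rw [Finset.filter_congr (fun j _ => e1 j), Finset.filter_congr (fun p _ => e2 p)]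
  by_cases hv : ∃ v : Fin 200, ((v : ℕ) : ℚ) = 60 * α
  · obtain ⟨v, hv⟩ := hv
    have h := numeric_count v
    have e3 : ∀ j : Fin 132, (((specList.getD j 0 : ℤ) : ℚ) = 60 * α ↔
        specList.getD j 0 = ((v : ℕ) : ℤ)) := by
      intro j
      rw [← hv]
      constructor
      · intro h; exact_mod_cast h
      · intro h; rw [h]; push_cast; rfl
    have e4 : ∀ p : ℕ × ℕ × ℕ × ℕ, (((60 + ordN p : ℤ) : ℚ) = 60 * α ↔
        60 + ordN p = ((v : ℕ) : ℤ)) := by
      intro p
      rw [← hv]
      constructor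
      · intro h; exact_mod_cast h
      · intro h; rw [h]; push_cast; rfl
    rw [Finset.filter_congr (fun j _ => e3 j), Finset.filter_congr (fun p _ => e4 p)]
    exact h
  · have hA : (Finset.univ.filter fun j : Fin 132 => ((specList.getD j 0 : ℤ) : ℚ) = 60 * α) = ∅ := by
      apply Finset.filter_false_of_mem
      intro j _ h
      obtain ⟨h1, h2⟩ := numeric_bound1 j
      apply hv
      refine ⟨⟨(specList.getD j 0).toNat, by omega⟩, ?_⟩
      rw [← h]
      have : (((specList.getD j 0).toNat : ℕ) : ℤ) = specList.getD j 0 := Int.toNat_of_nonneg h1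
      calc (((specList.getD j 0).toNat : ℕ) : ℚ) = ((((specList.getD j 0).toNat : ℕ) : ℤ) : ℚ) := by
            push_cast; rfl
        _ = ((specList.getD j 0 : ℤ) : ℚ) := by rw [this]
    have hB : (BSet.filter fun p => ((60 + ordN p : ℤ) : ℚ) = 60 * α) = ∅ := by
      apply Finset.filter_false_of_mem
      intro p hp h
      obtain ⟨h1, h2⟩ := numeric_bound2 p hp
      apply hv
      refine ⟨⟨(60 + ordN p).toNat, by omega⟩, ?_⟩
      rw [← h]
      have : (((60 + ordN p).toNat : ℕ) : ℤ) = 60 + ordN p := Int.toNat_of_nonneg h1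
      calc (((60 + ordN p).toNat : ℕ) : ℚ) = ((((60 + ordN p).toNat : ℕ) : ℤ) : ℚ) := by push_cast; rfl
        _ = ((60 + ordN p : ℤ) : ℚ) := by rw [this]
    rw [hA, hB, Finset.card_empty, Finset.card_empty]

theorem numeric_sq : ∑ j : Fin 132, (specList.getD j 0 - 120) ^ 2 = 79220 := by
  decide +kernel

theorem spec_sq : ∑ j, spec j ^ 2 = 3961 / 180 := by
  have h : ∑ j : Fin 132, spec j ^ 2 = ((∑ j : Fin 132, (specList.getD j 0 - 120) ^ 2 : ℤ) : ℚ) / 3600 := by
    push_cast
    rw [Finset.sum_div]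
    refine Finset.sum_congr rfl fun j _ => ?_
    unfold spec
    ring
  rw [h, numeric_sq]
  norm_num

theorem numeric_last : specList.getD (Fin.last 131 : Fin 132) 0 = 180 ∧
    specList.getD (0 : Fin 132) 0 = 60 := by
  decide +kernel

theorem spec_last : spec (Fin.last 131) - spec 0 = 2 := by
  unfold spec
  rw [numeric_last.1, numeric_last.2]
  norm_num

end HV
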