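import Pool.Agent.Work.MP_e9f12e_ag.VStrict

/-!
# VSpec: the multiplicities of the spectrum

PROOF of `specMult_f0`. Put `b = ⌈60 α⌉`, `b' = ⌊60 α⌋ + 1`; `Vf α = Nlev b`, `VGT Vf α = Nlev b'`
(`VGT_Vf`). If `60 α` is not an integer, `b = b'` and both sides are `0` (the quotient of a module by
itself; `(60 + ordN p)/60 = α` is impossible). If `60 α = b`, `b' = b + 1`: by `specFil_Nlev` the
space is `G_b / G_{b+1}`, `G_b = cls 0 (SpGe (b - 60)) ⊔ θ H`. The linear map
`Sp (b - 60) → G_b / G_{b+1}`, `s ↦ [cls 0 s]`, is surjective since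
`SpGe (b - 60) ≤ Sp (b - 60) ⊔ SpGe (b - 59)`, and injective: if
`cls 0 s = cls 0 s' + θ(..)`, `s' ∈ SpGe (b - 59)`, then `s - s' ∈ J` by `jac_of_theta`,
and by `mem_Sp`, `mem_SpGe`, `bindep` all coefficients of `s - s'` vanish, so `s = 0`. And
`dim Sp (b - 60) = #{p ∈ BSet | ordN p = b - 60}` since the family `monP p`, `p ∈ BSet`, is linearly
independent (`bindep`, or because the monomials are distinct): `finrank_span_eq_card` or
`finrank_span_set_eq_card`.
-/

namespace HV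

theorem finrank_Sp (b : ℤ) : Module.finrank ℂ (Sp b) = (BSet.filter fun p => ordN p = b).card := by
  classical
  let F : Finset (ℕ × ℕ × ℕ × ℕ) := BSet.filter fun p => ordN p = b
  have hF : ∀ p, p ∈ F ↔ p ∈ BSet ∧ ordN p = b := fun p => Finset.mem_filter
  let v : F → Germ 4 := fun p => monP p.1
  have hv : LinearIndependent ℂ v := by
    rw [Fintype.linearIndependent_iff]
    intro g hg i
    let c : ℕ × ℕ × ℕ × ℕ → ℂ := fun p => if h : p ∈ F then g ⟨p, h⟩ else 0
    have hc : ∀ i : F, c i.1 = g i := fun i => by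
      change (if h : i.1 ∈ F then g ⟨i.1, h⟩ else 0) = g i
      rw [dif_pos i.2]
    have hsum : ∑ p ∈ BSet, c p • monP p = 0 := by
      have h1 : ∑ p ∈ F, c p • monP p = ∑ p ∈ BSet, c p • monP p := by
        apply Finset.sum_subset (Finset.filter_subset _ _)
        intro p _ hp
        have : c p = 0 := dif_neg hp
        rw [this, zero_smul]
      rw [← h1, ← Finset.sum_coe_sort F (fun p => c p • monP p), ← hg]
      exact Finset.sum_congr rfl fun i _ => by rw [hc]
    have h2 := bindep c (by rw [hsum]; exact Ideal.zero_mem _) i.1 ((hF _).1 i.2).1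
    rw [← hc, h2]
  have h := finrank_span_eq_card hv
  have hr : Set.range v = monP '' {p | p ∈ BSet ∧ ordN p = b} := by
    ext x
    constructor
    · rintro ⟨i, rfl⟩
      exact ⟨i.1, (hF _).1 i.2, rfl⟩
    · rintro ⟨p, hp, rfl⟩
      exact ⟨⟨p, (hF _).2 hp⟩, rfl⟩
  rw [hr, Fintype.card_coe] at h
  exact h

private theorem VSpec_split (b : ℤ) : SpGe b ≤ Sp b ⊔ SpGe (b + 1) := by
  refine Submodule.span_le.2 ?_
  rintro _ ⟨p, ⟨hp, hb⟩, rfl⟩
  rcases hb.eq_or_lt with h | h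
  · exact Submodule.mem_sup_left (Submodule.subset_span ⟨p, ⟨hp, h.symm⟩, rfl⟩)
  · exact Submodule.mem_sup_right (Submodule.subset_span ⟨p, ⟨hp, h⟩, rfl⟩)

private theorem VSpec_zero {b : ℤ} {s s' : Germ 4} (hs : s ∈ Sp b) (hs' : s' ∈ SpGe (b + 1))
    (h : s - s' ∈ jacobianIdeal f0) : s = 0 := by
  obtain ⟨c, hc, hcs⟩ := mem_Sp hs
  obtain ⟨c', hc', hcs'⟩ := mem_SpGe hs'
  have h1 : s - s' = ∑ p ∈ BSet, (c p - c' p) • monP p := by
    rw [hcs, hcs', ← Finset.sum_sub_distrib]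
    exact Finset.sum_congr rfl fun p _ => (sub_smul _ _ _).symm
  rw [h1] at h
  have h2 := bindep (fun p => c p - c' p) h
  rw [hcs]
  refine Finset.sum_eq_zero fun p hp => ?_
  have h3 : c p = 0 := by
    by_cases ho : ordN p = b
    · have h4 := h2 p hp
      have h5 := hc' p (by omega)
      simpa [h5] using h4
    · exact hc p ho
  rw [h3, zero_smul]

private theorem VSpec_finrank (b : ℤ) :
    Module.finrank ℂ (specFil f0 (Nlev b) ⧸
      (specFil f0 (Nlev (b + 1))).submoduleOf (specFil f0 (Nlev b))) =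
      Module.finrank ℂ (Sp (b - 60)) := by
  rw [specFil_Nlev, specFil_Nlev]
  have hb : b + 1 - 60 = b - 60 + 1 := by ring
  rw [hb]
  set G := (SpGe (b - 60)).map (cls f0 0) ⊔ (brieskorn f0).map (dtInv f0) with hG
  set G' := (SpGe (b - 60 + 1)).map (cls f0 0) ⊔ (brieskorn f0).map (dtInv f0) with hG'
  have hmem : ∀ s : Sp (b - 60), (cls f0 0 ∘ₗ (Sp (b - 60)).subtype) s ∈ G := fun s =>
    Submodule.mem_sup_left (Submodule.mem_map_of_mem (Sp_le_SpGe _ s.2))
  let ψ : Sp (b - 60) →ₗ[ℂ] G := LinearMap.codRestrict G (cls f0 0 ∘ₗ (Sp (b - 60)).subtype) hmem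
  let φ : Sp (b - 60) →ₗ[ℂ] (G ⧸ G'.submoduleOf G) := (G'.submoduleOf G).mkQ ∘ₗ ψ
  have hinj : Function.Injective φ := by
    rw [← LinearMap.ker_eq_bot, LinearMap.ker_eq_bot']
    intro s hs
    have h1 : ψ s ∈ G'.submoduleOf G := (Submodule.Quotient.mk_eq_zero _).1 hs
    have h2 : cls f0 0 (s : Germ 4) ∈ G' := h1
    obtain ⟨a, ⟨s', hs', rfl⟩, t, ht, hst⟩ := Submodule.mem_sup.1 h2
    have h3 : cls f0 0 ((s : Germ 4) - s') ∈ (brieskorn f0).map (dtInv f0) := by
      rw [map_sub, ← hst, add_sub_cancel_left]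
      exact ht
    exact Subtype.ext (VSpec_zero s.2 hs' (jac_of_theta h3))
  have hsurj : Function.Surjective φ := by
    intro q
    obtain ⟨⟨x, hx⟩, rfl⟩ := Submodule.mkQ_surjective _ q
    obtain ⟨a, ⟨g, hg, rfl⟩, t, ht, hxt⟩ := Submodule.mem_sup.1 hx
    obtain ⟨s, hs, g', hg', hsg⟩ := Submodule.mem_sup.1 (VSpec_split _ hg)
    refine ⟨⟨s, hs⟩, ?_⟩
    change (G'.submoduleOf G).mkQ (ψ ⟨s, hs⟩) = (G'.submoduleOf G).mkQ ⟨x, hx⟩
    rw [Submodule.mkQ_apply, Submodule.mkQ_apply, Submodule.Quotient.eq]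
    change cls f0 0 s - x ∈ G'
    have h1 : cls f0 0 s - x = -(cls f0 0 g' + t) := by
      rw [← hxt, ← hsg, map_add]
      abel
    rw [h1]
    exact Submodule.neg_mem _ (Submodule.add_mem _
      (Submodule.mem_sup_left (Submodule.mem_map_of_mem hg')) (Submodule.mem_sup_right ht))
  exact (LinearEquiv.ofBijective φ ⟨hinj, hsurj⟩).finrank_eq.symm

theorem specMult_f0 (α : ℚ) : specMult f0 Vf α =
    (BSet.filter fun p => ((60 + ordN p : ℤ) : ℚ) / 60 = α).card := by
  by_cases h : ((⌊60 * α⌋ : ℤ) : ℚ) = 60 * α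
  · have h2 : ⌈60 * α⌉ = ⌊60 * α⌋ := by
      conv_lhs => rw [← h]
      exact Int.ceil_intCast _
    rw [specMult, VGT_Vf, Vf, h2, VSpec_finrank, finrank_Sp]
    congr 1
    refine Finset.filter_congr fun p _ => ?_
    rw [div_eq_iff (by norm_num : (60 : ℚ) ≠ 0), mul_comm α 60]
    have h4 : ((60 + ordN p : ℤ) : ℚ) = 60 * α ↔ 60 + ordN p = ⌊60 * α⌋ := by
      constructor
      · intro h3
        rw [← h] at h3
        exact Int.cast_inj.1 h3
      · intro h3
        rw [h3, h]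
    rw [h4]
    constructor <;> intro h3 <;> omega
  · have h2 : ⌊60 * α⌋ + 1 = ⌈60 * α⌉ := by
      have h3 := Int.floor_le (60 * α)
      have h4 := Int.lt_floor_add_one (60 * α)
      symm
      rw [Int.ceil_eq_iff]
      push_cast
      refine ⟨?_, h4.le⟩
      rw [add_sub_cancel_right]
      exact lt_of_le_of_ne h3 h
    rw [specMult, VGT_Vf, Vf, h2, Submodule.submoduleOf_self]
    have h5 : (BSet.filter fun p => ((60 + ordN p : ℤ) : ℚ) / 60 = α) = ∅ := by
      refine Finset.filter_eq_empty_iff.2 fun p _ hp => h ?_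
      rw [div_eq_iff (by norm_num : (60 : ℚ) ≠ 0), mul_comm α 60] at hp
      rw [← hp, Int.floor_intCast]
    rw [h5, Finset.card_empty]
    have : Subsingleton (specFil f0 (Nlev ⌈60 * α⌉) ⧸
        (⊤ : Submodule ℂ (specFil f0 (Nlev ⌈60 * α⌉)))) :=
      Submodule.Quotient.subsingleton_iff.2 rfl
    exact Module.finrank_zero_of_subsingleton

end HV
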