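import Pool.Agent.Work.MP_e9f12e_ag.GMBasic

/-!
# VUnique: the V-filtration is unique (for every germ `f`)

PROOF. Let `V`, `V'` be V-filtrations, `E = dt ∘ tMul`.
* `E (V α) ≤ V α`: `tMul v ∈ V (α + 1) = (V α).map dtInv`, and `dt (dtInv x) = x`. Same for `V'`.
* Bezout: for `α ≠ β` and `v ∈ V α ⊓ V' β`: with `k`, `l` from `nilpotent` (for `V, α` and `V', β`), the
  polynomials `(X - α)^k`, `(X - β)^l` are coprime (`IsCoprime.pow`, `Polynomial.isCoprime_X_sub_C_of_isUnit_sub`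
  or `Polynomial.pairwise_coprime_X_sub_C`), so `v = P(E) (E - α)^k v + Q(E) (E - β)^l v` lies in
  `(VGT V α ⊓ V' β) + (V α ⊓ VGT V' β)`. (`P(E)` preserves `V β`, `V' β`, and `VGT V α`; `VGT V α` is
  a `V` of a larger index, see next; `Polynomial.aeval E`.)
* Discreteness: let `N` be a common denominator (product of the two `N`'s; if `V α = V (⌈M α⌉ / M)` for
  all `α` then the same for multiples `M M'` of `M`: apply the `M` version to both sides, `⌈M (⌈M M' α⌉ / (M M'))⌉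
  = ⌈M α⌉`). Put `W j = V (j / N)`, `W' j = V' (j / N)`, `j : ℤ`. Then `V α = W ⌈N α⌉`,
  `VGT V (j / N) = W (j + 1)`, and `dtInv (W j) = W (j + N)`.
* Commensurability: for all `i`, `j` there is `k : ℕ` with `W (i + N k) ≤ W' j`: `θ^a (V _) ≤ H''`
  and `θ^c H'' ≤ V' _` so `θ^(a + c) (W i) ≤ W' j` and `θ^(a+c) (W i) = W (i + N (a + c))`. Also
  conversely there is `k` with `W i ≤ W' (j - N k)` (apply the injective `θ^-k`, `dtPow (-k)`).
* Claim: if `W j ≤ W' i` with `i < j` then `W j ≤ W' (i + 1)`. Indeed for all `m : ℕ`: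
  `W j ≤ W (j + m) ⊓ W' i + W' (i + 1)`: induction on `m` by the Bezout step for `α = (j + m)/N`,
  `β = i/N`, `α ≠ β`. For `m` large `W (j + m) ≤ W' (i + 1)`.
* So starting from some `i = i₀ < j` with `W j ≤ W' i₀` we get `W j ≤ W' j`. By symmetry equality.
-/

namespace HV

section bez

open Polynomial

variable {M : Type*} [AddCommGroup M] [Module ℂ M] (E : Module.End ℂ M)

private theorem vu_pow {S : Submodule ℂ M} (hS : ∀ v ∈ S, E v ∈ S) (n : ℕ) :
    ∀ v ∈ S, (E ^ n) v ∈ S := by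
  induction n with
  | zero => intro v hv; simpa using hv
  | succ n ih =>
    intro v hv
    rw [pow_succ']
    exact hS _ (ih v hv)

private theorem vu_aeval {S : Submodule ℂ M} (hS : ∀ v ∈ S, E v ∈ S) (P : ℂ[X]) :
    ∀ v ∈ S, aeval E P v ∈ S := by
  intro v hv
  rw [aeval_endomorphism]
  exact S.sum_mem fun n _ => S.smul_mem _ (vu_pow E hS n v hv)

private theorem vu_aevalX (α : ℂ) (k : ℕ) :
    aeval E ((X - C α) ^ k) = (E - α • LinearMap.id : Module.End ℂ M) ^ k := by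
  rw [map_pow, map_sub, aeval_X, aeval_C, Module.algebraMap_end_eq_smul_id]

private theorem vu_bezout {A B A1 B1 : Submodule ℂ M} (hA : ∀ v ∈ A, E v ∈ A)
    (hB : ∀ v ∈ B, E v ∈ B) (hA1 : ∀ v ∈ A1, E v ∈ A1) (hB1 : ∀ v ∈ B1, E v ∈ B1)
    {α β : ℂ} (hne : α ≠ β) {k l : ℕ}
    (hk : ∀ v ∈ A, ((E - α • LinearMap.id : Module.End ℂ M) ^ k) v ∈ A1)
    (hl : ∀ v ∈ B, ((E - β • LinearMap.id : Module.End ℂ M) ^ l) v ∈ B1) :
    A ⊓ B ≤ (A1 ⊓ B) ⊔ (A ⊓ B1) := by
  intro v hv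
  have hcop : IsCoprime ((X - C α : ℂ[X]) ^ k) ((X - C β) ^ l) :=
    (isCoprime_X_sub_C_of_isUnit_sub (sub_ne_zero.mpr hne).isUnit).pow
  obtain ⟨P, Q, hPQ⟩ := hcop
  have h1 : v = aeval E P (((E - α • LinearMap.id : Module.End ℂ M) ^ k) v) +
      aeval E Q (((E - β • LinearMap.id : Module.End ℂ M) ^ l) v) := by
    have h2 : aeval E (P * (X - C α) ^ k + Q * (X - C β) ^ l) v = v := by
      rw [hPQ, map_one]
      rfl
    rw [map_add, map_mul, map_mul, vu_aevalX, vu_aevalX] at h2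
    exact h2.symm
  have hst : ∀ {S : Submodule ℂ M} (_ : ∀ v ∈ S, E v ∈ S) (γ : ℂ) (r : ℕ), ∀ v ∈ S,
      ((E - γ • LinearMap.id : Module.End ℂ M) ^ r) v ∈ S := by
    intro S hS γ r v hv
    rw [← vu_aevalX]
    exact vu_aeval E hS _ v hv
  rw [h1]
  refine Submodule.add_mem_sup ?_ ?_
  · exact ⟨vu_aeval E hA1 P _ (hk v hv.1), vu_aeval E hB P _ (hst hB α k v hv.2)⟩
  · exact ⟨vu_aeval E hA Q _ (hst hA β l v hv.1), vu_aeval E hB1 Q _ (hl v hv.2)⟩

private theorem vu_abstract (N : ℕ) (hN : 0 < N) (W W' : ℤ → Submodule ℂ M)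
    (hW : ∀ j, ∀ v ∈ W j, E v ∈ W j) (hW' : ∀ j, ∀ v ∈ W' j, E v ∈ W' j)
    (anti' : ∀ i j, i ≤ j → W' j ≤ W' i)
    (nil : ∀ j : ℤ, ∃ k : ℕ, ∀ v ∈ W j,
      ((E - (((j : ℚ) / N : ℚ) : ℂ) • LinearMap.id : Module.End ℂ M) ^ k) v ∈ W (j + 1))
    (nil' : ∀ j : ℤ, ∃ k : ℕ, ∀ v ∈ W' j,
      ((E - (((j : ℚ) / N : ℚ) : ℂ) • LinearMap.id : Module.End ℂ M) ^ k) v ∈ W' (j + 1))
    (c1 : ∀ j i, ∃ m : ℕ, W (j + m) ≤ W' i) (c2 : ∀ j, ∃ i, W j ≤ W' i) (j : ℤ) :
    W j ≤ W' j := by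
  have step : ∀ i, i < j → W j ≤ W' i → W j ≤ W' (i + 1) := by
    intro i hij hi
    have hm : ∀ m : ℕ, W j ≤ (W (j + m) ⊓ W' i) ⊔ W' (i + 1) := by
      intro m
      induction m with
      | zero =>
        refine le_trans ?_ le_sup_left
        rw [Nat.cast_zero, add_zero]
        exact le_inf le_rfl hi
      | succ m ih =>
        refine le_trans ih (sup_le ?_ le_sup_right)
        obtain ⟨k, hk⟩ := nil (j + m)
        obtain ⟨l, hl⟩ := nil' i
        have hne : ((((j + m : ℤ) : ℚ) / N : ℚ) : ℂ) ≠ (((i : ℚ) / N : ℚ) : ℂ) := by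
          intro h
          have h1 := Rat.cast_injective h
          have hN' : (N : ℚ) ≠ 0 := by exact_mod_cast hN.ne'
          rw [div_left_inj' hN'] at h1
          have h2 : (j + m : ℤ) = i := by exact_mod_cast h1
          omega
        refine le_trans (vu_bezout E (hW _) (hW' _) (hW _) (hW' _) hne hk hl) ?_
        refine sup_le ?_ ?_
        · refine le_trans ?_ le_sup_left
          rw [Nat.cast_succ, ← add_assoc]
        · exact le_trans inf_le_right le_sup_right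
    obtain ⟨m, hm'⟩ := c1 j (i + 1)
    exact le_trans (hm m) (sup_le (le_trans inf_le_left hm') le_rfl)
  obtain ⟨i0, hi0⟩ := c2 j
  rcases le_total j i0 with h | h
  · exact le_trans hi0 (anti' _ _ h)
  · have hs : ∀ s : ℕ, i0 + s ≤ j → W j ≤ W' (i0 + s) := by
      intro s
      induction s with
      | zero => intro _; simpa using hi0
      | succ s ih =>
        intro hsj
        have h1 := step (i0 + s) (by push_cast at hsj; omega) (ih (by push_cast at hsj; omega))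
        rw [Nat.cast_succ, ← add_assoc]
        exact h1
    obtain ⟨s, hs'⟩ := Int.le.dest h
    have := hs s (by omega)
    rwa [hs'] at this

end bez

section vf

variable {n : ℕ} {f : Germ n} {V : ℚ → Submodule ℂ (GaussManin f)}

private theorem vu_stable (h : IsVFiltration f V) (α : ℚ) (v : GaussManin f) (hv : v ∈ V α) :
    (dt f ∘ₗ tMul f) v ∈ V α := by
  have h1 : tMul f v ∈ V (α + 1) := h.stable α ⟨v, hv, rfl⟩
  rw [← h.shift α] at h1
  obtain ⟨w, hw, hwe⟩ := h1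
  rw [LinearMap.comp_apply, ← hwe, dt_dtInv]
  exact hw

private theorem vu_map (h : IsVFiltration f V) (α : ℚ) (k : ℕ) :
    (V α).map (dtPow f k) = V (α + k) := by
  induction k with
  | zero =>
    have : dtPow f ((0 : ℕ) : ℤ) = LinearMap.id := LinearMap.ext fun x => dtPow_zero f x
    rw [this, Submodule.map_id, Nat.cast_zero, add_zero]
  | succ k ih =>
    have h1 : dtPow f ((k + 1 : ℕ) : ℤ) = dtInv f ∘ₗ dtPow f k := by
      apply LinearMap.ext
      intro x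
      rw [LinearMap.comp_apply, dtInv, dtPow_add]
      congr 2
      push_cast
      ring
    rw [h1, Submodule.map_comp, ih, h.shift]
    congr 1
    push_cast
    ring

private theorem vu_disc {V : ℚ → Submodule ℂ (GaussManin f)} {N : ℕ} (hN : 0 < N)
    (hd : ∀ α, V α = V ((⌈(N : ℚ) * α⌉ : ℚ) / N)) (N' : ℕ) (hN' : 0 < N') (α : ℚ) :
    V α = V ((⌈((N * N' : ℕ) : ℚ) * α⌉ : ℚ) / ((N * N' : ℕ) : ℚ)) := by
  have hNq : (N : ℚ) ≠ 0 := by exact_mod_cast hN.ne'
  have hNq' : (N' : ℚ) ≠ 0 := by exact_mod_cast hN'.ne'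
  rw [hd α, hd ((⌈((N * N' : ℕ) : ℚ) * α⌉ : ℚ) / ((N * N' : ℕ) : ℚ))]
  congr 3
  have h1 : (N : ℚ) * ((⌈((N * N' : ℕ) : ℚ) * α⌉ : ℚ) / ((N * N' : ℕ) : ℚ)) =
      (⌈((N * N' : ℕ) : ℚ) * α⌉ : ℚ) / N' := by
    push_cast
    field_simp
  rw [h1]
  have hpos : (0 : ℚ) < N' := by exact_mod_cast hN'
  have e1 : ((N * N' : ℕ) : ℚ) * α = (N : ℚ) * α * N' := by push_cast; ring
  rw [e1]
  apply le_antisymm
  · rw [Int.ceil_le]
    have h2 := Int.le_ceil ((⌈(N : ℚ) * α * N'⌉ : ℚ) / N')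
    have h3 := Int.le_ceil ((N : ℚ) * α * N')
    rw [div_le_iff₀ hpos] at h2
    have h4 := le_trans h3 h2
    exact le_of_mul_le_mul_right h4 hpos
  · rw [Int.ceil_le, div_le_iff₀ hpos]
    have h2 := Int.le_ceil ((N : ℚ) * α)
    have h3 : (N : ℚ) * α * N' ≤ ((⌈(N : ℚ) * α⌉ * (N' : ℤ) : ℤ) : ℚ) := by
      push_cast
      gcongr
    have h4 := Int.ceil_le.mpr h3
    have h5 : ((⌈(N : ℚ) * α * N'⌉ : ℤ) : ℚ) ≤ ((⌈(N : ℚ) * α⌉ * (N' : ℤ) : ℤ) : ℚ) := by
      exact_mod_cast h4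
    push_cast at h5
    exact h5

private theorem vu_vgt (h : IsVFiltration f V) {N : ℕ} (hN : 0 < N)
    (hd : ∀ α, V α = V ((⌈(N : ℚ) * α⌉ : ℚ) / N)) (j : ℤ) :
    VGT V ((j : ℚ) / N) ≤ V (((j + 1 : ℤ) : ℚ) / N) := by
  have hpos : (0 : ℚ) < N := by exact_mod_cast hN
  refine iSup_le ?_
  rintro ⟨β, hβ⟩
  show V β ≤ _
  rw [hd β]
  apply h.anti
  have h1 : (j : ℚ) < N * β := by
    rw [div_lt_iff₀ hpos] at hβ
    linarith
  have h2 : j < ⌈(N : ℚ) * β⌉ := Int.lt_ceil.mpr h1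
  have h3 : ((j + 1 : ℤ) : ℚ) ≤ (⌈(N : ℚ) * β⌉ : ℚ) := by exact_mod_cast h2
  gcongr

end vf

theorem vfiltration_le {n : ℕ} (f : Germ n) {V V' : ℚ → Submodule ℂ (GaussManin f)}
    (h : IsVFiltration f V) (h' : IsVFiltration f V') (α : ℚ) : V α ≤ V' α := by
  obtain ⟨N1, hN1, hd1⟩ := h.discrete
  obtain ⟨N2, hN2, hd2⟩ := h'.discrete
  set N : ℕ := N1 * N2 with hNdef
  have hN : 0 < N := Nat.mul_pos hN1 hN2
  have hpos : (0 : ℚ) < N := by exact_mod_cast hN
  have hd : ∀ α, V α = V ((⌈(N : ℚ) * α⌉ : ℚ) / N) := fun α => vu_disc hN1 hd1 N2 hN2 α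
  have hd' : ∀ α, V' α = V' ((⌈(N : ℚ) * α⌉ : ℚ) / N) := by
    intro α
    have := vu_disc hN2 hd2 N1 hN1 α
    rwa [mul_comm N2 N1] at this
  have key : ∀ j : ℤ, V ((j : ℚ) / N) ≤ V' ((j : ℚ) / N) := by
    have hcomm : ∀ α β : ℚ, ∃ a : ℕ, V (α + a) ≤ V' β := by
      intro α β
      obtain ⟨a, -, ha⟩ := h.commensurable α
      obtain ⟨c, hc, -⟩ := h'.commensurable β
      refine ⟨a + c, ?_⟩
      rw [← vu_map h α (a + c)]
      have h1 : dtPow f ((a + c : ℕ) : ℤ) = dtPow f c ∘ₗ dtPow f a := by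
        apply LinearMap.ext
        intro x
        rw [LinearMap.comp_apply, dtPow_add]
        congr 2
        push_cast
        ring
      rw [h1, Submodule.map_comp]
      exact le_trans (Submodule.map_mono ha) hc
    intro j
    refine vu_abstract (dt f ∘ₗ tMul f) N hN (fun j => V ((j : ℚ) / N)) (fun j => V' ((j : ℚ) / N))
      (fun j v hv => vu_stable h _ v hv) (fun j v hv => vu_stable h' _ v hv) ?_ ?_ ?_ ?_ ?_ j
    · intro i j hij
      apply h'.anti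
      have : (i : ℚ) ≤ j := by exact_mod_cast hij
      gcongr
    · intro j
      obtain ⟨k, hk⟩ := h.nilpotent ((j : ℚ) / N)
      exact ⟨k, fun v hv => vu_vgt h hN hd j (hk v hv)⟩
    · intro j
      obtain ⟨k, hk⟩ := h'.nilpotent ((j : ℚ) / N)
      exact ⟨k, fun v hv => vu_vgt h' hN hd' j (hk v hv)⟩
    · intro j i
      obtain ⟨a, ha⟩ := hcomm ((j : ℚ) / N) ((i : ℚ) / N)
      refine ⟨N * a, ?_⟩
      have e1 : (((j + (N * a : ℕ) : ℤ)) : ℚ) / N = (j : ℚ) / N + a := by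
        push_cast
        field_simp
      show V (((j + (N * a : ℕ) : ℤ) : ℚ) / N) ≤ _
      rw [e1]
      exact ha
    · intro j
      obtain ⟨a, ha⟩ := hcomm ((j : ℚ) / N) 0
      refine ⟨-(N * a : ℕ), ?_⟩
      have e1 : (((-(N * a : ℕ) : ℤ)) : ℚ) / N = -(a : ℚ) := by
        push_cast
        field_simp
      show _ ≤ V' (((-(N * a : ℕ) : ℤ) : ℚ) / N)
      rw [e1]
      intro v hv
      have h1 : dtPow f a v ∈ V ((j : ℚ) / N + a) := by
        rw [← vu_map h]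
        exact ⟨v, hv, rfl⟩
      have h2 := ha h1
      have h3 : V' 0 = (V' (-(a : ℚ))).map (dtPow f a) := by
        rw [vu_map h']
        congr 1
        ring
      rw [h3] at h2
      obtain ⟨w, hw, hwe⟩ := h2
      rw [← dtPow_injective f a hwe]
      exact hw
  rw [hd α, hd' α]
  exact key _

theorem vfiltration_unique {n : ℕ} (f : Germ n) {V V' : ℚ → Submodule ℂ (GaussManin f)}
    (h : IsVFiltration f V) (h' : IsVFiltration f V') : V = V' :=
  funext fun α => le_antisymm (vfiltration_le f h h' α) (vfiltration_le f h' h α)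

end HV
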