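import Pool.Agent.Work.MP_e9f12e_ag.VNil
import Pool.Agent.Work.MP_e9f12e_ag.VSpec
import Pool.Agent.Work.MP_e9f12e_ag.VUnique
import Pool.Agent.Work.MP_e9f12e_ag.Numeric
import Pool.Agent.Work.MP_e9f12e_ag.Moment

/-!
# Main: assembly
-/

namespace HV

open MvPowerSeries

/-- The Newton filtration is the V-filtration. -/
theorem isVFiltration_Vf : IsVFiltration f0 Vf where
  anti := Vf_anti
  discrete := Vf_discrete
  shift := Vf_shift
  stable := Vf_stable
  commensurable := Vf_comm
  nilpotent := Vf_nil

theorem constantCoeff_mon {x y z w : ℕ} (h : x + y + z + w ≠ 0) :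
    constantCoeff (mon x y z w).ser = 0 := by
  classical
  rw [mon, ser_mono, ← coeff_zero_eq_constantCoeff_apply, coeff_monomial, if_neg]
  intro h0
  apply h
  have h1 := DFunLike.congr_fun h0 0
  have h2 := DFunLike.congr_fun h0 1
  have h3 := DFunLike.congr_fun h0 2
  have h4 := DFunLike.congr_fun h0 3
  rw [ex_0] at h1
  rw [ex_1] at h2
  rw [ex_2] at h3
  rw [ex_3] at h4
  simp only [Finsupp.coe_zero, Pi.zero_apply] at h1 h2 h3 h4
  omega

theorem isolated_f0 : IsIsolatedSingularity f0 := by
  refine ⟨?_, ?_, finite_of_mPow _ 13 mPow_le_jac⟩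
  · simp only [f0, map_add, constantCoeff_mon (show 3 + 1 + 0 + 0 ≠ 0 by decide),
      constantCoeff_mon (show 1 + 3 + 0 + 0 ≠ 0 by decide),
      constantCoeff_mon (show 0 + 0 + 4 + 1 ≠ 0 by decide),
      constantCoeff_mon (show 0 + 0 + 1 + 4 ≠ 0 by decide),
      constantCoeff_mon (show 1 + 1 + 1 + 1 ≠ 0 by decide), add_zero]
  · have hs : ∀ (c : ℂ) (g : Germ 4), constantCoeff g.ser = 0 →
        constantCoeff (c • g).ser = 0 := by
      intro c g hg
      rw [map_smul, ← coeff_zero_eq_constantCoeff_apply, map_smul,
        coeff_zero_eq_constantCoeff_apply, hg, smul_zero]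
    have ha : ∀ g h : Germ 4, constantCoeff g.ser = 0 → constantCoeff h.ser = 0 →
        constantCoeff (g + h).ser = 0 := by
      intro g h hg hh
      rw [map_add, map_add, hg, hh, add_zero]
    intro i
    fin_cases i
    · change constantCoeff (pd 0 f0).ser = 0
      rw [pd0_f0]
      exact ha _ _ (ha _ _ (hs _ _ (constantCoeff_mon (by decide))) (constantCoeff_mon (by decide)))
        (constantCoeff_mon (by decide))
    · change constantCoeff (pd 1 f0).ser = 0
      rw [pd1_f0]
      exact ha _ _ (ha _ _ (constantCoeff_mon (by decide)) (hs _ _ (constantCoeff_mon (by decide))))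
        (constantCoeff_mon (by decide))
    · change constantCoeff (pd 2 f0).ser = 0
      rw [pd2_f0]
      exact ha _ _ (ha _ _ (hs _ _ (constantCoeff_mon (by decide))) (constantCoeff_mon (by decide)))
        (constantCoeff_mon (by decide))
    · change constantCoeff (pd 3 f0).ser = 0
      rw [pd3_f0]
      exact ha _ _ (ha _ _ (constantCoeff_mon (by decide)) (hs _ _ (constantCoeff_mon (by decide))))
        (constantCoeff_mon (by decide))

/-- The normalized spectrum of `f0`. -/
theorem spectrum_f0 : IsNormalizedSpectrum f0 spec :=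
  ⟨spec_monotone, Vf, isVFiltration_Vf, fun α => by rw [specMult_f0, spec_count]⟩

/-- The second Bernoulli moment of the spectrum of `f0`. -/
theorem moment_f0 : bernoulliMoment spec (spec (Fin.last 131) - spec 0) 2 = 1 / 180 := by
  rw [bernoulliMoment_two, spec_last, spec_sq]
  norm_num

/-- The conjecture fails, already for `k = 1`. -/
theorem not_bernoulliMomentConjecture : ¬ BernoulliMomentConjecture := by
  intro h
  have h1 := h 3 f0 isolated_f0 131 spec spectrum_f0 1 le_rfl
  rw [mul_one, moment_f0] at h1
  norm_num at h1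

end HV
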