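import Pool.Agent.Work.MP_e9f12e_ag.LenMul

/-!
# Mil0: basic lengths

PROOF. `mPow_le_vars`: by `mPow_le_span` it is enough to see that a monomial `mono m` with
`|m| = i + j + k + l` is divisible by one of `x^i, y^j, z^k, w^l` (`mono_mul`; `gx ^ i = mono (single 0 i)`
by induction). `len4_vars`: `(x, y, z, w) = mPow 4 1` = germs without constant term = kernel of the
surjective linear map `co 0 : Germ 4 → ℂ` (`LinearMap.quotKerEquivOfSurjective` or show that the quotient is
spanned by the nonzero class of `1`). `len4_var_pow`: `len4_pow` in each variable after permuting the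
generators (`len4_congr`, `Set.insert_comm`), with `hK` from `mPow_le_vars` (the ideals only get
bigger). `len4_pow4`: the same for arbitrary germs `a b c d`.
-/

namespace HV

/-- The coordinates. -/
noncomputable def gx : Germ 4 := mon 1 0 0 0
/-- The coordinates. -/
noncomputable def gy : Germ 4 := mon 0 1 0 0
/-- The coordinates. -/
noncomputable def gz : Germ 4 := mon 0 0 1 0
/-- The coordinates. -/
noncomputable def gw : Germ 4 := mon 0 0 0 1

private theorem gx_pow (a : ℕ) : gx ^ a = mon a 0 0 0 := by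
  induction a with
  | zero =>
    rw [pow_zero, mon, ← mono_zero]
    congr 1
    ext i
    fin_cases i <;> rfl
  | succ a ih => rw [pow_succ, ih, gx, mon_mul]

private theorem gy_pow (a : ℕ) : gy ^ a = mon 0 a 0 0 := by
  induction a with
  | zero =>
    rw [pow_zero, mon, ← mono_zero]
    congr 1
    ext i
    fin_cases i <;> rfl
  | succ a ih => rw [pow_succ, ih, gy, mon_mul]

private theorem gz_pow (a : ℕ) : gz ^ a = mon 0 0 a 0 := by
  induction a with
  | zero =>
    rw [pow_zero, mon, ← mono_zero]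
    congr 1
    ext i
    fin_cases i <;> rfl
  | succ a ih => rw [pow_succ, ih, gz, mon_mul]

private theorem gw_pow (a : ℕ) : gw ^ a = mon 0 0 0 a := by
  induction a with
  | zero =>
    rw [pow_zero, mon, ← mono_zero]
    congr 1
    ext i
    fin_cases i <;> rfl
  | succ a ih => rw [pow_succ, ih, gw, mon_mul]

theorem mon_eq (a b c d : ℕ) : mon a b c d = gx ^ a * gy ^ b * gz ^ c * gw ^ d := by
  rw [gx_pow, gy_pow, gz_pow, gw_pow, mon_mul, mon_mul, mon_mul]
  simp only [add_zero, zero_add]

private theorem mono_dvd_vars {m : Fin 4 →₀ ℕ} {i j k l : ℕ}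
    (h : i ≤ m 0 ∨ j ≤ m 1 ∨ k ≤ m 2 ∨ l ≤ m 3) :
    mono m ∈ (Ideal.span {gx ^ i, gy ^ j, gz ^ k, gw ^ l} : Ideal (Germ 4)) := by
  have e : mono m = gx ^ (m 0) * gy ^ (m 1) * gz ^ (m 2) * gw ^ (m 3) := by
    rw [← mon_eq, mon, ← eq_ex]
  rw [e]
  rcases h with h | h | h | h
  · exact Ideal.mem_of_dvd _ ((((pow_dvd_pow gx h).mul_right _).mul_right _).mul_right _)
      (Ideal.subset_span (by simp))
  · exact Ideal.mem_of_dvd _ ((((pow_dvd_pow gy h).mul_left _).mul_right _).mul_right _)
      (Ideal.subset_span (by simp))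
  · exact Ideal.mem_of_dvd _ (((pow_dvd_pow gz h).mul_left _).mul_right _)
      (Ideal.subset_span (by simp))
  · exact Ideal.mem_of_dvd _ ((pow_dvd_pow gw h).mul_left _)
      (Ideal.subset_span (by simp))

theorem len4_swap01 (a b c d : Germ 4) : len4 a b c d = len4 b a c d := by
  refine len4_congr ?_
  congr 1
  exact Set.insert_comm _ _ _

theorem len4_swap12 (a b c d : Germ 4) : len4 a b c d = len4 a c b d := by
  refine len4_congr ?_
  congr 2
  exact Set.insert_comm _ _ _

theorem len4_swap23 (a b c d : Germ 4) : len4 a b c d = len4 a b d c := by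
  refine len4_congr ?_
  congr 3
  exact Set.pair_comm _ _

theorem len4_mul_snd (a b b' c d : Germ 4) (K : ℕ)
    (hK : mPow 4 K ≤ (Ideal.span {a, b * b', c, d} : Ideal (Germ 4))) :
    len4 a (b * b') c d = len4 a b c d + len4 a b' c d := by
  rw [len4_swap01 a (b * b'), len4_swap01 a b, len4_swap01 a b', len4_mul b b' a c d K]
  rw [Set.insert_comm]
  exact hK

theorem len4_mul_trd (a b c c' d : Germ 4) (K : ℕ)
    (hK : mPow 4 K ≤ (Ideal.span {a, b, c * c', d} : Ideal (Germ 4))) :
    len4 a b (c * c') d = len4 a b c d + len4 a b c' d := by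
  rw [len4_swap12 a b (c * c'), len4_swap12 a b c, len4_swap12 a b c',
    len4_mul_snd a c c' b d K]
  rw [Set.insert_comm (c * c')]
  exact hK

theorem len4_mul_fth (a b c d d' : Germ 4) (K : ℕ)
    (hK : mPow 4 K ≤ (Ideal.span {a, b, c, d * d'} : Ideal (Germ 4))) :
    len4 a b c (d * d') = len4 a b c d + len4 a b c d' := by
  rw [len4_swap23 a b c (d * d'), len4_swap23 a b c d, len4_swap23 a b c d',
    len4_mul_trd a b d d' c K]
  rw [Set.pair_comm (d * d')]
  exact hK

theorem mPow_le_vars (i j k l : ℕ) :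
    mPow 4 (i + j + k + l) ≤ (Ideal.span {gx ^ i, gy ^ j, gz ^ k, gw ^ l} : Ideal (Germ 4)) := by
  refine (mPow_le_span 4 _).trans (Ideal.span_le.2 ?_)
  rintro g ⟨m, hm, rfl⟩
  refine mono_dvd_vars ?_
  rw [Fin.sum_univ_four] at hm
  omega

private theorem co_zero_var {i : Fin 4 →₀ ℕ} (hi : i ≠ 0) : mono i ∈ mPow 4 1 := by
  classical
  rw [mem_mPow]
  intro m hm
  rw [co_mono, if_neg]
  rintro rfl
  apply hi
  ext j
  have := Finset.single_le_sum (f := fun j => m j) (fun j _ => Nat.zero_le _) (Finset.mem_univ j)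
  have h : m j ≤ ∑ i, m i := this
  rw [Finsupp.coe_zero, Pi.zero_apply]
  omega

private theorem vars_eq : (Ideal.span {gx, gy, gz, gw} : Ideal (Germ 4)) = mPow 4 1 := by
  apply le_antisymm
  · rw [Ideal.span_le]
    intro g hg
    simp only [Set.mem_insert_iff, Set.mem_singleton_iff] at hg
    rcases hg with rfl | rfl | rfl | rfl
    · exact co_zero_var fun h => by simpa using DFunLike.congr_fun h 0
    · exact co_zero_var fun h => by simpa using DFunLike.congr_fun h 1
    · exact co_zero_var fun h => by simpa using DFunLike.congr_fun h 2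
    · exact co_zero_var fun h => by simpa using DFunLike.congr_fun h 3
  · refine (mPow_le_span 4 1).trans (Ideal.span_le.2 ?_)
    rintro g ⟨m, hm, rfl⟩
    have h : mono m ∈ (Ideal.span {gx ^ 1, gy ^ 1, gz ^ 1, gw ^ 1} : Ideal (Germ 4)) := by
      refine mono_dvd_vars ?_
      rw [Fin.sum_univ_four] at hm
      omega
    simp only [pow_one] at h
    exact h

theorem len4_vars : len4 gx gy gz gw = 1 := by
  classical
  have h1 : co 0 (1 : Germ 4) = 1 := by rw [← mono_zero, co_mono, if_pos rfl]
  rw [len4, vars_eq]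
  have hne : Submodule.Quotient.mk (p := mPow 4 1) (1 : Germ 4) ≠ 0 := by
    rw [Ne, Submodule.Quotient.mk_eq_zero, mem_mPow]
    intro h
    have := h 0 (by simp)
    rw [h1] at this
    exact one_ne_zero this
  rw [finrank_eq_one_iff_of_nonzero' _ hne]
  intro w
  obtain ⟨g, rfl⟩ := Submodule.Quotient.mk_surjective _ w
  refine ⟨co 0 g, ?_⟩
  have : Submodule.Quotient.mk (p := mPow 4 1) ((co 0 g) • (1 : Germ 4)) =
      Submodule.Quotient.mk (p := mPow 4 1) g := by
    rw [Submodule.Quotient.eq, mem_mPow]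
    intro m hm
    have hm0 : m = 0 := by
      ext j
      have h : m j ≤ ∑ i, m i :=
        Finset.single_le_sum (f := fun j => m j) (fun j _ => Nat.zero_le _) (Finset.mem_univ j)
      rw [Finsupp.coe_zero, Pi.zero_apply]
      omega
    rw [hm0, map_sub, map_smul, h1, smul_eq_mul, mul_one, sub_self]
  exact this

theorem len4_pow4 (a b c d : Germ 4) (i j k l K : ℕ)
    (hK : mPow 4 K ≤ (Ideal.span {a ^ i, b ^ j, c ^ k, d ^ l} : Ideal (Germ 4))) :
    len4 (a ^ i) (b ^ j) (c ^ k) (d ^ l) = i * j * k * l * len4 a b c d := by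
  have key : ∀ (a b c d : Germ 4) (i K : ℕ),
      mPow 4 K ≤ (Ideal.span {a ^ i, b, c, d} : Ideal (Germ 4)) →
      mPow 4 K ≤ (Ideal.span {a, b, c, d} : Ideal (Germ 4)) ∨ i = 0 := by
    intro a b c d i K h
    rcases Nat.eq_zero_or_pos i with h0 | h0
    · exact Or.inr h0
    · left
      refine h.trans ?_
      intro g hg
      rw [mem_spanQ] at hg ⊢
      obtain ⟨p, q, r, s, rfl⟩ := hg
      obtain ⟨i, rfl⟩ := Nat.exists_eq_succ_of_ne_zero h0.ne'
      exact ⟨p * a ^ i, q, r, s, by rw [Nat.succ_eq_add_one, pow_succ]; ring⟩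
  rw [len4_pow _ _ _ _ K i hK]
  rcases key _ _ _ _ _ _ hK with hK | rfl
  swap
  · simp
  have e1 : (Ideal.span {a, b ^ j, c ^ k, d ^ l} : Ideal (Germ 4)) =
      Ideal.span {b ^ j, c ^ k, d ^ l, a} := by
    congr 1
    ext g
    simp only [Set.mem_insert_iff, Set.mem_singleton_iff]
    tauto
  rw [e1] at hK
  rw [len4_congr e1, len4_pow _ _ _ _ K j hK]
  rcases key _ _ _ _ _ _ hK with hK | rfl
  swap
  · simp
  have e2 : (Ideal.span {b, c ^ k, d ^ l, a} : Ideal (Germ 4)) =
      Ideal.span {c ^ k, d ^ l, a, b} := by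
    congr 1
    ext g
    simp only [Set.mem_insert_iff, Set.mem_singleton_iff]
    tauto
  rw [e2] at hK
  rw [len4_congr e2, len4_pow _ _ _ _ K k hK]
  rcases key _ _ _ _ _ _ hK with hK | rfl
  swap
  · simp
  have e3 : (Ideal.span {c, d ^ l, a, b} : Ideal (Germ 4)) =
      Ideal.span {d ^ l, a, b, c} := by
    congr 1
    ext g
    simp only [Set.mem_insert_iff, Set.mem_singleton_iff]
    tauto
  rw [e3] at hK
  rw [len4_congr e3, len4_pow _ _ _ _ K l hK]
  have e4 : (Ideal.span {d, a, b, c} : Ideal (Germ 4)) =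
      Ideal.span {a, b, c, d} := by
    congr 1
    ext g
    simp only [Set.mem_insert_iff, Set.mem_singleton_iff]
    tauto
  rw [len4_congr e4]
  ring

theorem len4_var_pow (i j k l : ℕ) : len4 (gx ^ i) (gy ^ j) (gz ^ k) (gw ^ l) = i * j * k * l := by
  rw [len4_pow4 gx gy gz gw i j k l _ (mPow_le_vars i j k l), len4_vars, mul_one]

end HV
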