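import Pool.Agent.Work.MP_e9f12e_ag.MilDefs

/-!
# MilA: lengths of the pieces with monomial ideals

PROOF. Each ideal equals a monomial ideal (`len4_congr`, equality of ideals by explicit combinations:
`Ideal.span_le` twice, `Ideal.mem_span_insert`, ...; a unit factor is a nonzero constant such as `4`:
`(4 : Germ 4)` is invertible, use `algebraMap ℂ (Germ 4) (1/4)`) and then `len4_var_pow`:
* `(y, x, w, z)`: 1. `(y, x, w, D) = (y, x, w, z^3)`: 3. `(y, x, C, z) = (y, x, w^3, z)`: 3.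
* `(y, x, C, D) = (y, x, z^3, w^3)`: 9.
* `(y, B, w, z) = (y, x^2, w, z)`: 2. `(A, x, w, z) = (y^2, x, w, z)`: 2.
* `(y, B, w, D) = (y, x^2, w, z^3)`: 6. `(y, B, C, z) = (y, x^2, w^3, z)`: 6.
* `(A, x, w, D)`: 6. `(A, x, C, z)`: 6. `(A, B, w, z) = (x^2, y^2, w, z)`: 4.
A possible uniform tool: `span {a, b, c, d} = span {a, b, c, d'}` if `d' = u d + r a + s b + t c` with
`u` a unit (write a lemma `len4_replace3 (u) (hu : IsUnit u) (h : d' = u * d + r * a + s * b + t * c) :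
len4 a b c d = len4 a b c d'` and use the swaps), then each replacement is a `ring` identity.
-/

namespace HV

private theorem mem4 {a b c d x : Germ 4} (r s t v : Germ 4)
    (h : x = r * a + s * b + t * c + v * d) : x ∈ (Ideal.span {a, b, c, d} : Ideal (Germ 4)) := by
  rw [h]
  refine Ideal.add_mem _ (Ideal.add_mem _ (Ideal.add_mem _ ?_ ?_) ?_) ?_ <;>
    exact Ideal.mul_mem_left _ _ (Ideal.subset_span (by simp))

private theorem len_of {a b c d : Germ 4} (i j k l : ℕ)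
    (h1 : gx ^ i ∈ (Ideal.span {a, b, c, d} : Ideal (Germ 4)))
    (h2 : gy ^ j ∈ (Ideal.span {a, b, c, d} : Ideal (Germ 4)))
    (h3 : gz ^ k ∈ (Ideal.span {a, b, c, d} : Ideal (Germ 4)))
    (h4 : gw ^ l ∈ (Ideal.span {a, b, c, d} : Ideal (Germ 4)))
    (ha : a ∈ (Ideal.span {gx ^ i, gy ^ j, gz ^ k, gw ^ l} : Ideal (Germ 4)))
    (hb : b ∈ (Ideal.span {gx ^ i, gy ^ j, gz ^ k, gw ^ l} : Ideal (Germ 4)))
    (hc : c ∈ (Ideal.span {gx ^ i, gy ^ j, gz ^ k, gw ^ l} : Ideal (Germ 4)))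
    (hd : d ∈ (Ideal.span {gx ^ i, gy ^ j, gz ^ k, gw ^ l} : Ideal (Germ 4))) :
    len4 a b c d = i * j * k * l := by
  rw [← len4_var_pow i j k l]
  apply len4_congr
  apply le_antisymm
  · rw [Ideal.span_le]
    rintro g (h | h | h | h) <;> rw [h] <;> assumption
  · rw [Ideal.span_le]
    rintro g (h | h | h | h) <;> rw [h] <;> assumption

private theorem exists_inv (c : ℕ) (hc : (c : ℂ) ≠ 0) : ∃ u : Germ 4, u * (c : Germ 4) = 1 := by
  refine ⟨algebraMap ℂ (Germ 4) ((c : ℂ)⁻¹), ?_⟩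
  rw [← map_natCast (algebraMap ℂ (Germ 4)) c, ← map_mul, inv_mul_cancel₀ hc, map_one]

theorem len_yxwz : len4 gy gx gw gz = 1 :=
  len_of 1 1 1 1
    (mem4 (0) (1) (0) (0) (by (try simp only [gA, gB, gC, gD]); ring))
    (mem4 (1) (0) (0) (0) (by (try simp only [gA, gB, gC, gD]); ring))
    (mem4 (0) (0) (0) (1) (by (try simp only [gA, gB, gC, gD]); ring))
    (mem4 (0) (0) (1) (0) (by (try simp only [gA, gB, gC, gD]); ring))
    (mem4 (0) (1) (0) (0) (by (try simp only [gA, gB, gC, gD]); ring))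
    (mem4 (1) (0) (0) (0) (by (try simp only [gA, gB, gC, gD]); ring))
    (mem4 (0) (0) (0) (1) (by (try simp only [gA, gB, gC, gD]); ring))
    (mem4 (0) (0) (1) (0) (by (try simp only [gA, gB, gC, gD]); ring))

theorem len_yxwD : len4 gy gx gw gD = 3 :=
  len_of 1 1 3 1
    (mem4 (0) (1) (0) (0) (by (try simp only [gA, gB, gC, gD]); ring))
    (mem4 (1) (0) (0) (0) (by (try simp only [gA, gB, gC, gD]); ring))
    (mem4 (-gx) (0) (-(4 * gw ^ 2)) (1) (by (try simp only [gA, gB, gC, gD]); ring))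
    (mem4 (0) (0) (1) (0) (by (try simp only [gA, gB, gC, gD]); ring))
    (mem4 (0) (1) (0) (0) (by (try simp only [gA, gB, gC, gD]); ring))
    (mem4 (1) (0) (0) (0) (by (try simp only [gA, gB, gC, gD]); ring))
    (mem4 (0) (0) (0) (1) (by (try simp only [gA, gB, gC, gD]); ring))
    (mem4 (gy) (0) (1) (4 * gw ^ 2) (by (try simp only [gA, gB, gC, gD]); ring))

theorem len_yxCz : len4 gy gx gC gz = 3 :=
  len_of 1 1 1 3
    (mem4 (0) (1) (0) (0) (by (try simp only [gA, gB, gC, gD]); ring))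
    (mem4 (1) (0) (0) (0) (by (try simp only [gA, gB, gC, gD]); ring))
    (mem4 (0) (0) (0) (1) (by (try simp only [gA, gB, gC, gD]); ring))
    (mem4 (-gx) (0) (1) (-(4 * gz ^ 2)) (by (try simp only [gA, gB, gC, gD]); ring))
    (mem4 (0) (1) (0) (0) (by (try simp only [gA, gB, gC, gD]); ring))
    (mem4 (1) (0) (0) (0) (by (try simp only [gA, gB, gC, gD]); ring))
    (mem4 (gy) (0) (4 * gz ^ 2) (1) (by (try simp only [gA, gB, gC, gD]); ring))
    (mem4 (0) (0) (1) (0) (by (try simp only [gA, gB, gC, gD]); ring))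

theorem len_yxCD : len4 gy gx gC gD = 9 := by
  obtain ⟨u, hu⟩ := exists_inv 15 (by norm_num)
  push_cast at hu
  refine len_of 1 1 3 3 (mem4 0 1 0 0 (by ring)) (mem4 1 0 0 0 (by ring))
    (mem4 (-(3 * u * gx)) 0 (4 * u) (-u) ?_) (mem4 (-(3 * u * gx)) 0 (-u) (4 * u) ?_)
    (mem4 0 1 0 0 (by ring)) (mem4 1 0 0 0 (by ring))
    (mem4 gy 0 4 1 (by simp only [gC]; ring)) (mem4 gy 0 1 4 (by simp only [gD]; ring))
  · simp only [gC, gD]
    linear_combination (-(gz ^ 3)) * hu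
  · simp only [gC, gD]
    linear_combination (-(gw ^ 3)) * hu

theorem len_yBwz : len4 gy gB gw gz = 2 :=
  len_of 2 1 1 1
    (mem4 (-(3 * gy)) (1) (-gz) (0) (by (try simp only [gA, gB, gC, gD]); ring))
    (mem4 (1) (0) (0) (0) (by (try simp only [gA, gB, gC, gD]); ring))
    (mem4 (0) (0) (0) (1) (by (try simp only [gA, gB, gC, gD]); ring))
    (mem4 (0) (0) (1) (0) (by (try simp only [gA, gB, gC, gD]); ring))
    (mem4 (0) (1) (0) (0) (by (try simp only [gA, gB, gC, gD]); ring))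
    (mem4 (1) (3 * gy) (gw) (0) (by (try simp only [gA, gB, gC, gD]); ring))
    (mem4 (0) (0) (0) (1) (by (try simp only [gA, gB, gC, gD]); ring))
    (mem4 (0) (0) (1) (0) (by (try simp only [gA, gB, gC, gD]); ring))

theorem len_Axwz : len4 gA gx gw gz = 2 :=
  len_of 1 2 1 1
    (mem4 (0) (1) (0) (0) (by (try simp only [gA, gB, gC, gD]); ring))
    (mem4 (1) (-(3 * gx)) (-gz) (0) (by (try simp only [gA, gB, gC, gD]); ring))
    (mem4 (0) (0) (0) (1) (by (try simp only [gA, gB, gC, gD]); ring))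
    (mem4 (0) (0) (1) (0) (by (try simp only [gA, gB, gC, gD]); ring))
    (mem4 (3 * gx) (1) (gw) (0) (by (try simp only [gA, gB, gC, gD]); ring))
    (mem4 (1) (0) (0) (0) (by (try simp only [gA, gB, gC, gD]); ring))
    (mem4 (0) (0) (0) (1) (by (try simp only [gA, gB, gC, gD]); ring))
    (mem4 (0) (0) (1) (0) (by (try simp only [gA, gB, gC, gD]); ring))

theorem len_yBwD : len4 gy gB gw gD = 6 :=
  len_of 2 1 3 1
    (mem4 (-(3 * gy)) (1) (-gz) (0) (by (try simp only [gA, gB, gC, gD]); ring))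
    (mem4 (1) (0) (0) (0) (by (try simp only [gA, gB, gC, gD]); ring))
    (mem4 (-gx) (0) (-(4 * gw ^ 2)) (1) (by (try simp only [gA, gB, gC, gD]); ring))
    (mem4 (0) (0) (1) (0) (by (try simp only [gA, gB, gC, gD]); ring))
    (mem4 (0) (1) (0) (0) (by (try simp only [gA, gB, gC, gD]); ring))
    (mem4 (1) (3 * gy) (0) (gz) (by (try simp only [gA, gB, gC, gD]); ring))
    (mem4 (0) (0) (0) (1) (by (try simp only [gA, gB, gC, gD]); ring))
    (mem4 (0) (gx) (1) (4 * gw ^ 2) (by (try simp only [gA, gB, gC, gD]); ring))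

theorem len_yBCz : len4 gy gB gC gz = 6 :=
  len_of 2 1 1 3
    (mem4 (-(3 * gy)) (1) (0) (-gw) (by (try simp only [gA, gB, gC, gD]); ring))
    (mem4 (1) (0) (0) (0) (by (try simp only [gA, gB, gC, gD]); ring))
    (mem4 (0) (0) (0) (1) (by (try simp only [gA, gB, gC, gD]); ring))
    (mem4 (-gx) (0) (1) (-(4 * gz ^ 2)) (by (try simp only [gA, gB, gC, gD]); ring))
    (mem4 (0) (1) (0) (0) (by (try simp only [gA, gB, gC, gD]); ring))
    (mem4 (1) (3 * gy) (gw) (0) (by (try simp only [gA, gB, gC, gD]); ring))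
    (mem4 (0) (gx) (4 * gz ^ 2) (1) (by (try simp only [gA, gB, gC, gD]); ring))
    (mem4 (0) (0) (1) (0) (by (try simp only [gA, gB, gC, gD]); ring))

theorem len_AxwD : len4 gA gx gw gD = 6 :=
  len_of 1 2 3 1
    (mem4 (0) (1) (0) (0) (by (try simp only [gA, gB, gC, gD]); ring))
    (mem4 (1) (-(3 * gx)) (-gz) (0) (by (try simp only [gA, gB, gC, gD]); ring))
    (mem4 (0) (-gy) (-(4 * gw ^ 2)) (1) (by (try simp only [gA, gB, gC, gD]); ring))
    (mem4 (0) (0) (1) (0) (by (try simp only [gA, gB, gC, gD]); ring))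
    (mem4 (3 * gx) (1) (0) (gz) (by (try simp only [gA, gB, gC, gD]); ring))
    (mem4 (1) (0) (0) (0) (by (try simp only [gA, gB, gC, gD]); ring))
    (mem4 (0) (0) (0) (1) (by (try simp only [gA, gB, gC, gD]); ring))
    (mem4 (gy) (0) (1) (4 * gw ^ 2) (by (try simp only [gA, gB, gC, gD]); ring))

theorem len_AxCz : len4 gA gx gC gz = 6 :=
  len_of 1 2 1 3
    (mem4 (0) (1) (0) (0) (by (try simp only [gA, gB, gC, gD]); ring))
    (mem4 (1) (-(3 * gx)) (0) (-gw) (by (try simp only [gA, gB, gC, gD]); ring))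
    (mem4 (0) (0) (0) (1) (by (try simp only [gA, gB, gC, gD]); ring))
    (mem4 (0) (-gy) (1) (-(4 * gz ^ 2)) (by (try simp only [gA, gB, gC, gD]); ring))
    (mem4 (3 * gx) (1) (gw) (0) (by (try simp only [gA, gB, gC, gD]); ring))
    (mem4 (1) (0) (0) (0) (by (try simp only [gA, gB, gC, gD]); ring))
    (mem4 (gy) (0) (4 * gz ^ 2) (1) (by (try simp only [gA, gB, gC, gD]); ring))
    (mem4 (0) (0) (1) (0) (by (try simp only [gA, gB, gC, gD]); ring))

theorem len_ABwz : len4 gA gB gw gz = 4 := by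
  obtain ⟨u, hu⟩ := exists_inv 8 (by norm_num)
  push_cast at hu
  refine len_of 2 2 1 1 (mem4 (3 * u) (-u) (-(2 * u * gz)) 0 ?_)
    (mem4 (-u) (3 * u) (-(2 * u * gz)) 0 ?_) (mem4 0 0 0 1 (by ring)) (mem4 0 0 1 0 (by ring))
    (mem4 3 1 gw 0 (by simp only [gA]; ring)) (mem4 1 3 gw 0 (by simp only [gB]; ring))
    (mem4 0 0 0 1 (by ring)) (mem4 0 0 1 0 (by ring))
  · simp only [gA, gB]
    linear_combination (-(gx ^ 2)) * hu
  · simp only [gA, gB]
    linear_combination (-(gy ^ 2)) * hu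

end HV
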