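import Pool.Agent.Work.MP_e9f12e_ag.Mil0

/-!
# MilDefs: the factors of the partial derivatives of `f0`
-/

namespace HV

/-- The factor of `∂f0/∂x = y A`. -/
noncomputable def gA : Germ 4 := 3 * gx ^ 2 + gy ^ 2 + gz * gw
/-- The factor of `∂f0/∂y = x B`. -/
noncomputable def gB : Germ 4 := gx ^ 2 + 3 * gy ^ 2 + gz * gw
/-- The factor of `∂f0/∂z = w C`. -/
noncomputable def gC : Germ 4 := 4 * gz ^ 3 + gw ^ 3 + gx * gy
/-- The factor of `∂f0/∂w = z D`. -/
noncomputable def gD : Germ 4 := gz ^ 3 + 4 * gw ^ 3 + gx * gy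

theorem smul_eq_nat_mul (c : ℕ) [c.AtLeastTwo] (g : Germ 4) :
    ((OfNat.ofNat c : ℂ)) • g = (OfNat.ofNat c : Germ 4) * g := by
  rw [Algebra.smul_def, map_ofNat (algebraMap ℂ (Germ 4)) c]

theorem pd0_eq : pd 0 f0 = gy * gA := by
  rw [pd0_f0, mon_eq, mon_eq, mon_eq, gA, smul_eq_nat_mul]
  ring

theorem pd1_eq : pd 1 f0 = gx * gB := by
  rw [pd1_f0, mon_eq, mon_eq, mon_eq, gB, smul_eq_nat_mul]
  ring

theorem pd2_eq : pd 2 f0 = gw * gC := by
  rw [pd2_f0, mon_eq, mon_eq, mon_eq, gC, smul_eq_nat_mul]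
  ring

theorem pd3_eq : pd 3 f0 = gz * gD := by
  rw [pd3_f0, mon_eq, mon_eq, mon_eq, gD, smul_eq_nat_mul]
  ring

/-- The Jacobian ideal. -/
theorem jac_eq : jacobianIdeal f0 = Ideal.span {gy * gA, gx * gB, gw * gC, gz * gD} := by
  rw [jacobianIdeal]
  congr 1
  ext g
  simp only [Set.mem_range, Fin.exists_fin_succ, Set.mem_insert_iff, Set.mem_singleton_iff]
  constructor
  · rintro (h | h | h | h | ⟨i, _⟩)
    · left; rw [← h]; exact pd0_eq
    · right; left; rw [← h]; exact pd1_eq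
    · right; right; left; rw [← h]; exact pd2_eq
    · right; right; right; rw [← h]; exact pd3_eq
    · exact i.elim0
  · rintro (h | h | h | h)
    · left; rw [h]; exact pd0_eq
    · right; left; rw [h]; exact pd1_eq
    · right; right; left; rw [h]; exact pd2_eq
    · right; right; right; left; rw [h]; exact pd3_eq

/-- Larger ideals. -/
theorem jac_le {a b c d : Germ 4} (ha : a ∣ gy * gA) (hb : b ∣ gx * gB) (hc : c ∣ gw * gC)
    (hd : d ∣ gz * gD) : jacobianIdeal f0 ≤ Ideal.span {a, b, c, d} := by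
  rw [jac_eq, Ideal.span_le]
  intro g hg
  simp only [Set.mem_insert_iff, Set.mem_singleton_iff] at hg
  rcases hg with h | h | h | h <;> rw [h]
  · exact Ideal.mem_of_dvd _ ha (Ideal.subset_span (by simp))
  · exact Ideal.mem_of_dvd _ hb (Ideal.subset_span (by simp))
  · exact Ideal.mem_of_dvd _ hc (Ideal.subset_span (by simp))
  · exact Ideal.mem_of_dvd _ hd (Ideal.subset_span (by simp))

end HV
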