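import Pool.Agent.Work.MP_e9f12e_ag.IclBasic
import Pool.Agent.Work.MP_e9f12e_ag.GMBasic

/-!
# NDefs: the Newton filtration on the Gauss-Manin system of `f0`

`Nlev b` (units `1/60`) is spanned by the classes `∂_t^(-k) g dx` with `60 + ord g + 60 k ≥ b`;
`Vf α = Nlev ⌈60 α⌉`. It will turn out that `Vf` is the V-filtration.
-/

namespace HV

/-- The level `b` (units `1/60`) of the Newton filtration on the Gauss-Manin system. -/
noncomputable def Nlev (b : ℤ) : Submodule ℂ (GaussManin f0) :=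
  ⨆ k : ℤ, (Icl (b - 60 - 60 * k)).map (cls f0 k)

/-- The Newton filtration with rational indices. -/
noncomputable def Vf (α : ℚ) : Submodule ℂ (GaussManin f0) := Nlev ⌈60 * α⌉

theorem cls_mem_Nlev {b k : ℤ} {g : Germ 4} (hg : g ∈ Icl (b - 60 - 60 * k)) :
    cls f0 k g ∈ Nlev b :=
  (le_iSup (fun k : ℤ => (Icl (b - 60 - 60 * k)).map (cls f0 k)) k) (Submodule.mem_map_of_mem hg)

/-- Induction principle for `Nlev`. -/
theorem Nlev_le {b : ℤ} {W : Submodule ℂ (GaussManin f0)}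
    (h : ∀ (k : ℤ) (g : Germ 4), g ∈ Icl (b - 60 - 60 * k) → cls f0 k g ∈ W) : Nlev b ≤ W := by
  refine iSup_le fun k => ?_
  rintro _ ⟨g, hg, rfl⟩
  exact h k g hg

theorem Nlev_anti {b c : ℤ} (h : b ≤ c) : Nlev c ≤ Nlev b :=
  iSup_mono fun _ => Submodule.map_mono (Icl_anti (by linarith))

theorem map_Nlev {b : ℤ} {W : Submodule ℂ (GaussManin f0)} (T : GaussManin f0 →ₗ[ℂ] GaussManin f0)
    (h : ∀ (k : ℤ) (g : Germ 4), g ∈ Icl (b - 60 - 60 * k) → T (cls f0 k g) ∈ W) :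
    (Nlev b).map T ≤ W :=
  Submodule.map_le_iff_le_comap.mpr (Nlev_le h)

/-- `∂_t^(-j)` shifts `Nlev` by `60 j`. -/
theorem dtPow_map_Nlev (j b : ℤ) : (Nlev b).map (dtPow f0 j) = Nlev (b + 60 * j) := by
  apply le_antisymm
  · refine map_Nlev _ fun k g hg => ?_
    rw [dtPow_cls]
    apply cls_mem_Nlev
    convert hg using 2
    ring
  · refine Nlev_le fun k g hg => ?_
    refine ⟨cls f0 (k - j) g, cls_mem_Nlev ?_, ?_⟩
    · convert hg using 2
      ring
    · rw [dtPow_cls, sub_add_cancel]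

theorem dtPow_mem_Nlev {j b : ℤ} {x : GaussManin f0} (hx : x ∈ Nlev b) :
    dtPow f0 j x ∈ Nlev (b + 60 * j) := by
  rw [← dtPow_map_Nlev]
  exact Submodule.mem_map_of_mem hx

/-- `t` raises `Nlev` by `60`. -/
theorem tMul_mem_Nlev {b : ℤ} {x : GaussManin f0} (hx : x ∈ Nlev b) :
    tMul f0 x ∈ Nlev (b + 60) := by
  have h : (Nlev b).map (tMul f0) ≤ Nlev (b + 60) := by
    refine map_Nlev _ fun k g hg => ?_
    rw [tMul_cls]
    refine Submodule.add_mem _ (cls_mem_Nlev ?_) (Submodule.smul_mem _ _ (cls_mem_Nlev ?_))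
    · have := f0_mul_mem hg
      convert this using 2
      ring
    · convert hg using 2
      ring
  exact h (Submodule.mem_map_of_mem hx)

/-- `∂_t t` preserves `Nlev b`. -/
theorem dt_tMul_mem_Nlev {b : ℤ} {x : GaussManin f0} (hx : x ∈ Nlev b) :
    dt f0 (tMul f0 x) ∈ Nlev b := by
  have := dtPow_mem_Nlev (j := -1) (tMul_mem_Nlev hx)
  rw [show b + 60 + 60 * (-1) = b by ring] at this
  exact this

end HV
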