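import Pool.Agent.Work.MP_e9f12e_ag.RZero

/-!
# RMain: every monomial of order at least `b` lies in `Q b`

PROOF. Notation `lin 0 .. lin 3` as in RZero; assume `b ≤ lin k` for all `k`.
If `b < lin k` for all `k`: `mon_mem_Q_of_lt`. Otherwise `b = min` and if `IsTerm x y z w` holds and
the coordinates are `< 5` (linear arithmetic, `omega`) use `term_mem`.
* P0: `x, y, z, w ≥ 1`: `rzero`.
* P1y: `y = 0`, `z, w ≥ 1`: strong induction on `x`. If `4 ≤ z` and `lin 2 ≥ b + 30`: `intC` at
  `(x, 0, z-4, w-1)` and `rzero` for `mon (x+1) 1 (z-3) w`. If `4 ≤ w` and `lin 3 ≥ b + 30`: `intD`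
  at `(x, 0, z-1, w-4)`. If `3 ≤ x` and `lin 0 ≥ b + 24`: `bdA` at `(x-3, 0, z, w)`, needs
  `mon (x-2) 2 z w` (P0) and `mon (x-2) 0 (z+1) (w+1)` (induction). Otherwise terminal: `IsTerm` and
  coordinates `< 5` by `omega`.
* P1x: `x = 0`, `z, w ≥ 1`: the same with `bdB`.
* P1w: `w = 0`, `x, y ≥ 1`: strong induction on `z`. If `3 ≤ x`, `lin 0 ≥ b + 24`: `intA` at
  `(x-3, y-1, z, 0)` and `rzero` for `mon (x-2) y (z+1) 1`; if `3 ≤ y`, `lin 1 ≥ b + 24`: `intB`.
  If `4 ≤ z`, `lin 2 ≥ b + 30`: `bdC` at `(x, y, z-4, 0)`, needs `mon x y (z-3) 3` (P0) and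
  `mon (x+1) (y+1) (z-3) 0` (induction). Otherwise terminal.
* P1z: `z = 0`, `x, y ≥ 1`: the same with `bdD`.
* two zeros `y = 0, w = 0`: if `3 ≤ x`, `lin 0 ≥ b + 24`: `bdA`, needs `mon (x-2) 2 z 0` (P1w) and
  `mon (x-2) 0 (z+1) 1` (P1y). If `4 ≤ z`, `lin 2 ≥ b + 30`: `bdC`, needs `mon x 0 (z-3) 3` (P1y if
  `y = 0`; here `z - 3 ≥ 1`) and `mon (x+1) 1 (z-3) 0` (P1w). Otherwise terminal.
  NOTE: here `z` may be `0` or `x` may be `0`; P1w needs only `x, y ≥ 1` and P1y only `z, w ≥ 1`,
  the third coordinate is arbitrary. Check: `mon (x-2) 2 z 0` has `x-2 ≥ 1`, `2 ≥ 1`, `w = 0`. OK.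
* the pairs `y = 0, z = 0`; `x = 0, w = 0`; `x = 0, z = 0` are the same by symmetry
  (`bdA`/`bdD`, `bdB`/`bdC`, `bdB`/`bdD`).
Every monomial falls in one of these cases (if `x = y = 0` then P1y/P1x with `z, w ≥ 1`, or one of
the two-zero cases). All rule applicabilities: `bdA` at `(X-3, ...)`: `b + 24 ≤ lin 0` and `b ≤ lin j`;
`bdB`: `b + 24 ≤ lin 1`; `bdC`: `b + 30 ≤ lin 2`; `bdD`: `b + 30 ≤ lin 3`; `intA` at `p - v_A` the same
conditions as `bdA`, etc. Everything was checked by computer.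
-/

namespace HV

section

variable {b : ℤ} {x y z w : ℕ}

private theorem rmPos (h0 : b ≤ 24 * (x : ℤ) + 12 * y + 12 * z + 12 * w)
    (h1 : b ≤ 12 * (x : ℤ) + 24 * y + 12 * z + 12 * w)
    (h2 : b ≤ 15 * (x : ℤ) + 15 * y + 20 * z + 10 * w)
    (h3 : b ≤ 15 * (x : ℤ) + 15 * y + 10 * z + 20 * w)
    (hx : 1 ≤ x) (hy : 1 ≤ y) (hz : 1 ≤ z) (hw : 1 ≤ w) : mon x y z w ∈ Q b := by
  obtain ⟨x, rfl⟩ : ∃ x', x = x' + 1 := ⟨x - 1, by omega⟩
  obtain ⟨y, rfl⟩ : ∃ y', y = y' + 1 := ⟨y - 1, by omega⟩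
  obtain ⟨z, rfl⟩ : ∃ z', z = z' + 1 := ⟨z - 1, by omega⟩
  obtain ⟨w, rfl⟩ : ∃ w', w = w' + 1 := ⟨w - 1, by omega⟩
  push_cast at h0 h1 h2 h3
  exact rzero (by omega) (by omega) (by omega) (by omega)

private theorem rmTerm (h0 : b ≤ 24 * (x : ℤ) + 12 * y + 12 * z + 12 * w)
    (h1 : b ≤ 12 * (x : ℤ) + 24 * y + 12 * z + 12 * w)
    (h2 : b ≤ 15 * (x : ℤ) + 15 * y + 20 * z + 10 * w)
    (h3 : b ≤ 15 * (x : ℤ) + 15 * y + 10 * z + 20 * w)
    (tx : 3 ≤ x → 24 * (x : ℤ) + 12 * y + 12 * z + 12 * w < b + 24)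
    (ty : 3 ≤ y → 12 * (x : ℤ) + 24 * y + 12 * z + 12 * w < b + 24)
    (tz : 4 ≤ z → 15 * (x : ℤ) + 15 * y + 20 * z + 10 * w < b + 30)
    (tw : 4 ≤ w → 15 * (x : ℤ) + 15 * y + 10 * z + 20 * w < b + 30)
    (h : x = 0 ∨ y = 0 ∨ z = 0 ∨ w = 0) : mon x y z w ∈ Q b := by
  by_cases e : b + 1 ≤ 24 * (x : ℤ) + 12 * y + 12 * z + 12 * w ∧
    b + 1 ≤ 12 * (x : ℤ) + 24 * y + 12 * z + 12 * w ∧
    b + 1 ≤ 15 * (x : ℤ) + 15 * y + 20 * z + 10 * w ∧
    b + 1 ≤ 15 * (x : ℤ) + 15 * y + 10 * z + 20 * w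
  · exact mon_mem_Q_of_lt e.1 e.2.1 e.2.2.1 e.2.2.2
  · have ho : ordN (x, y, z, w) = b := by
      simp only [ordN]
      omega
    refine term_mem ?_ ?_ ?_ ?_ ?_ ho
    · simp only [ordN] at ho
      unfold IsTerm
      simp only
      rw [ho]
      refine ⟨tx, ty, tz, tw, ?_⟩
      omega
    · omega
    · omega
    · omega
    · omega

private theorem rm1y (h0 : b ≤ 24 * (x : ℤ) + 12 * z + 12 * w)
    (h1 : b ≤ 12 * (x : ℤ) + 12 * z + 12 * w)
    (h2 : b ≤ 15 * (x : ℤ) + 20 * z + 10 * w)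
    (h3 : b ≤ 15 * (x : ℤ) + 10 * z + 20 * w) (hz : 1 ≤ z) (hw : 1 ≤ w) :
    mon x 0 z w ∈ Q b := by
  induction x using Nat.strong_induction_on generalizing z w with
  | _ x ih =>
    by_cases e0 : 4 ≤ z ∧ b + 30 ≤ 15 * (x : ℤ) + 20 * z + 10 * w
    · obtain ⟨z, rfl⟩ : ∃ t, z = t + 4 := ⟨z - 4, by omega⟩
      obtain ⟨w, rfl⟩ : ∃ t, w = t + 1 := ⟨w - 1, by omega⟩
      push_cast at h0 h1 h2 h3 e0
      refine sub_mem_aux (c := 1 / 5) (intC (x := x) (y := 0) (z := z) (w := w) (by push_cast; omega) (by push_cast; omega) (by push_cast; omega) (by push_cast; omega)) ?_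
      exact rmPos (by push_cast; omega) (by push_cast; omega) (by push_cast; omega) (by push_cast; omega) (by omega) (by omega) (by omega) (by omega)
    by_cases e1 : 4 ≤ w ∧ b + 30 ≤ 15 * (x : ℤ) + 10 * z + 20 * w
    · obtain ⟨w, rfl⟩ : ∃ t, w = t + 4 := ⟨w - 4, by omega⟩
      obtain ⟨z, rfl⟩ : ∃ t, z = t + 1 := ⟨z - 1, by omega⟩
      push_cast at h0 h1 h2 h3 e1
      refine sub_mem_aux (c := 1 / 5) (intD (x := x) (y := 0) (z := z) (w := w) (by push_cast; omega) (by push_cast; omega) (by push_cast; omega) (by push_cast; omega)) ?_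
      exact rmPos (by push_cast; omega) (by push_cast; omega) (by push_cast; omega) (by push_cast; omega) (by omega) (by omega) (by omega) (by omega)
    by_cases e2 : 3 ≤ x ∧ b + 24 ≤ 24 * (x : ℤ) + 12 * z + 12 * w
    · obtain ⟨x, rfl⟩ : ∃ t, x = t + 3 := ⟨x - 3, by omega⟩
      push_cast at h0 h1 h2 h3 e2
      exact bdA (x := x) (y := 0) (z := z) (w := w) (by push_cast; omega) (by push_cast; omega) (by push_cast; omega) (by push_cast; omega)
        (rmPos (by push_cast; omega) (by push_cast; omega) (by push_cast; omega) (by push_cast; omega) (by omega) (by omega) (by omega) (by omega))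
        (ih (x + 1) (by omega) (by push_cast; omega) (by push_cast; omega) (by push_cast; omega) (by push_cast; omega) (by omega) (by omega))
    exact rmTerm (by omega) (by omega) (by omega) (by omega) (by intro t; omega)
      (by intro t; omega) (by intro t; omega) (by intro t; omega) (by omega)

private theorem rm1x (h0 : b ≤ 12 * (y : ℤ) + 12 * z + 12 * w)
    (h1 : b ≤ 24 * (y : ℤ) + 12 * z + 12 * w)
    (h2 : b ≤ 15 * (y : ℤ) + 20 * z + 10 * w)
    (h3 : b ≤ 15 * (y : ℤ) + 10 * z + 20 * w) (hz : 1 ≤ z) (hw : 1 ≤ w) :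
    mon 0 y z w ∈ Q b := by
  induction y using Nat.strong_induction_on generalizing z w with
  | _ y ih =>
    by_cases e0 : 4 ≤ z ∧ b + 30 ≤ 15 * (y : ℤ) + 20 * z + 10 * w
    · obtain ⟨z, rfl⟩ : ∃ t, z = t + 4 := ⟨z - 4, by omega⟩
      obtain ⟨w, rfl⟩ : ∃ t, w = t + 1 := ⟨w - 1, by omega⟩
      push_cast at h0 h1 h2 h3 e0
      refine sub_mem_aux (c := 1 / 5) (intC (x := 0) (y := y) (z := z) (w := w) (by push_cast; omega) (by push_cast; omega) (by push_cast; omega) (by push_cast; omega)) ?_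
      exact rmPos (by push_cast; omega) (by push_cast; omega) (by push_cast; omega) (by push_cast; omega) (by omega) (by omega) (by omega) (by omega)
    by_cases e1 : 4 ≤ w ∧ b + 30 ≤ 15 * (y : ℤ) + 10 * z + 20 * w
    · obtain ⟨w, rfl⟩ : ∃ t, w = t + 4 := ⟨w - 4, by omega⟩
      obtain ⟨z, rfl⟩ : ∃ t, z = t + 1 := ⟨z - 1, by omega⟩
      push_cast at h0 h1 h2 h3 e1
      refine sub_mem_aux (c := 1 / 5) (intD (x := 0) (y := y) (z := z) (w := w) (by push_cast; omega) (by push_cast; omega) (by push_cast; omega) (by push_cast; omega)) ?_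
      exact rmPos (by push_cast; omega) (by push_cast; omega) (by push_cast; omega) (by push_cast; omega) (by omega) (by omega) (by omega) (by omega)
    by_cases e2 : 3 ≤ y ∧ b + 24 ≤ 24 * (y : ℤ) + 12 * z + 12 * w
    · obtain ⟨y, rfl⟩ : ∃ t, y = t + 3 := ⟨y - 3, by omega⟩
      push_cast at h0 h1 h2 h3 e2
      exact bdB (x := 0) (y := y) (z := z) (w := w) (by push_cast; omega) (by push_cast; omega) (by push_cast; omega) (by push_cast; omega)
        (rmPos (by push_cast; omega) (by push_cast; omega) (by push_cast; omega) (by push_cast; omega) (by omega) (by omega) (by omega) (by omega))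
        (ih (y + 1) (by omega) (by push_cast; omega) (by push_cast; omega) (by push_cast; omega) (by push_cast; omega) (by omega) (by omega))
    exact rmTerm (by omega) (by omega) (by omega) (by omega) (by intro t; omega)
      (by intro t; omega) (by intro t; omega) (by intro t; omega) (by omega)

private theorem rm1w (h0 : b ≤ 24 * (x : ℤ) + 12 * y + 12 * z)
    (h1 : b ≤ 12 * (x : ℤ) + 24 * y + 12 * z)
    (h2 : b ≤ 15 * (x : ℤ) + 15 * y + 20 * z)
    (h3 : b ≤ 15 * (x : ℤ) + 15 * y + 10 * z) (hx : 1 ≤ x) (hy : 1 ≤ y) :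
    mon x y z 0 ∈ Q b := by
  induction z using Nat.strong_induction_on generalizing x y with
  | _ z ih =>
    by_cases e0 : 3 ≤ x ∧ b + 24 ≤ 24 * (x : ℤ) + 12 * y + 12 * z
    · obtain ⟨x, rfl⟩ : ∃ t, x = t + 3 := ⟨x - 3, by omega⟩
      obtain ⟨y, rfl⟩ : ∃ t, y = t + 1 := ⟨y - 1, by omega⟩
      push_cast at h0 h1 h2 h3 e0
      refine sub_mem_aux (c := 1 / 4) (intA (x := x) (y := y) (z := z) (w := 0) (by push_cast; omega) (by push_cast; omega) (by push_cast; omega) (by push_cast; omega)) ?_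
      exact rmPos (by push_cast; omega) (by push_cast; omega) (by push_cast; omega) (by push_cast; omega) (by omega) (by omega) (by omega) (by omega)
    by_cases e1 : 3 ≤ y ∧ b + 24 ≤ 12 * (x : ℤ) + 24 * y + 12 * z
    · obtain ⟨y, rfl⟩ : ∃ t, y = t + 3 := ⟨y - 3, by omega⟩
      obtain ⟨x, rfl⟩ : ∃ t, x = t + 1 := ⟨x - 1, by omega⟩
      push_cast at h0 h1 h2 h3 e1
      refine sub_mem_aux (c := 1 / 4) (intB (x := x) (y := y) (z := z) (w := 0) (by push_cast; omega) (by push_cast; omega) (by push_cast; omega) (by push_cast; omega)) ?_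
      exact rmPos (by push_cast; omega) (by push_cast; omega) (by push_cast; omega) (by push_cast; omega) (by omega) (by omega) (by omega) (by omega)
    by_cases e2 : 4 ≤ z ∧ b + 30 ≤ 15 * (x : ℤ) + 15 * y + 20 * z
    · obtain ⟨z, rfl⟩ : ∃ t, z = t + 4 := ⟨z - 4, by omega⟩
      push_cast at h0 h1 h2 h3 e2
      exact bdC (x := x) (y := y) (z := z) (w := 0) (by push_cast; omega) (by push_cast; omega) (by push_cast; omega) (by push_cast; omega)
        (rmPos (by push_cast; omega) (by push_cast; omega) (by push_cast; omega) (by push_cast; omega) (by omega) (by omega) (by omega) (by omega))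
        (ih (z + 1) (by omega) (by push_cast; omega) (by push_cast; omega) (by push_cast; omega) (by push_cast; omega) (by omega) (by omega))
    exact rmTerm (by omega) (by omega) (by omega) (by omega) (by intro t; omega)
      (by intro t; omega) (by intro t; omega) (by intro t; omega) (by omega)

private theorem rm1z (h0 : b ≤ 24 * (x : ℤ) + 12 * y + 12 * w)
    (h1 : b ≤ 12 * (x : ℤ) + 24 * y + 12 * w)
    (h2 : b ≤ 15 * (x : ℤ) + 15 * y + 10 * w)
    (h3 : b ≤ 15 * (x : ℤ) + 15 * y + 20 * w) (hx : 1 ≤ x) (hy : 1 ≤ y) :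
    mon x y 0 w ∈ Q b := by
  induction w using Nat.strong_induction_on generalizing x y with
  | _ w ih =>
    by_cases e0 : 3 ≤ x ∧ b + 24 ≤ 24 * (x : ℤ) + 12 * y + 12 * w
    · obtain ⟨x, rfl⟩ : ∃ t, x = t + 3 := ⟨x - 3, by omega⟩
      obtain ⟨y, rfl⟩ : ∃ t, y = t + 1 := ⟨y - 1, by omega⟩
      push_cast at h0 h1 h2 h3 e0
      refine sub_mem_aux (c := 1 / 4) (intA (x := x) (y := y) (z := 0) (w := w) (by push_cast; omega) (by push_cast; omega) (by push_cast; omega) (by push_cast; omega)) ?_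
      exact rmPos (by push_cast; omega) (by push_cast; omega) (by push_cast; omega) (by push_cast; omega) (by omega) (by omega) (by omega) (by omega)
    by_cases e1 : 3 ≤ y ∧ b + 24 ≤ 12 * (x : ℤ) + 24 * y + 12 * w
    · obtain ⟨y, rfl⟩ : ∃ t, y = t + 3 := ⟨y - 3, by omega⟩
      obtain ⟨x, rfl⟩ : ∃ t, x = t + 1 := ⟨x - 1, by omega⟩
      push_cast at h0 h1 h2 h3 e1
      refine sub_mem_aux (c := 1 / 4) (intB (x := x) (y := y) (z := 0) (w := w) (by push_cast; omega) (by push_cast; omega) (by push_cast; omega) (by push_cast; omega)) ?_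
      exact rmPos (by push_cast; omega) (by push_cast; omega) (by push_cast; omega) (by push_cast; omega) (by omega) (by omega) (by omega) (by omega)
    by_cases e2 : 4 ≤ w ∧ b + 30 ≤ 15 * (x : ℤ) + 15 * y + 20 * w
    · obtain ⟨w, rfl⟩ : ∃ t, w = t + 4 := ⟨w - 4, by omega⟩
      push_cast at h0 h1 h2 h3 e2
      exact bdD (x := x) (y := y) (z := 0) (w := w) (by push_cast; omega) (by push_cast; omega) (by push_cast; omega) (by push_cast; omega)
        (rmPos (by push_cast; omega) (by push_cast; omega) (by push_cast; omega) (by push_cast; omega) (by omega) (by omega) (by omega) (by omega))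
        (ih (w + 1) (by omega) (by push_cast; omega) (by push_cast; omega) (by push_cast; omega) (by push_cast; omega) (by omega) (by omega))
    exact rmTerm (by omega) (by omega) (by omega) (by omega) (by intro t; omega)
      (by intro t; omega) (by intro t; omega) (by intro t; omega) (by omega)

private theorem rmyw (h0 : b ≤ 24 * (x : ℤ) + 12 * z)
    (h1 : b ≤ 12 * (x : ℤ) + 12 * z)
    (h2 : b ≤ 15 * (x : ℤ) + 20 * z)
    (h3 : b ≤ 15 * (x : ℤ) + 10 * z) :
    mon x 0 z 0 ∈ Q b := by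
  by_cases e0 : 3 ≤ x ∧ b + 24 ≤ 24 * (x : ℤ) + 12 * z
  · obtain ⟨x, rfl⟩ : ∃ t, x = t + 3 := ⟨x - 3, by omega⟩
    push_cast at h0 h1 h2 h3 e0
    exact bdA (x := x) (y := 0) (z := z) (w := 0) (by push_cast; omega) (by push_cast; omega) (by push_cast; omega) (by push_cast; omega)
      (rm1w (by push_cast; omega) (by push_cast; omega) (by push_cast; omega) (by push_cast; omega) (by omega) (by omega))
      (rm1y (by push_cast; omega) (by push_cast; omega) (by push_cast; omega) (by push_cast; omega) (by omega) (by omega))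
  by_cases e1 : 4 ≤ z ∧ b + 30 ≤ 15 * (x : ℤ) + 20 * z
  · obtain ⟨z, rfl⟩ : ∃ t, z = t + 4 := ⟨z - 4, by omega⟩
    push_cast at h0 h1 h2 h3 e1
    exact bdC (x := x) (y := 0) (z := z) (w := 0) (by push_cast; omega) (by push_cast; omega) (by push_cast; omega) (by push_cast; omega)
      (rm1y (by push_cast; omega) (by push_cast; omega) (by push_cast; omega) (by push_cast; omega) (by omega) (by omega))
      (rm1w (by push_cast; omega) (by push_cast; omega) (by push_cast; omega) (by push_cast; omega) (by omega) (by omega))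
  exact rmTerm (by omega) (by omega) (by omega) (by omega) (by intro t; omega)
    (by intro t; omega) (by intro t; omega) (by intro t; omega) (by omega)

private theorem rmyz (h0 : b ≤ 24 * (x : ℤ) + 12 * w)
    (h1 : b ≤ 12 * (x : ℤ) + 12 * w)
    (h2 : b ≤ 15 * (x : ℤ) + 10 * w)
    (h3 : b ≤ 15 * (x : ℤ) + 20 * w) :
    mon x 0 0 w ∈ Q b := by
  by_cases e0 : 3 ≤ x ∧ b + 24 ≤ 24 * (x : ℤ) + 12 * w
  · obtain ⟨x, rfl⟩ : ∃ t, x = t + 3 := ⟨x - 3, by omega⟩
    push_cast at h0 h1 h2 h3 e0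
    exact bdA (x := x) (y := 0) (z := 0) (w := w) (by push_cast; omega) (by push_cast; omega) (by push_cast; omega) (by push_cast; omega)
      (rm1z (by push_cast; omega) (by push_cast; omega) (by push_cast; omega) (by push_cast; omega) (by omega) (by omega))
      (rm1y (by push_cast; omega) (by push_cast; omega) (by push_cast; omega) (by push_cast; omega) (by omega) (by omega))
  by_cases e1 : 4 ≤ w ∧ b + 30 ≤ 15 * (x : ℤ) + 20 * w
  · obtain ⟨w, rfl⟩ : ∃ t, w = t + 4 := ⟨w - 4, by omega⟩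
    push_cast at h0 h1 h2 h3 e1
    exact bdD (x := x) (y := 0) (z := 0) (w := w) (by push_cast; omega) (by push_cast; omega) (by push_cast; omega) (by push_cast; omega)
      (rm1y (by push_cast; omega) (by push_cast; omega) (by push_cast; omega) (by push_cast; omega) (by omega) (by omega))
      (rm1z (by push_cast; omega) (by push_cast; omega) (by push_cast; omega) (by push_cast; omega) (by omega) (by omega))
  exact rmTerm (by omega) (by omega) (by omega) (by omega) (by intro t; omega)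
    (by intro t; omega) (by intro t; omega) (by intro t; omega) (by omega)

private theorem rmxw (h0 : b ≤ 12 * (y : ℤ) + 12 * z)
    (h1 : b ≤ 24 * (y : ℤ) + 12 * z)
    (h2 : b ≤ 15 * (y : ℤ) + 20 * z)
    (h3 : b ≤ 15 * (y : ℤ) + 10 * z) :
    mon 0 y z 0 ∈ Q b := by
  by_cases e0 : 3 ≤ y ∧ b + 24 ≤ 24 * (y : ℤ) + 12 * z
  · obtain ⟨y, rfl⟩ : ∃ t, y = t + 3 := ⟨y - 3, by omega⟩
    push_cast at h0 h1 h2 h3 e0
    exact bdB (x := 0) (y := y) (z := z) (w := 0) (by push_cast; omega) (by push_cast; omega) (by push_cast; omega) (by push_cast; omega)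
      (rm1w (by push_cast; omega) (by push_cast; omega) (by push_cast; omega) (by push_cast; omega) (by omega) (by omega))
      (rm1x (by push_cast; omega) (by push_cast; omega) (by push_cast; omega) (by push_cast; omega) (by omega) (by omega))
  by_cases e1 : 4 ≤ z ∧ b + 30 ≤ 15 * (y : ℤ) + 20 * z
  · obtain ⟨z, rfl⟩ : ∃ t, z = t + 4 := ⟨z - 4, by omega⟩
    push_cast at h0 h1 h2 h3 e1
    exact bdC (x := 0) (y := y) (z := z) (w := 0) (by push_cast; omega) (by push_cast; omega) (by push_cast; omega) (by push_cast; omega)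
      (rm1x (by push_cast; omega) (by push_cast; omega) (by push_cast; omega) (by push_cast; omega) (by omega) (by omega))
      (rm1w (by push_cast; omega) (by push_cast; omega) (by push_cast; omega) (by push_cast; omega) (by omega) (by omega))
  exact rmTerm (by omega) (by omega) (by omega) (by omega) (by intro t; omega)
    (by intro t; omega) (by intro t; omega) (by intro t; omega) (by omega)

private theorem rmxz (h0 : b ≤ 12 * (y : ℤ) + 12 * w)
    (h1 : b ≤ 24 * (y : ℤ) + 12 * w)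
    (h2 : b ≤ 15 * (y : ℤ) + 10 * w)
    (h3 : b ≤ 15 * (y : ℤ) + 20 * w) :
    mon 0 y 0 w ∈ Q b := by
  by_cases e0 : 3 ≤ y ∧ b + 24 ≤ 24 * (y : ℤ) + 12 * w
  · obtain ⟨y, rfl⟩ : ∃ t, y = t + 3 := ⟨y - 3, by omega⟩
    push_cast at h0 h1 h2 h3 e0
    exact bdB (x := 0) (y := y) (z := 0) (w := w) (by push_cast; omega) (by push_cast; omega) (by push_cast; omega) (by push_cast; omega)
      (rm1z (by push_cast; omega) (by push_cast; omega) (by push_cast; omega) (by push_cast; omega) (by omega) (by omega))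
      (rm1x (by push_cast; omega) (by push_cast; omega) (by push_cast; omega) (by push_cast; omega) (by omega) (by omega))
  by_cases e1 : 4 ≤ w ∧ b + 30 ≤ 15 * (y : ℤ) + 20 * w
  · obtain ⟨w, rfl⟩ : ∃ t, w = t + 4 := ⟨w - 4, by omega⟩
    push_cast at h0 h1 h2 h3 e1
    exact bdD (x := 0) (y := y) (z := 0) (w := w) (by push_cast; omega) (by push_cast; omega) (by push_cast; omega) (by push_cast; omega)
      (rm1x (by push_cast; omega) (by push_cast; omega) (by push_cast; omega) (by push_cast; omega) (by omega) (by omega))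
      (rm1z (by push_cast; omega) (by push_cast; omega) (by push_cast; omega) (by push_cast; omega) (by omega) (by omega))
  exact rmTerm (by omega) (by omega) (by omega) (by omega) (by intro t; omega)
    (by intro t; omega) (by intro t; omega) (by intro t; omega) (by omega)

end

theorem rmain {b : ℤ} {x y z w : ℕ}
    (h0 : b ≤ 24 * (x : ℤ) + 12 * y + 12 * z + 12 * w)
    (h1 : b ≤ 12 * (x : ℤ) + 24 * y + 12 * z + 12 * w)
    (h2 : b ≤ 15 * (x : ℤ) + 15 * y + 20 * z + 10 * w)
    (h3 : b ≤ 15 * (x : ℤ) + 15 * y + 10 * z + 20 * w) :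
    mon x y z w ∈ Q b := by
  by_cases hx : x = 0
  · subst hx
    by_cases hz : z = 0
    · subst hz
      exact rmxz (by omega) (by omega) (by omega) (by omega)
    by_cases hw : w = 0
    · subst hw
      exact rmxw (by omega) (by omega) (by omega) (by omega)
    exact rm1x (by omega) (by omega) (by omega) (by omega) (by omega) (by omega)
  by_cases hy : y = 0
  · subst hy
    by_cases hz : z = 0
    · subst hz
      exact rmyz (by omega) (by omega) (by omega) (by omega)
    by_cases hw : w = 0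
    · subst hw
      exact rmyw (by omega) (by omega) (by omega) (by omega)
    exact rm1y (by omega) (by omega) (by omega) (by omega) (by omega) (by omega)
  by_cases hz : z = 0
  · subst hz
    exact rm1z (by omega) (by omega) (by omega) (by omega) (by omega) (by omega)
  by_cases hw : w = 0
  · subst hw
    exact rm1w (by omega) (by omega) (by omega) (by omega) (by omega) (by omega)
  exact rmPos h0 h1 h2 h3 (by omega) (by omega) (by omega) (by omega)

/-- Reformulation. -/
theorem mono_mem_Q {b : ℤ} {m : Fin 4 →₀ ℕ} (h : ∀ k, b ≤ lin k m) : mono m ∈ Q b := by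
  rw [eq_ex m]
  have h' := h
  simp only [Fin.forall_fin_succ, Fin.forall_fin_zero, lin, Fin.sum_univ_four] at h'
  obtain ⟨h0, h1, h2, h3, _⟩ := h'
  exact rmain h0 h1 h2 h3

end HV
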