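import Pool.Agent.Work.MP_e9f12e_ag.Base

/-!
# RRules: the rewriting rules for monomials modulo `Q b = Sp b ⊔ Rb b ⊔ Icl (b + 1)`
-/

namespace HV

/-- Everything that is a combination of basis monomials of order `b`, modulo `Rb b` and modulo
germs of order at least `b + 1`. -/
noncomputable def Q (b : ℤ) : Submodule ℂ (Germ 4) := Sp b ⊔ Rb b ⊔ Icl (b + 1)

theorem Icl_le_Q (b : ℤ) : Icl (b + 1) ≤ Q b := le_sup_right
theorem Rb_le_Q (b : ℤ) : Rb b ≤ Q b := le_sup_right.trans le_sup_left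
theorem Sp_le_Q (b : ℤ) : Sp b ≤ Q b := le_sup_left.trans le_sup_left

theorem mono_mem_Icl {b : ℤ} {m : Fin 4 →₀ ℕ} (h : ∀ k, b ≤ lin k m) : mono m ∈ Icl b := by
  classical
  intro p hp k
  rw [co_mono] at hp
  have : p = m := by
    by_contra hne
    exact hp (if_neg hne)
  rw [this]
  exact h k

theorem mono_mem_KI {i : Fin 4} {b : ℤ} {m : Fin 4 →₀ ℕ} (h : ∀ k, b + wt k i ≤ lin k m) :
    mono m ∈ KI i b := by
  classical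
  intro p hp k
  rw [co_mono] at hp
  have : p = m := by
    by_contra hne
    exact hp (if_neg hne)
  rw [this]
  exact h k

theorem forall_lin_ex {x y z w : ℕ} {F : Fin 4 → ℤ}
    (h0 : F 0 ≤ 24 * (x : ℤ) + 12 * y + 12 * z + 12 * w)
    (h1 : F 1 ≤ 12 * (x : ℤ) + 24 * y + 12 * z + 12 * w)
    (h2 : F 2 ≤ 15 * (x : ℤ) + 15 * y + 20 * z + 10 * w)
    (h3 : F 3 ≤ 15 * (x : ℤ) + 15 * y + 10 * z + 20 * w) :
    ∀ k, F k ≤ lin k (ex x y z w) := by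
  intro k
  rw [lin_ex]
  fin_cases k
  · exact h0
  · exact h1
  · exact h2
  · exact h3

theorem mon_mem_Q_of_lt {b : ℤ} {x y z w : ℕ}
    (h0 : b + 1 ≤ 24 * (x : ℤ) + 12 * y + 12 * z + 12 * w)
    (h1 : b + 1 ≤ 12 * (x : ℤ) + 24 * y + 12 * z + 12 * w)
    (h2 : b + 1 ≤ 15 * (x : ℤ) + 15 * y + 20 * z + 10 * w)
    (h3 : b + 1 ≤ 15 * (x : ℤ) + 15 * y + 10 * z + 20 * w) : mon x y z w ∈ Q b :=
  Icl_le_Q b (mono_mem_Icl (forall_lin_ex (F := fun _ => b + 1) h0 h1 h2 h3))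

theorem mul_mem_Rb {b : ℤ} {i : Fin 4} {g : Germ 4} (h : g ∈ KI i (b - 60)) :
    pd i f0 * g ∈ Rb b :=
  (le_iSup (fun i : Fin 4 => (KI i (b - 60)).map (LinearMap.mulLeft ℂ (pd i f0))) i)
    (Submodule.mem_map_of_mem h)

theorem r0_mem {b : ℤ} {x y z w : ℕ}
    (h0 : b - 60 + 24 ≤ 24 * (x : ℤ) + 12 * y + 12 * z + 12 * w)
    (h1 : b - 60 + 12 ≤ 12 * (x : ℤ) + 24 * y + 12 * z + 12 * w)
    (h2 : b - 60 + 15 ≤ 15 * (x : ℤ) + 15 * y + 20 * z + 10 * w)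
    (h3 : b - 60 + 15 ≤ 15 * (x : ℤ) + 15 * y + 10 * z + 20 * w) :
    pd 0 f0 * mon x y z w ∈ Rb b :=
  mul_mem_Rb (mono_mem_KI (forall_lin_ex (F := fun k => b - 60 + wt k 0) h0 h1 h2 h3))

theorem r1_mem {b : ℤ} {x y z w : ℕ}
    (h0 : b - 60 + 12 ≤ 24 * (x : ℤ) + 12 * y + 12 * z + 12 * w)
    (h1 : b - 60 + 24 ≤ 12 * (x : ℤ) + 24 * y + 12 * z + 12 * w)
    (h2 : b - 60 + 15 ≤ 15 * (x : ℤ) + 15 * y + 20 * z + 10 * w)
    (h3 : b - 60 + 15 ≤ 15 * (x : ℤ) + 15 * y + 10 * z + 20 * w) :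
    pd 1 f0 * mon x y z w ∈ Rb b :=
  mul_mem_Rb (mono_mem_KI (forall_lin_ex (F := fun k => b - 60 + wt k 1) h0 h1 h2 h3))

theorem r2_mem {b : ℤ} {x y z w : ℕ}
    (h0 : b - 60 + 12 ≤ 24 * (x : ℤ) + 12 * y + 12 * z + 12 * w)
    (h1 : b - 60 + 12 ≤ 12 * (x : ℤ) + 24 * y + 12 * z + 12 * w)
    (h2 : b - 60 + 20 ≤ 15 * (x : ℤ) + 15 * y + 20 * z + 10 * w)
    (h3 : b - 60 + 10 ≤ 15 * (x : ℤ) + 15 * y + 10 * z + 20 * w) :
    pd 2 f0 * mon x y z w ∈ Rb b :=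
  mul_mem_Rb (mono_mem_KI (forall_lin_ex (F := fun k => b - 60 + wt k 2) h0 h1 h2 h3))

theorem r3_mem {b : ℤ} {x y z w : ℕ}
    (h0 : b - 60 + 12 ≤ 24 * (x : ℤ) + 12 * y + 12 * z + 12 * w)
    (h1 : b - 60 + 12 ≤ 12 * (x : ℤ) + 24 * y + 12 * z + 12 * w)
    (h2 : b - 60 + 10 ≤ 15 * (x : ℤ) + 15 * y + 20 * z + 10 * w)
    (h3 : b - 60 + 20 ≤ 15 * (x : ℤ) + 15 * y + 10 * z + 20 * w) :
    pd 3 f0 * mon x y z w ∈ Rb b :=
  mul_mem_Rb (mono_mem_KI (forall_lin_ex (F := fun k => b - 60 + wt k 3) h0 h1 h2 h3))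

theorem pd0_mul (x y z w : ℕ) : pd 0 f0 * mon x y z w =
    (3 : ℂ) • mon (x + 2) (y + 1) z w + mon x (y + 3) z w + mon x (y + 1) (z + 1) (w + 1) := by
  rw [pd0_f0, add_mul, add_mul, smul_mul_assoc, mon_mul, mon_mul, mon_mul]
  simp only [Nat.add_comm, Nat.add_zero, Nat.zero_add]

theorem pd1_mul (x y z w : ℕ) : pd 1 f0 * mon x y z w =
    mon (x + 3) y z w + (3 : ℂ) • mon (x + 1) (y + 2) z w + mon (x + 1) y (z + 1) (w + 1) := by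
  rw [pd1_f0, add_mul, add_mul, smul_mul_assoc, mon_mul, mon_mul, mon_mul]
  simp only [Nat.add_comm, Nat.add_zero, Nat.zero_add]

theorem pd2_mul (x y z w : ℕ) : pd 2 f0 * mon x y z w =
    (4 : ℂ) • mon x y (z + 3) (w + 1) + mon x y z (w + 4) + mon (x + 1) (y + 1) z (w + 1) := by
  rw [pd2_f0, add_mul, add_mul, smul_mul_assoc, mon_mul, mon_mul, mon_mul]
  simp only [Nat.add_comm, Nat.add_zero, Nat.zero_add]

theorem pd3_mul (x y z w : ℕ) : pd 3 f0 * mon x y z w =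
    mon x y (z + 4) w + (4 : ℂ) • mon x y (z + 1) (w + 3) + mon (x + 1) (y + 1) (z + 1) w := by
  rw [pd3_f0, add_mul, add_mul, smul_mul_assoc, mon_mul, mon_mul, mon_mul]
  simp only [Nat.add_comm, Nat.add_zero, Nat.zero_add]

/-- The interior relation for `x^3 y`. -/
theorem relA (x y z w : ℕ) : mon (x + 3) (y + 1) z w +
    (1 / 4 : ℂ) • mon (x + 1) (y + 1) (z + 1) (w + 1) =
    (3 / 8 : ℂ) • (pd 0 f0 * mon (x + 1) y z w) - (1 / 8 : ℂ) • (pd 1 f0 * mon x (y + 1) z w) := by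
  rw [pd0_mul, pd1_mul]
  module

theorem relB (x y z w : ℕ) : mon (x + 1) (y + 3) z w +
    (1 / 4 : ℂ) • mon (x + 1) (y + 1) (z + 1) (w + 1) =
    (3 / 8 : ℂ) • (pd 1 f0 * mon x (y + 1) z w) - (1 / 8 : ℂ) • (pd 0 f0 * mon (x + 1) y z w) := by
  rw [pd0_mul, pd1_mul]
  module

theorem relC (x y z w : ℕ) : mon x y (z + 4) (w + 1) +
    (1 / 5 : ℂ) • mon (x + 1) (y + 1) (z + 1) (w + 1) =
    (4 / 15 : ℂ) • (pd 2 f0 * mon x y (z + 1) w) - (1 / 15 : ℂ) • (pd 3 f0 * mon x y z (w + 1)) := by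
  rw [pd2_mul, pd3_mul]
  module

theorem relD (x y z w : ℕ) : mon x y (z + 1) (w + 4) +
    (1 / 5 : ℂ) • mon (x + 1) (y + 1) (z + 1) (w + 1) =
    (4 / 15 : ℂ) • (pd 3 f0 * mon x y z (w + 1)) - (1 / 15 : ℂ) • (pd 2 f0 * mon x y (z + 1) w) := by
  rw [pd2_mul, pd3_mul]
  module

section rules

variable {b : ℤ} {x y z w : ℕ}

theorem sub_mem_aux {S : Submodule ℂ (Germ 4)} {u v : Germ 4} {c : ℂ} (h : u + c • v ∈ S)
    (hv : v ∈ S) : u ∈ S := by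
  have := S.sub_mem h (S.smul_mem c hv)
  rwa [add_sub_cancel_right] at this

theorem sub_mem_aux' {S : Submodule ℂ (Germ 4)} {u v : Germ 4} {c : ℂ} (hc : c ≠ 0)
    (h : u + c • v ∈ S) (hu : u ∈ S) : v ∈ S := by
  have h1 := S.smul_mem c⁻¹ (S.sub_mem h hu)
  rwa [add_sub_cancel_left, smul_smul, inv_mul_cancel₀ hc, one_smul] at h1

theorem intA (h0 : b - 60 ≤ 24 * (x : ℤ) + 12 * y + 12 * z + 12 * w)
    (h1 : b - 60 ≤ 12 * (x : ℤ) + 24 * y + 12 * z + 12 * w)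
    (h2 : b - 60 ≤ 15 * (x : ℤ) + 15 * y + 20 * z + 10 * w)
    (h3 : b - 60 ≤ 15 * (x : ℤ) + 15 * y + 10 * z + 20 * w) :
    mon (x + 3) (y + 1) z w + (1 / 4 : ℂ) • mon (x + 1) (y + 1) (z + 1) (w + 1) ∈ Q b := by
  rw [relA]
  refine Rb_le_Q b (Submodule.sub_mem _ (Submodule.smul_mem _ _ (r0_mem ?_ ?_ ?_ ?_))
    (Submodule.smul_mem _ _ (r1_mem ?_ ?_ ?_ ?_))) <;> push_cast <;> omega

theorem intB (h0 : b - 60 ≤ 24 * (x : ℤ) + 12 * y + 12 * z + 12 * w)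
    (h1 : b - 60 ≤ 12 * (x : ℤ) + 24 * y + 12 * z + 12 * w)
    (h2 : b - 60 ≤ 15 * (x : ℤ) + 15 * y + 20 * z + 10 * w)
    (h3 : b - 60 ≤ 15 * (x : ℤ) + 15 * y + 10 * z + 20 * w) :
    mon (x + 1) (y + 3) z w + (1 / 4 : ℂ) • mon (x + 1) (y + 1) (z + 1) (w + 1) ∈ Q b := by
  rw [relB]
  refine Rb_le_Q b (Submodule.sub_mem _ (Submodule.smul_mem _ _ (r1_mem ?_ ?_ ?_ ?_))
    (Submodule.smul_mem _ _ (r0_mem ?_ ?_ ?_ ?_))) <;> push_cast <;> omega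

theorem intC (h0 : b - 60 ≤ 24 * (x : ℤ) + 12 * y + 12 * z + 12 * w)
    (h1 : b - 60 ≤ 12 * (x : ℤ) + 24 * y + 12 * z + 12 * w)
    (h2 : b - 60 ≤ 15 * (x : ℤ) + 15 * y + 20 * z + 10 * w)
    (h3 : b - 60 ≤ 15 * (x : ℤ) + 15 * y + 10 * z + 20 * w) :
    mon x y (z + 4) (w + 1) + (1 / 5 : ℂ) • mon (x + 1) (y + 1) (z + 1) (w + 1) ∈ Q b := by
  rw [relC]
  refine Rb_le_Q b (Submodule.sub_mem _ (Submodule.smul_mem _ _ (r2_mem ?_ ?_ ?_ ?_))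
    (Submodule.smul_mem _ _ (r3_mem ?_ ?_ ?_ ?_))) <;> push_cast <;> omega

theorem intD (h0 : b - 60 ≤ 24 * (x : ℤ) + 12 * y + 12 * z + 12 * w)
    (h1 : b - 60 ≤ 12 * (x : ℤ) + 24 * y + 12 * z + 12 * w)
    (h2 : b - 60 ≤ 15 * (x : ℤ) + 15 * y + 20 * z + 10 * w)
    (h3 : b - 60 ≤ 15 * (x : ℤ) + 15 * y + 10 * z + 20 * w) :
    mon x y (z + 1) (w + 4) + (1 / 5 : ℂ) • mon (x + 1) (y + 1) (z + 1) (w + 1) ∈ Q b := by
  rw [relD]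
  refine Rb_le_Q b (Submodule.sub_mem _ (Submodule.smul_mem _ _ (r3_mem ?_ ?_ ?_ ?_))
    (Submodule.smul_mem _ _ (r2_mem ?_ ?_ ?_ ?_))) <;> push_cast <;> omega

/-- Boundary rule `a`. -/
theorem bdA (h0 : b - 48 ≤ 24 * (x : ℤ) + 12 * y + 12 * z + 12 * w)
    (h1 : b - 36 ≤ 12 * (x : ℤ) + 24 * y + 12 * z + 12 * w)
    (h2 : b - 45 ≤ 15 * (x : ℤ) + 15 * y + 20 * z + 10 * w)
    (h3 : b - 45 ≤ 15 * (x : ℤ) + 15 * y + 10 * z + 20 * w)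
    (H1 : mon (x + 1) (y + 2) z w ∈ Q b) (H2 : mon (x + 1) y (z + 1) (w + 1) ∈ Q b) :
    mon (x + 3) y z w ∈ Q b := by
  have h := Rb_le_Q b (r1_mem (b := b) (x := x) (y := y) (z := z) (w := w)
    (by omega) (by omega) (by omega) (by omega))
  rw [pd1_mul] at h
  have h' := (Q b).sub_mem ((Q b).sub_mem h H2) ((Q b).smul_mem 3 H1)
  convert h' using 1
  abel

/-- Boundary rule `b`. -/
theorem bdB (h0 : b - 36 ≤ 24 * (x : ℤ) + 12 * y + 12 * z + 12 * w)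
    (h1 : b - 48 ≤ 12 * (x : ℤ) + 24 * y + 12 * z + 12 * w)
    (h2 : b - 45 ≤ 15 * (x : ℤ) + 15 * y + 20 * z + 10 * w)
    (h3 : b - 45 ≤ 15 * (x : ℤ) + 15 * y + 10 * z + 20 * w)
    (H1 : mon (x + 2) (y + 1) z w ∈ Q b) (H2 : mon x (y + 1) (z + 1) (w + 1) ∈ Q b) :
    mon x (y + 3) z w ∈ Q b := by
  have h := Rb_le_Q b (r0_mem (b := b) (x := x) (y := y) (z := z) (w := w)
    (by omega) (by omega) (by omega) (by omega))
  rw [pd0_mul] at h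
  have h' := (Q b).sub_mem ((Q b).sub_mem h H2) ((Q b).smul_mem 3 H1)
  convert h' using 1
  abel

/-- Boundary rule `c`. -/
theorem bdC (h0 : b - 48 ≤ 24 * (x : ℤ) + 12 * y + 12 * z + 12 * w)
    (h1 : b - 48 ≤ 12 * (x : ℤ) + 24 * y + 12 * z + 12 * w)
    (h2 : b - 50 ≤ 15 * (x : ℤ) + 15 * y + 20 * z + 10 * w)
    (h3 : b - 40 ≤ 15 * (x : ℤ) + 15 * y + 10 * z + 20 * w)
    (H1 : mon x y (z + 1) (w + 3) ∈ Q b) (H2 : mon (x + 1) (y + 1) (z + 1) w ∈ Q b) :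
    mon x y (z + 4) w ∈ Q b := by
  have h := Rb_le_Q b (r3_mem (b := b) (x := x) (y := y) (z := z) (w := w)
    (by omega) (by omega) (by omega) (by omega))
  rw [pd3_mul] at h
  have h' := (Q b).sub_mem ((Q b).sub_mem h H2) ((Q b).smul_mem 4 H1)
  convert h' using 1
  abel

/-- Boundary rule `d`. -/
theorem bdD (h0 : b - 48 ≤ 24 * (x : ℤ) + 12 * y + 12 * z + 12 * w)
    (h1 : b - 48 ≤ 12 * (x : ℤ) + 24 * y + 12 * z + 12 * w)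
    (h2 : b - 40 ≤ 15 * (x : ℤ) + 15 * y + 20 * z + 10 * w)
    (h3 : b - 50 ≤ 15 * (x : ℤ) + 15 * y + 10 * z + 20 * w)
    (H1 : mon x y (z + 3) (w + 1) ∈ Q b) (H2 : mon (x + 1) (y + 1) z (w + 1) ∈ Q b) :
    mon x y z (w + 4) ∈ Q b := by
  have h := Rb_le_Q b (r2_mem (b := b) (x := x) (y := y) (z := z) (w := w)
    (by omega) (by omega) (by omega) (by omega))
  rw [pd2_mul] at h
  have h' := (Q b).sub_mem ((Q b).sub_mem h H2) ((Q b).smul_mem 4 H1)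
  convert h' using 1
  abel

/-- A basis monomial of order `b` lies in `Q b`. -/
theorem term_mem (ht : IsTerm x y z w) (hx : x < 5) (hy : y < 5) (hz : z < 5) (hw : w < 5)
    (ho : ordN (x, y, z, w) = b) : mon x y z w ∈ Q b := by
  refine Sp_le_Q b (Submodule.subset_span ⟨(x, y, z, w), ⟨?_, ho⟩, rfl⟩)
  simp only [BSet, Finset.mem_filter, Finset.mem_product, Finset.mem_range]
  exact ⟨⟨hx, hy, hz, hw⟩, ht⟩

end rules

end HV
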