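import Pool.Agent.Work.MP_e9f12e_ag.MPow

/-!
# RStar: division with remainder in the Newton filtration

PROOF of `rstar`. By `Icl_le_Q'` and monotonicity (`Rb_anti`, `SpGe_anti`, `Sp_le_SpGe`), by
induction on `j`: `Icl b ≤ SpGe b ⊔ Rb b ⊔ Icl (b + j)`. It remains to see `Icl c ≤ Rb b` for `c` large:
let `L` be with `10 L ≥ b - 60 + 24`. `Icl c ≤ mPow 4 (L + 13)` for `c` large (`Icl_le_mPow`),
`mPow 4 (L + 13) ≤ mPow 4 L * mPow 4 13 ≤ mPow 4 L * J` (`mPow_mul`, `mPow_le_jac`), and an element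
of `mPow 4 L * J`, `J = span (range (pd i f0))`, is a sum `∑ i, pd i f0 * u i` with `u i ∈ mPow 4 L`
(e.g. `Submodule.mul_induction_on`/`Ideal.mul_le`: products `u * (∑ pd i f0 * v i)`; use
`Ideal.mem_span_range_iff_exists_fun`, and the description `mem_Rb`), and
`mPow 4 L ⊆ KI i (b - 60)` since `lin k m ≥ 10 L ≥ b - 60 + wt k i`.
`Icl_le_Rb`: no basis monomial has order `> 120` (`ordN_le_of_mem_BSet`), so `SpGe b = ⊥`.
-/

namespace HV

private theorem rstarStep (b : ℤ) (j : ℕ) : Icl b ≤ SpGe b ⊔ Rb b ⊔ Icl (b + j) := by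
  induction j with
  | zero =>
    simp only [Nat.cast_zero, add_zero]
    exact le_sup_right
  | succ j ih =>
    refine ih.trans (sup_le le_sup_left ?_)
    refine (Icl_le_Q' (b + j)).trans ?_
    have h : b ≤ b + (j : ℤ) := by omega
    refine sup_le (sup_le ?_ ?_) ?_
    · exact (Sp_le_SpGe _).trans ((SpGe_anti h).trans (le_sup_left.trans le_sup_left))
    · exact (Rb_anti h).trans (le_sup_right.trans le_sup_left)
    · push_cast
      rw [← add_assoc]
      exact le_sup_right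

private theorem rstarLarge (b : ℤ) : ∃ c, Icl c ≤ Rb b := by
  set L := (b - 36).toNat with hL
  have hL1 : b - 36 ≤ 10 * (L : ℤ) := by omega
  refine ⟨24 * ((L + 13 : ℕ) : ℤ), ?_⟩
  refine (Icl_le_mPow (L + 13) (by omega)).trans ?_
  intro g hg
  have h1 : g ∈ mPow 4 L * jacobianIdeal f0 :=
    Ideal.mul_mono_right mPow_le_jac (mPow_mul 4 L 13 hg)
  refine Submodule.mul_induction_on h1 ?_ (fun x y hx hy => Submodule.add_mem _ hx hy)
  intro a ha c hc
  rw [jacobianIdeal, Ideal.mem_span_range_iff_exists_fun] at hc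
  obtain ⟨v, rfl⟩ := hc
  rw [mem_Rb]
  refine ⟨fun i => a * v i, fun i m hm k => ?_, ?_⟩
  · have h2 : a * v i ∈ (mPow 4 L).restrictScalars ℂ := Ideal.mul_mem_right _ _ ha
    have h3 := mPow_le_Icl L h2 m hm
    have h4 := h3 k
    have h5 := wt_le k i
    linarith
  · rw [Finset.mul_sum]
    apply Finset.sum_congr rfl
    intro i _
    ring

theorem rstar (b : ℤ) : Icl b ≤ SpGe b ⊔ Rb b := by
  obtain ⟨c, hc⟩ := rstarLarge b
  refine (rstarStep b (c - b).toNat).trans (sup_le le_rfl ?_)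
  refine (Icl_anti (show c ≤ b + ((c - b).toNat : ℤ) by omega)).trans ?_
  exact hc.trans le_sup_right

theorem Icl_le_Rb {b : ℤ} (h : 120 < b) : Icl b ≤ Rb b := by
  refine (rstar b).trans (sup_le ?_ le_rfl)
  have : SpGe b = ⊥ := by
    rw [SpGe, Submodule.span_eq_bot]
    rintro _ ⟨p, ⟨hp1, hp2⟩, rfl⟩
    have := ordN_le_of_mem_BSet hp1
    omega
  rw [this]
  exact bot_le

end HV
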