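import Pool.Agent.Work.MP_e9f12e_ag.RRules

/-!
# RZero: monomials divisible by `x y z w` lie in `Q b`

Write `p = (x, y, z, w)`, `e = (1,1,1,1)`, `lin 0 = 24x+12y+12z+12w`, `lin 1 = 12x+24y+12z+12w`,
`lin 2 = 15x+15y+20z+10w`, `lin 3 = 15x+15y+10z+20w`. Claim `Van p`: if `b - 60 ≤ lin k p` for all `k`
then `mon (p + e) ∈ Q b`.

PROOF. The rules `intA .. intD` at `p` say `mon (p + v_k) + c_k mon (p + e) ∈ Q b` (`c_k ≠ 0`),
`v_A = (3,1,0,0)`, `v_B = (1,3,0,0)`, `v_C = (0,0,4,1)`, `v_D = (0,0,1,4)`.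
(V1) If `b - 60 < lin j p` for all `j ≠ k`, then `mon (p + v_k)` has order `≥ b + 1`
  (`mon_mem_Q_of_lt`; `lin j v_k = 60` for `j ≠ k`, `lin k v_k = 84` or `90`), so `Van p` holds by
  `sub_mem_aux'`.
(V2) If `p' = p + v_k - e ≥ 0` satisfies `Van p'` then `Van p` (same rule, since
  `p + v_k = p' + e`). Moves `p → p'`: a: `(+2,0,-1,-1)` (needs `z, w ≥ 1`), b: `(0,+2,-1,-1)`
  (`z, w ≥ 1`), c: `(-1,-1,+3,0)` (`x, y ≥ 1`), d: `(-1,-1,0,+3)` (`x, y ≥ 1`). A move `k` leaves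
  `lin j`, `j ≠ k`, unchanged and raises `lin k` (by 24 or 30).
(V3) Reverse move: if `p'' = p - v_k + e ≥ 0` has `lin k p'' ≥ b - 60`, then `Van p''` implies
  `Van p` (rule at `p''`: `p'' + v_k = p + e`, use `sub_mem_aux`).
Let `Z = {k : lin k p = b - 60}`. Case distinction:
* `Z` has at most one element: V1.
* `Z = {i, j}`: one move in `i` or `j` gives a point with one element in `Z`, unless
  (by linear arithmetic) `p` is one of `(2j,0,3j,0)` (`Z = {1,3}`), `(2j,0,0,3j)` (`Z = {1,2}`),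
  `(0,2j,3j,0)` (`Z = {0,3}`), `(0,2j,0,3j)` (`Z = {0,2}`), `j ≥ 1`. For `(2j,0,3j,0)`:
  reverse move c to `p'' = (2j+1,1,3j-3,0)`; if `j ≥ 2` then `Z(p'') = {1,3}` and move d leads to
  `(2j,0,3j-3,3)` with `Z = {1}`, V1. If `j = 1`: `b = 120`, `p'' = (3,1,0,0)`, move... use rule A at
  `(1,1,1,1)`: `mon (4,2,1,1) + 1/4 mon (2,2,2,2) ∈ Q 120`, and `mon (2,2,2,2) ∈ Q 120`, `term_mem`.
  (`Van (3,1,0,0)` is `mon (4,2,1,1) ∈ Q 120`.) The other three families are symmetric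
  (for `(0,2j,0,3j)`: reverse move d, `p'' = (1,2j+1,0,3j-3)`, then move c; etc.; `Van (1,3,0,0)` by
  rule B at `(1,1,1,1)`).
* `Z` has three elements: `p = (m+3j,m+j,m,m)` (`Z = {1,2,3}`), `(m+j,m+3j,m,m)` (`Z = {0,2,3}`),
  `(m,m,m+4j,m+j)` (`Z = {0,1,3}`) or `(m,m,m+j,m+4j)` (`Z = {0,1,2}`), `j ≥ 1`. Two moves suffice
  unless `m = 0`, `j = 1`: in the first family c then d (if `m + j ≥ 2`); in the third family a then b
  (if `m + j ≥ 2`). If `m = 0, j = 1`: `p = (3,1,0,0)`, `(1,3,0,0)`, `(0,0,4,1)`, `(0,0,1,4)`, `b = 120`: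
  rule A, B, C, D at `(1,1,1,1)` and `mon (2,2,2,2) ∈ Q 120`.
* `Z` has four elements: `p = (m,m,m,m)`, `b = 60 m + 60`. `m = 0`: `mon (1,1,1,1)`, `b = 60`, and
  `m = 1`: `mon (2,2,2,2)`, `b = 120`: `term_mem`. `m ≥ 2`: moves a, c, b: `(m+2,m,m-1,m-1)`,
  `(m+1,m-1,m+2,m-1)`, `(m+1,m+1,m+1,m-2)` with `Z = {3}`, V1.
All the case distinctions are linear arithmetic (`omega`). Everything was checked by computer.
A convenient form: prove first `van1` (at most one equality; four cases), then `van2` (at most two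
equalities), `van3`, `van4`.
-/

namespace HV

/-- The monomial `p + (1,1,1,1)` lies in `Q b`. -/
private def rzVan (b : ℤ) (x y z w : ℕ) : Prop := mon (x + 1) (y + 1) (z + 1) (w + 1) ∈ Q b

section

variable {b : ℤ} {x y z w : ℕ}

private theorem rz_iff {S : Submodule ℂ (Germ 4)} {u v : Germ 4} {c : ℂ} (hc : c ≠ 0)
    (h : u + c • v ∈ S) : u ∈ S ↔ v ∈ S :=
  ⟨fun hu => sub_mem_aux' hc h hu, fun hv => sub_mem_aux h hv⟩

private theorem rzA (h0 : b - 60 ≤ 24 * (x : ℤ) + 12 * y + 12 * (z + 1) + 12 * (w + 1))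
    (h1 : b - 60 ≤ 12 * (x : ℤ) + 24 * y + 12 * (z + 1) + 12 * (w + 1))
    (h2 : b - 60 ≤ 15 * (x : ℤ) + 15 * y + 20 * (z + 1) + 10 * (w + 1))
    (h3 : b - 60 ≤ 15 * (x : ℤ) + 15 * y + 10 * (z + 1) + 20 * (w + 1)) :
    rzVan b (x + 2) y z w ↔ rzVan b x y (z + 1) (w + 1) :=
  rz_iff (by norm_num) (intA (b := b) (x := x) (y := y) (z := z + 1) (w := w + 1)
    (by push_cast; omega) (by push_cast; omega) (by push_cast; omega) (by push_cast; omega))

private theorem rzB (h0 : b - 60 ≤ 24 * (x : ℤ) + 12 * y + 12 * (z + 1) + 12 * (w + 1))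
    (h1 : b - 60 ≤ 12 * (x : ℤ) + 24 * y + 12 * (z + 1) + 12 * (w + 1))
    (h2 : b - 60 ≤ 15 * (x : ℤ) + 15 * y + 20 * (z + 1) + 10 * (w + 1))
    (h3 : b - 60 ≤ 15 * (x : ℤ) + 15 * y + 10 * (z + 1) + 20 * (w + 1)) :
    rzVan b x (y + 2) z w ↔ rzVan b x y (z + 1) (w + 1) :=
  rz_iff (by norm_num) (intB (b := b) (x := x) (y := y) (z := z + 1) (w := w + 1)
    (by push_cast; omega) (by push_cast; omega) (by push_cast; omega) (by push_cast; omega))

private theorem rzC (h0 : b - 60 ≤ 24 * ((x : ℤ) + 1) + 12 * (y + 1) + 12 * z + 12 * w)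
    (h1 : b - 60 ≤ 12 * ((x : ℤ) + 1) + 24 * (y + 1) + 12 * z + 12 * w)
    (h2 : b - 60 ≤ 15 * ((x : ℤ) + 1) + 15 * (y + 1) + 20 * z + 10 * w)
    (h3 : b - 60 ≤ 15 * ((x : ℤ) + 1) + 15 * (y + 1) + 10 * z + 20 * w) :
    rzVan b x y (z + 3) w ↔ rzVan b (x + 1) (y + 1) z w :=
  rz_iff (by norm_num) (intC (b := b) (x := x + 1) (y := y + 1) (z := z) (w := w)
    (by push_cast; omega) (by push_cast; omega) (by push_cast; omega) (by push_cast; omega))

private theorem rzD (h0 : b - 60 ≤ 24 * ((x : ℤ) + 1) + 12 * (y + 1) + 12 * z + 12 * w)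
    (h1 : b - 60 ≤ 12 * ((x : ℤ) + 1) + 24 * (y + 1) + 12 * z + 12 * w)
    (h2 : b - 60 ≤ 15 * ((x : ℤ) + 1) + 15 * (y + 1) + 20 * z + 10 * w)
    (h3 : b - 60 ≤ 15 * ((x : ℤ) + 1) + 15 * (y + 1) + 10 * z + 20 * w) :
    rzVan b x y z (w + 3) ↔ rzVan b (x + 1) (y + 1) z w :=
  rz_iff (by norm_num) (intD (b := b) (x := x + 1) (y := y + 1) (z := z) (w := w)
    (by push_cast; omega) (by push_cast; omega) (by push_cast; omega) (by push_cast; omega))

private theorem sA (h0 : b - 60 ≤ 24 * (x : ℤ) + 12 * y + 12 * z + 12 * w)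
    (h1 : b - 60 < 12 * (x : ℤ) + 24 * y + 12 * z + 12 * w)
    (h2 : b - 60 < 15 * (x : ℤ) + 15 * y + 20 * z + 10 * w)
    (h3 : b - 60 < 15 * (x : ℤ) + 15 * y + 10 * z + 20 * w) : rzVan b x y z w :=
  sub_mem_aux' (c := 1 / 4) (by norm_num) (intA h0 h1.le h2.le h3.le)
    (mon_mem_Q_of_lt (by push_cast; omega) (by push_cast; omega) (by push_cast; omega)
      (by push_cast; omega))

private theorem sB (h0 : b - 60 < 24 * (x : ℤ) + 12 * y + 12 * z + 12 * w)
    (h1 : b - 60 ≤ 12 * (x : ℤ) + 24 * y + 12 * z + 12 * w)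
    (h2 : b - 60 < 15 * (x : ℤ) + 15 * y + 20 * z + 10 * w)
    (h3 : b - 60 < 15 * (x : ℤ) + 15 * y + 10 * z + 20 * w) : rzVan b x y z w :=
  sub_mem_aux' (c := 1 / 4) (by norm_num) (intB h0.le h1 h2.le h3.le)
    (mon_mem_Q_of_lt (by push_cast; omega) (by push_cast; omega) (by push_cast; omega)
      (by push_cast; omega))

private theorem sC (h0 : b - 60 < 24 * (x : ℤ) + 12 * y + 12 * z + 12 * w)
    (h1 : b - 60 < 12 * (x : ℤ) + 24 * y + 12 * z + 12 * w)
    (h2 : b - 60 ≤ 15 * (x : ℤ) + 15 * y + 20 * z + 10 * w)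
    (h3 : b - 60 < 15 * (x : ℤ) + 15 * y + 10 * z + 20 * w) : rzVan b x y z w :=
  sub_mem_aux' (c := 1 / 5) (by norm_num) (intC h0.le h1.le h2 h3.le)
    (mon_mem_Q_of_lt (by push_cast; omega) (by push_cast; omega) (by push_cast; omega)
      (by push_cast; omega))

private theorem sD (h0 : b - 60 < 24 * (x : ℤ) + 12 * y + 12 * z + 12 * w)
    (h1 : b - 60 < 12 * (x : ℤ) + 24 * y + 12 * z + 12 * w)
    (h2 : b - 60 < 15 * (x : ℤ) + 15 * y + 20 * z + 10 * w)
    (h3 : b - 60 ≤ 15 * (x : ℤ) + 15 * y + 10 * z + 20 * w) : rzVan b x y z w :=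
  sub_mem_aux' (c := 1 / 5) (by norm_num) (intD h0.le h1.le h2.le h3)
    (mon_mem_Q_of_lt (by push_cast; omega) (by push_cast; omega) (by push_cast; omega)
      (by push_cast; omega))

private theorem rz1111 : rzVan 120 1 1 1 1 :=
  term_mem (x := 2) (y := 2) (z := 2) (w := 2) (by decide) (by norm_num) (by norm_num)
    (by norm_num) (by norm_num) (by decide)

private theorem rz3100 : rzVan 120 3 1 0 0 :=
  (rzA (x := 1) (y := 1) (z := 0) (w := 0) (by norm_num) (by norm_num) (by norm_num)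
    (by norm_num)).2 rz1111

private theorem rz1300 : rzVan 120 1 3 0 0 :=
  (rzB (x := 1) (y := 1) (z := 0) (w := 0) (by norm_num) (by norm_num) (by norm_num)
    (by norm_num)).2 rz1111

private theorem rzp01 (h0 : b - 60 ≤ 24 * (x : ℤ) + 12 * y + 12 * z + 12 * w)
    (h1 : b - 60 ≤ 12 * (x : ℤ) + 24 * y + 12 * z + 12 * w)
    (h2 : b - 60 < 15 * (x : ℤ) + 15 * y + 20 * z + 10 * w)
    (h3 : b - 60 < 15 * (x : ℤ) + 15 * y + 10 * z + 20 * w) : rzVan b x y z w := by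
  by_cases e1 : b - 60 < 24 * (x : ℤ) + 12 * y + 12 * z + 12 * w
  · exact sB (by omega) (by omega) (by omega) (by omega)
  by_cases e2 : b - 60 < 12 * (x : ℤ) + 24 * y + 12 * z + 12 * w
  · exact sA (by omega) (by omega) (by omega) (by omega)
  obtain ⟨z', rfl⟩ : ∃ z', z = z' + 1 := ⟨z - 1, by omega⟩
  obtain ⟨w', rfl⟩ : ∃ w', w = w' + 1 := ⟨w - 1, by omega⟩
  push_cast at h0 h1 h2 h3 e1 e2
  exact (rzA (by omega) (by omega) (by omega) (by omega)).1
    (sB (by push_cast; omega) (by push_cast; omega) (by push_cast; omega) (by push_cast; omega))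

private theorem rzp23 (h0 : b - 60 < 24 * (x : ℤ) + 12 * y + 12 * z + 12 * w)
    (h1 : b - 60 < 12 * (x : ℤ) + 24 * y + 12 * z + 12 * w)
    (h2 : b - 60 ≤ 15 * (x : ℤ) + 15 * y + 20 * z + 10 * w)
    (h3 : b - 60 ≤ 15 * (x : ℤ) + 15 * y + 10 * z + 20 * w) : rzVan b x y z w := by
  by_cases e1 : b - 60 < 15 * (x : ℤ) + 15 * y + 20 * z + 10 * w
  · exact sD (by omega) (by omega) (by omega) (by omega)
  by_cases e2 : b - 60 < 15 * (x : ℤ) + 15 * y + 10 * z + 20 * w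
  · exact sC (by omega) (by omega) (by omega) (by omega)
  obtain ⟨x', rfl⟩ : ∃ x', x = x' + 1 := ⟨x - 1, by omega⟩
  obtain ⟨y', rfl⟩ : ∃ y', y = y' + 1 := ⟨y - 1, by omega⟩
  push_cast at h0 h1 h2 h3 e1 e2
  exact (rzC (by omega) (by omega) (by omega) (by omega)).1
    (sD (by push_cast; omega) (by push_cast; omega) (by push_cast; omega) (by push_cast; omega))

private theorem rzp02 (h0 : b - 60 ≤ 24 * (x : ℤ) + 12 * y + 12 * z + 12 * w)
    (h1 : b - 60 < 12 * (x : ℤ) + 24 * y + 12 * z + 12 * w)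
    (h2 : b - 60 ≤ 15 * (x : ℤ) + 15 * y + 20 * z + 10 * w)
    (h3 : b - 60 < 15 * (x : ℤ) + 15 * y + 10 * z + 20 * w) : rzVan b x y z w := by
  by_cases e1 : b - 60 < 24 * (x : ℤ) + 12 * y + 12 * z + 12 * w
  · exact sC (by omega) (by omega) (by omega) (by omega)
  by_cases e2 : b - 60 < 15 * (x : ℤ) + 15 * y + 20 * z + 10 * w
  · exact sA (by omega) (by omega) (by omega) (by omega)
  by_cases e3 : 1 ≤ z
  · obtain ⟨z', rfl⟩ : ∃ z', z = z' + 1 := ⟨z - 1, by omega⟩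
    obtain ⟨w', rfl⟩ : ∃ w', w = w' + 1 := ⟨w - 1, by omega⟩
    push_cast at h0 h1 h2 h3 e1 e2
    exact (rzA (by omega) (by omega) (by omega) (by omega)).1
      (sC (by push_cast; omega) (by push_cast; omega) (by push_cast; omega) (by push_cast; omega))
  by_cases e4 : 1 ≤ x
  · obtain ⟨x', rfl⟩ : ∃ x', x = x' + 1 := ⟨x - 1, by omega⟩
    obtain ⟨y', rfl⟩ : ∃ y', y = y' + 1 := ⟨y - 1, by omega⟩
    push_cast at h0 h1 h2 h3 e1 e2
    exact (rzC (by omega) (by omega) (by omega) (by omega)).1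
      (sA (by push_cast; omega) (by push_cast; omega) (by push_cast; omega) (by push_cast; omega))
  obtain rfl : z = 0 := by omega
  obtain rfl : x = 0 := by omega
  obtain ⟨v, rfl⟩ : ∃ v, w = v + 3 := ⟨w - 3, by omega⟩
  push_cast at h0 h1 h2 h3 e1 e2
  refine (rzD (x := 0) (y := y) (z := 0) (w := v) (by push_cast; omega) (by push_cast; omega)
    (by push_cast; omega) (by push_cast; omega)).2 ?_
  by_cases e5 : 3 ≤ y
  · exact (rzC (x := 0) (y := y) (z := 0) (w := v) (by push_cast; omega) (by push_cast; omega)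
      (by push_cast; omega) (by push_cast; omega)).1
      (sA (by push_cast; omega) (by push_cast; omega) (by push_cast; omega) (by push_cast; omega))
  · obtain rfl : y = 2 := by omega
    obtain rfl : v = 0 := by omega
    obtain rfl : b = 120 := by omega
    exact rz1300

private theorem rzp03 (h0 : b - 60 ≤ 24 * (x : ℤ) + 12 * y + 12 * z + 12 * w)
    (h1 : b - 60 < 12 * (x : ℤ) + 24 * y + 12 * z + 12 * w)
    (h2 : b - 60 < 15 * (x : ℤ) + 15 * y + 20 * z + 10 * w)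
    (h3 : b - 60 ≤ 15 * (x : ℤ) + 15 * y + 10 * z + 20 * w) : rzVan b x y z w := by
  by_cases e1 : b - 60 < 24 * (x : ℤ) + 12 * y + 12 * z + 12 * w
  · exact sD (by omega) (by omega) (by omega) (by omega)
  by_cases e2 : b - 60 < 15 * (x : ℤ) + 15 * y + 10 * z + 20 * w
  · exact sA (by omega) (by omega) (by omega) (by omega)
  by_cases e3 : 1 ≤ w
  · obtain ⟨z', rfl⟩ : ∃ z', z = z' + 1 := ⟨z - 1, by omega⟩
    obtain ⟨w', rfl⟩ : ∃ w', w = w' + 1 := ⟨w - 1, by omega⟩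
    push_cast at h0 h1 h2 h3 e1 e2
    exact (rzA (by omega) (by omega) (by omega) (by omega)).1
      (sD (by push_cast; omega) (by push_cast; omega) (by push_cast; omega) (by push_cast; omega))
  by_cases e4 : 1 ≤ x
  · obtain ⟨x', rfl⟩ : ∃ x', x = x' + 1 := ⟨x - 1, by omega⟩
    obtain ⟨y', rfl⟩ : ∃ y', y = y' + 1 := ⟨y - 1, by omega⟩
    push_cast at h0 h1 h2 h3 e1 e2
    exact (rzD (by omega) (by omega) (by omega) (by omega)).1
      (sA (by push_cast; omega) (by push_cast; omega) (by push_cast; omega) (by push_cast; omega))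
  obtain rfl : w = 0 := by omega
  obtain rfl : x = 0 := by omega
  obtain ⟨v, rfl⟩ : ∃ v, z = v + 3 := ⟨z - 3, by omega⟩
  push_cast at h0 h1 h2 h3 e1 e2
  refine (rzC (x := 0) (y := y) (z := v) (w := 0) (by push_cast; omega) (by push_cast; omega)
    (by push_cast; omega) (by push_cast; omega)).2 ?_
  by_cases e5 : 3 ≤ y
  · exact (rzD (x := 0) (y := y) (z := v) (w := 0) (by push_cast; omega) (by push_cast; omega)
      (by push_cast; omega) (by push_cast; omega)).1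
      (sA (by push_cast; omega) (by push_cast; omega) (by push_cast; omega) (by push_cast; omega))
  · obtain rfl : y = 2 := by omega
    obtain rfl : v = 0 := by omega
    obtain rfl : b = 120 := by omega
    exact rz1300

private theorem rzp12 (h0 : b - 60 < 24 * (x : ℤ) + 12 * y + 12 * z + 12 * w)
    (h1 : b - 60 ≤ 12 * (x : ℤ) + 24 * y + 12 * z + 12 * w)
    (h2 : b - 60 ≤ 15 * (x : ℤ) + 15 * y + 20 * z + 10 * w)
    (h3 : b - 60 < 15 * (x : ℤ) + 15 * y + 10 * z + 20 * w) : rzVan b x y z w := by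
  by_cases e1 : b - 60 < 12 * (x : ℤ) + 24 * y + 12 * z + 12 * w
  · exact sC (by omega) (by omega) (by omega) (by omega)
  by_cases e2 : b - 60 < 15 * (x : ℤ) + 15 * y + 20 * z + 10 * w
  · exact sB (by omega) (by omega) (by omega) (by omega)
  by_cases e3 : 1 ≤ z
  · obtain ⟨z', rfl⟩ : ∃ z', z = z' + 1 := ⟨z - 1, by omega⟩
    obtain ⟨w', rfl⟩ : ∃ w', w = w' + 1 := ⟨w - 1, by omega⟩
    push_cast at h0 h1 h2 h3 e1 e2
    exact (rzB (by omega) (by omega) (by omega) (by omega)).1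
      (sC (by push_cast; omega) (by push_cast; omega) (by push_cast; omega) (by push_cast; omega))
  by_cases e4 : 1 ≤ y
  · obtain ⟨x', rfl⟩ : ∃ x', x = x' + 1 := ⟨x - 1, by omega⟩
    obtain ⟨y', rfl⟩ : ∃ y', y = y' + 1 := ⟨y - 1, by omega⟩
    push_cast at h0 h1 h2 h3 e1 e2
    exact (rzC (by omega) (by omega) (by omega) (by omega)).1
      (sB (by push_cast; omega) (by push_cast; omega) (by push_cast; omega) (by push_cast; omega))
  obtain rfl : z = 0 := by omega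
  obtain rfl : y = 0 := by omega
  obtain ⟨v, rfl⟩ : ∃ v, w = v + 3 := ⟨w - 3, by omega⟩
  push_cast at h0 h1 h2 h3 e1 e2
  refine (rzD (x := x) (y := 0) (z := 0) (w := v) (by push_cast; omega) (by push_cast; omega)
    (by push_cast; omega) (by push_cast; omega)).2 ?_
  by_cases e5 : 3 ≤ x
  · exact (rzC (x := x) (y := 0) (z := 0) (w := v) (by push_cast; omega) (by push_cast; omega)
      (by push_cast; omega) (by push_cast; omega)).1
      (sB (by push_cast; omega) (by push_cast; omega) (by push_cast; omega) (by push_cast; omega))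
  · obtain rfl : x = 2 := by omega
    obtain rfl : v = 0 := by omega
    obtain rfl : b = 120 := by omega
    exact rz3100

private theorem rzp13 (h0 : b - 60 < 24 * (x : ℤ) + 12 * y + 12 * z + 12 * w)
    (h1 : b - 60 ≤ 12 * (x : ℤ) + 24 * y + 12 * z + 12 * w)
    (h2 : b - 60 < 15 * (x : ℤ) + 15 * y + 20 * z + 10 * w)
    (h3 : b - 60 ≤ 15 * (x : ℤ) + 15 * y + 10 * z + 20 * w) : rzVan b x y z w := by
  by_cases e1 : b - 60 < 12 * (x : ℤ) + 24 * y + 12 * z + 12 * w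
  · exact sD (by omega) (by omega) (by omega) (by omega)
  by_cases e2 : b - 60 < 15 * (x : ℤ) + 15 * y + 10 * z + 20 * w
  · exact sB (by omega) (by omega) (by omega) (by omega)
  by_cases e3 : 1 ≤ w
  · obtain ⟨z', rfl⟩ : ∃ z', z = z' + 1 := ⟨z - 1, by omega⟩
    obtain ⟨w', rfl⟩ : ∃ w', w = w' + 1 := ⟨w - 1, by omega⟩
    push_cast at h0 h1 h2 h3 e1 e2
    exact (rzB (by omega) (by omega) (by omega) (by omega)).1
      (sD (by push_cast; omega) (by push_cast; omega) (by push_cast; omega) (by push_cast; omega))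
  by_cases e4 : 1 ≤ y
  · obtain ⟨x', rfl⟩ : ∃ x', x = x' + 1 := ⟨x - 1, by omega⟩
    obtain ⟨y', rfl⟩ : ∃ y', y = y' + 1 := ⟨y - 1, by omega⟩
    push_cast at h0 h1 h2 h3 e1 e2
    exact (rzD (by omega) (by omega) (by omega) (by omega)).1
      (sB (by push_cast; omega) (by push_cast; omega) (by push_cast; omega) (by push_cast; omega))
  obtain rfl : w = 0 := by omega
  obtain rfl : y = 0 := by omega
  obtain ⟨v, rfl⟩ : ∃ v, z = v + 3 := ⟨z - 3, by omega⟩
  push_cast at h0 h1 h2 h3 e1 e2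
  refine (rzC (x := x) (y := 0) (z := v) (w := 0) (by push_cast; omega) (by push_cast; omega)
    (by push_cast; omega) (by push_cast; omega)).2 ?_
  by_cases e5 : 3 ≤ x
  · exact (rzD (x := x) (y := 0) (z := v) (w := 0) (by push_cast; omega) (by push_cast; omega)
      (by push_cast; omega) (by push_cast; omega)).1
      (sB (by push_cast; omega) (by push_cast; omega) (by push_cast; omega) (by push_cast; omega))
  · obtain rfl : x = 2 := by omega
    obtain rfl : v = 0 := by omega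
    obtain rfl : b = 120 := by omega
    exact rz3100

private theorem rzt0 (h0 : b - 60 < 24 * (x : ℤ) + 12 * y + 12 * z + 12 * w)
    (h1 : b - 60 ≤ 12 * (x : ℤ) + 24 * y + 12 * z + 12 * w)
    (h2 : b - 60 ≤ 15 * (x : ℤ) + 15 * y + 20 * z + 10 * w)
    (h3 : b - 60 ≤ 15 * (x : ℤ) + 15 * y + 10 * z + 20 * w) : rzVan b x y z w := by
  by_cases e1 : b - 60 < 12 * (x : ℤ) + 24 * y + 12 * z + 12 * w
  · exact rzp23 (by omega) (by omega) (by omega) (by omega)
  by_cases e2 : b - 60 < 15 * (x : ℤ) + 15 * y + 20 * z + 10 * w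
  · exact rzp13 (by omega) (by omega) (by omega) (by omega)
  by_cases e3 : b - 60 < 15 * (x : ℤ) + 15 * y + 10 * z + 20 * w
  · exact rzp12 (by omega) (by omega) (by omega) (by omega)
  obtain ⟨x', rfl⟩ : ∃ x', x = x' + 1 := ⟨x - 1, by omega⟩
  obtain ⟨y', rfl⟩ : ∃ y', y = y' + 1 := ⟨y - 1, by omega⟩
  push_cast at h0 h1 h2 h3 e1 e2 e3
  exact (rzC (by omega) (by omega) (by omega) (by omega)).1
    (rzp13 (by push_cast; omega) (by push_cast; omega) (by push_cast; omega) (by push_cast; omega))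

private theorem rzt1 (h0 : b - 60 ≤ 24 * (x : ℤ) + 12 * y + 12 * z + 12 * w)
    (h1 : b - 60 < 12 * (x : ℤ) + 24 * y + 12 * z + 12 * w)
    (h2 : b - 60 ≤ 15 * (x : ℤ) + 15 * y + 20 * z + 10 * w)
    (h3 : b - 60 ≤ 15 * (x : ℤ) + 15 * y + 10 * z + 20 * w) : rzVan b x y z w := by
  by_cases e1 : b - 60 < 24 * (x : ℤ) + 12 * y + 12 * z + 12 * w
  · exact rzp23 (by omega) (by omega) (by omega) (by omega)
  by_cases e2 : b - 60 < 15 * (x : ℤ) + 15 * y + 20 * z + 10 * w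
  · exact rzp03 (by omega) (by omega) (by omega) (by omega)
  by_cases e3 : b - 60 < 15 * (x : ℤ) + 15 * y + 10 * z + 20 * w
  · exact rzp02 (by omega) (by omega) (by omega) (by omega)
  obtain ⟨x', rfl⟩ : ∃ x', x = x' + 1 := ⟨x - 1, by omega⟩
  obtain ⟨y', rfl⟩ : ∃ y', y = y' + 1 := ⟨y - 1, by omega⟩
  push_cast at h0 h1 h2 h3 e1 e2 e3
  exact (rzC (by omega) (by omega) (by omega) (by omega)).1
    (rzp03 (by push_cast; omega) (by push_cast; omega) (by push_cast; omega) (by push_cast; omega))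

private theorem rzt2 (h0 : b - 60 ≤ 24 * (x : ℤ) + 12 * y + 12 * z + 12 * w)
    (h1 : b - 60 ≤ 12 * (x : ℤ) + 24 * y + 12 * z + 12 * w)
    (h2 : b - 60 < 15 * (x : ℤ) + 15 * y + 20 * z + 10 * w)
    (h3 : b - 60 ≤ 15 * (x : ℤ) + 15 * y + 10 * z + 20 * w) : rzVan b x y z w := by
  by_cases e1 : b - 60 < 24 * (x : ℤ) + 12 * y + 12 * z + 12 * w
  · exact rzp13 (by omega) (by omega) (by omega) (by omega)
  by_cases e2 : b - 60 < 12 * (x : ℤ) + 24 * y + 12 * z + 12 * w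
  · exact rzp03 (by omega) (by omega) (by omega) (by omega)
  by_cases e3 : b - 60 < 15 * (x : ℤ) + 15 * y + 10 * z + 20 * w
  · exact rzp01 (by omega) (by omega) (by omega) (by omega)
  obtain ⟨z', rfl⟩ : ∃ z', z = z' + 1 := ⟨z - 1, by omega⟩
  obtain ⟨w', rfl⟩ : ∃ w', w = w' + 1 := ⟨w - 1, by omega⟩
  push_cast at h0 h1 h2 h3 e1 e2 e3
  exact (rzA (by omega) (by omega) (by omega) (by omega)).1
    (rzp13 (by push_cast; omega) (by push_cast; omega) (by push_cast; omega) (by push_cast; omega))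

private theorem rzt3 (h0 : b - 60 ≤ 24 * (x : ℤ) + 12 * y + 12 * z + 12 * w)
    (h1 : b - 60 ≤ 12 * (x : ℤ) + 24 * y + 12 * z + 12 * w)
    (h2 : b - 60 ≤ 15 * (x : ℤ) + 15 * y + 20 * z + 10 * w)
    (h3 : b - 60 < 15 * (x : ℤ) + 15 * y + 10 * z + 20 * w) : rzVan b x y z w := by
  by_cases e1 : b - 60 < 24 * (x : ℤ) + 12 * y + 12 * z + 12 * w
  · exact rzp12 (by omega) (by omega) (by omega) (by omega)
  by_cases e2 : b - 60 < 12 * (x : ℤ) + 24 * y + 12 * z + 12 * w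
  · exact rzp02 (by omega) (by omega) (by omega) (by omega)
  by_cases e3 : b - 60 < 15 * (x : ℤ) + 15 * y + 20 * z + 10 * w
  · exact rzp01 (by omega) (by omega) (by omega) (by omega)
  obtain ⟨z', rfl⟩ : ∃ z', z = z' + 1 := ⟨z - 1, by omega⟩
  obtain ⟨w', rfl⟩ : ∃ w', w = w' + 1 := ⟨w - 1, by omega⟩
  push_cast at h0 h1 h2 h3 e1 e2 e3
  exact (rzA (by omega) (by omega) (by omega) (by omega)).1
    (rzp12 (by push_cast; omega) (by push_cast; omega) (by push_cast; omega) (by push_cast; omega))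

end

theorem rzero {b : ℤ} {x y z w : ℕ}
    (h0 : b - 60 ≤ 24 * (x : ℤ) + 12 * y + 12 * z + 12 * w)
    (h1 : b - 60 ≤ 12 * (x : ℤ) + 24 * y + 12 * z + 12 * w)
    (h2 : b - 60 ≤ 15 * (x : ℤ) + 15 * y + 20 * z + 10 * w)
    (h3 : b - 60 ≤ 15 * (x : ℤ) + 15 * y + 10 * z + 20 * w) :
    mon (x + 1) (y + 1) (z + 1) (w + 1) ∈ Q b := by
  by_cases e0 : b - 60 < 24 * (x : ℤ) + 12 * y + 12 * z + 12 * w
  · exact rzt0 (by omega) (by omega) (by omega) (by omega)
  by_cases e1 : b - 60 < 12 * (x : ℤ) + 24 * y + 12 * z + 12 * w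
  · exact rzt1 (by omega) (by omega) (by omega) (by omega)
  by_cases e2 : b - 60 < 15 * (x : ℤ) + 15 * y + 20 * z + 10 * w
  · exact rzt2 (by omega) (by omega) (by omega) (by omega)
  by_cases e3 : b - 60 < 15 * (x : ℤ) + 15 * y + 10 * z + 20 * w
  · exact rzt3 (by omega) (by omega) (by omega) (by omega)
  obtain rfl : x = w := by omega
  obtain rfl : y = x := by omega
  obtain rfl : z = y := by omega
  rcases Nat.eq_zero_or_pos z with hz | hz
  · subst hz
    obtain rfl : b = 60 := by omega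
    exact term_mem (x := 1) (y := 1) (z := 1) (w := 1) (by decide) (by norm_num) (by norm_num)
      (by norm_num) (by norm_num) (by decide)
  · obtain ⟨m, rfl⟩ : ∃ m, z = m + 1 := ⟨z - 1, by omega⟩
    push_cast at h0 h1 h2 h3 e0 e1 e2 e3
    exact (rzA (x := m + 1) (y := m + 1) (z := m) (w := m) (by push_cast; omega) (by push_cast; omega)
      (by push_cast; omega) (by push_cast; omega)).1
      (rzt0 (by push_cast; omega) (by push_cast; omega) (by push_cast; omega) (by push_cast; omega))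

end HV
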