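import Pool.Agent.Work.MP_e9f12e_ag.NDefs

/-!
# VBasic: the elementary properties of the filtration `Vf`
-/

namespace HV

theorem Vf_anti (α β : ℚ) (h : α ≤ β) : Vf β ≤ Vf α :=
  Nlev_anti (Int.ceil_le_ceil (by linarith))

theorem Vf_discrete : ∃ N : ℕ, 0 < N ∧ ∀ α, Vf α = Vf ((⌈(N : ℚ) * α⌉ : ℚ) / N) := by
  refine ⟨60, by norm_num, fun α => ?_⟩
  rw [Vf, Vf]
  congr 1
  have h : (60 : ℚ) * ((⌈((60 : ℕ) : ℚ) * α⌉ : ℚ) / ((60 : ℕ) : ℚ)) =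
      ((⌈(60 : ℚ) * α⌉ : ℤ) : ℚ) := by
    push_cast
    field_simp
  rw [h, Int.ceil_intCast]

theorem Vf_shift (α : ℚ) : (Vf α).map (dtInv f0) = Vf (α + 1) := by
  rw [Vf, Vf, dtInv, dtPow_map_Nlev]
  congr 1
  rw [show (60 : ℚ) * (α + 1) = 60 * α + ((60 : ℤ) : ℚ) by push_cast; ring, Int.ceil_add_intCast]
  ring

theorem Vf_stable (α : ℚ) : (Vf α).map (tMul f0) ≤ Vf (α + 1) := by
  rintro _ ⟨x, hx, rfl⟩
  have h := tMul_mem_Nlev hx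
  rw [Vf, show (60 : ℚ) * (α + 1) = 60 * α + ((60 : ℤ) : ℚ) by push_cast; ring, Int.ceil_add_intCast]
  exact h

theorem VGT_Vf (α : ℚ) : VGT Vf α = Nlev (⌊60 * α⌋ + 1) := by
  apply le_antisymm
  · refine iSup_le fun β => Nlev_anti ?_
    have h : (60 : ℚ) * α < 60 * β.1 := by
      have := β.2
      linarith
    have h2 : (⌊60 * α⌋ : ℤ) < ⌈60 * β.1⌉ := by
      have h3 : ((⌊60 * α⌋ : ℤ) : ℚ) < ((⌈60 * β.1⌉ : ℤ) : ℚ) :=
        lt_of_le_of_lt (Int.floor_le _) (lt_of_lt_of_le h (Int.le_ceil _))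
      exact_mod_cast h3
    omega
  · have h : α < (((⌊60 * α⌋ + 1 : ℤ) : ℚ)) / 60 := by
      have := Int.lt_floor_add_one (60 * α)
      push_cast
      rw [lt_div_iff₀ (by norm_num)]
      linarith
    have h2 : Nlev (⌊60 * α⌋ + 1) = Vf ((((⌊60 * α⌋ + 1 : ℤ) : ℚ)) / 60) := by
      rw [Vf, mul_div_cancel₀ _ (by norm_num), Int.ceil_intCast]
    rw [h2]
    exact le_iSup (fun β : {β : ℚ // α < β} => Vf β.1) ⟨_, h⟩

end HV
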