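import Pool.Agent.Work.MP_e9f12e_ag.RStar
import Pool.Agent.Work.MP_e9f12e_ag.GMRb

/-!
# VComm: `Vf` is commensurable with the Brieskorn lattice

PROOF. `H'' = range (cls f0 0)`. Put `b = ⌈60 α⌉`.
* `dtPow k (cls 0 g) = cls k g ∈ Nlev b` as soon as `b - 60 - 60 k ≤ 0` (`mem_Icl_of_nonpos`).
* Claim: for every `j : ℕ`, `k : ℤ`, `c` with `120 < c`... precisely `clsdown`: for
  `g ∈ Icl c` with `c ≥ 121 + 60 (j - 1)` (or `j = 0`): `cls f0 k g = cls f0 (k + j) h` for some `h`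
  in `Icl (c - 60 j)`: induction on `j` with `Icl_le_Rb` and `cls_Rb`.
  Now let `k₀ : ℕ` be with `b - 60 + 60 k₀ ≤ ...` large: for a generator `cls f0 k g` of `Nlev b`,
  `g ∈ Icl (b - 60 - 60 k)`; if `k ≥ -k₀` then `dtPow k₀ (cls k g) = cls (k + k₀) g ∈ H''`
  (`cls (j : ℕ) g ∈ H''`, see below); if `k < -k₀` use `clsdown` with `j = -k₀ - k`: needed
  `b - 60 - 60 k - 60 (j - 1) ≥ 121`, i.e. `b + 60 k₀ ≥ 121`. So any `k₀` with `b + 60 k₀ ≥ 121`.
* `cls f0 (j : ℕ) g ∈ H''`: every germ is `pd 0 g'` of a germ `g'` (antiderivative of the power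
  series with respect to `X_0`; it is convergent, with the same bound), so
  `cls f0 1 g = cls f0 0 (pd 0 f0 * g')`; iterate.
-/

namespace HV

open MvPowerSeries

/-- Every germ has an antiderivative. -/
theorem exists_antideriv {n : ℕ} (i : Fin n) (g : Germ n) : ∃ h, pd i h = g := by
  classical
  obtain ⟨C, r, hr, hC⟩ := g.conv
  have hC0 : 0 ≤ C := le_trans (by positivity) (hC 0)
  let hs : MvPowerSeries (Fin n) ℂ :=
    fun m => if m i = 0 then 0 else coeff (m - Finsupp.single i 1) g.ser / (m i : ℂ)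
  have hhs : ∀ m, coeff m hs =
      if m i = 0 then 0 else coeff (m - Finsupp.single i 1) g.ser / (m i : ℂ) := fun m => rfl
  have hsum : ∀ m : Fin n →₀ ℕ,
      ∑ j, (m + Finsupp.single i 1 : Fin n →₀ ℕ) j = ∑ j, m j + 1 := by
    intro m
    rw [sum_add']
    congr 1
    simp [Finsupp.single_apply]
  have hconv : IsConvergent hs := by
    refine ⟨C * r, r, hr, fun m => ?_⟩
    rw [hhs]
    split_ifs with h0
    · rw [norm_zero, zero_mul]
      positivity
    · have h1 : m = (m - Finsupp.single i 1) + Finsupp.single i 1 := by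
        refine (tsub_add_cancel_of_le ?_).symm
        intro j
        rw [Finsupp.single_apply]
        split_ifs with hij
        · subst hij
          omega
        · exact Nat.zero_le _
      have h2 := hsum (m - Finsupp.single i 1)
      rw [← h1] at h2
      rw [h2, pow_succ, ← mul_assoc]
      refine mul_le_mul_of_nonneg_right ?_ hr.le
      refine le_trans ?_ (hC (m - Finsupp.single i 1))
      refine mul_le_mul_of_nonneg_right ?_ (by positivity)
      rw [norm_div]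
      refine div_le_self (norm_nonneg _) ?_
      rw [Complex.norm_natCast]
      exact_mod_cast Nat.one_le_iff_ne_zero.2 h0
  refine ⟨Germ.mk hs hconv, ?_⟩
  apply germ_ext_co
  intro m
  rw [co_def, ser_pd, coeff_pderiv, Germ.ser_mk, hhs]
  have h3 : (m + Finsupp.single i 1 : Fin n →₀ ℕ) i = m i + 1 := by simp
  rw [h3, if_neg (Nat.succ_ne_zero _), add_tsub_cancel_right]
  have h4 : ((m i : ℂ) + 1) ≠ 0 := by exact_mod_cast Nat.succ_ne_zero (m i)
  push_cast
  rw [div_mul_cancel₀ _ h4]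
  rfl

/-- `∂_t⁻¹ H''_0 ⊆ H''_0`. -/
theorem dtInv_brieskorn_le {n : ℕ} (f : Germ (n + 1)) :
    (brieskorn f).map (dtInv f) ≤ brieskorn f := by
  rintro _ ⟨x, hx, rfl⟩
  obtain ⟨g, rfl⟩ := (mem_brieskorn f).1 hx
  obtain ⟨h, hh⟩ := exists_antideriv (0 : Fin (n + 1)) g
  rw [dtInv_cls, zero_add]
  exact (mem_brieskorn f).2 ⟨pd 0 f * h, (cls_one_mem f 0 h g hh).symm⟩

theorem cls_nat_mem_brieskorn {n : ℕ} (f : Germ (n + 1)) (j : ℕ) (g : Germ (n + 1)) :
    cls f j g ∈ brieskorn f := by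
  induction j with
  | zero => exact (mem_brieskorn f).2 ⟨g, rfl⟩
  | succ j ih =>
    have h := dtInv_brieskorn_le f (Submodule.mem_map_of_mem ih)
    rw [dtInv_cls] at h
    push_cast
    exact h

private theorem clsdown (j : ℕ) (k c : ℤ) (g : Germ 4) (hg : g ∈ Icl c)
    (hc : j = 0 ∨ 121 + 60 * ((j : ℤ) - 1) ≤ c) :
    ∃ h ∈ Icl (c - 60 * j), cls f0 k g = cls f0 (k + j) h := by
  induction j generalizing k c g with
  | zero => exact ⟨g, by simpa using hg, by simp⟩
  | succ j ih =>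
    have h1 : 121 + 60 * (((j + 1 : ℕ) : ℤ) - 1) ≤ c := by
      rcases hc with h | h
      · omega
      · exact h
    push_cast at h1
    obtain ⟨h, hh, he⟩ := cls_Rb (k := k) (Icl_le_Rb (by omega) hg)
    obtain ⟨h', hh', he'⟩ := ih (k + 1) (c - 60) h hh (by
      rcases Nat.eq_zero_or_pos j with h2 | h2
      · exact Or.inl h2
      · right
        omega)
    refine ⟨h', ?_, ?_⟩
    · convert hh' using 2
      push_cast
      ring
    · rw [he, he']
      congr 2
      push_cast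
      ring

theorem Vf_comm (α : ℚ) : ∃ k : ℕ, (brieskorn f0).map (dtPow f0 k) ≤ Vf α ∧
    (Vf α).map (dtPow f0 k) ≤ brieskorn f0 := by
  obtain ⟨k0, hk0⟩ : ∃ k0 : ℕ, 121 + |⌈60 * α⌉| ≤ 60 * (k0 : ℤ) := by
    refine ⟨(121 + |⌈60 * α⌉|).toNat, ?_⟩
    have := abs_nonneg ⌈60 * α⌉
    omega
  set b := ⌈60 * α⌉ with hb
  have hb1 := le_abs_self b
  have hb2 := neg_abs_le b
  refine ⟨k0, ?_, ?_⟩
  · rintro _ ⟨x, hx, rfl⟩
    obtain ⟨g, rfl⟩ := (mem_brieskorn f0).1 hx
    rw [dtPow_cls]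
    exact cls_mem_Nlev (mem_Icl_of_nonpos (by omega) g)
  · refine map_Nlev _ fun k g hg => ?_
    rw [← hb] at hg
    rw [dtPow_cls]
    by_cases hk : 0 ≤ k + k0
    · obtain ⟨j, hj⟩ := Int.eq_ofNat_of_zero_le hk
      rw [hj]
      exact cls_nat_mem_brieskorn (n := 3) f0 j g
    · obtain ⟨j, hj⟩ := Int.eq_ofNat_of_zero_le (show 0 ≤ -(k + k0) by omega)
      obtain ⟨h, -, he⟩ := clsdown j (k + k0) _ g hg (Or.inr (by omega))
      rw [he, show k + k0 + (j : ℤ) = 0 by omega]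
      exact (mem_brieskorn f0).2 ⟨h, rfl⟩

end HV
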