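import Pool.Agent.Work.MP_e9f12e_ag.GMKey
import Pool.Agent.Work.MP_e9f12e_ag.VBasic
import Pool.Agent.Work.MP_e9f12e_ag.IclStep

/-!
# VNil: `∂_t t - α` is nilpotent on `Gr^α` of the filtration `Vf`

Let `T a = dt ∘ tMul - a • id`.
* `T_dtPow`: `dt (tMul (dtPow k x)) = dtPow k (dt (tMul x)) + k • dtPow k x` (`tMul_dtPow`,
  `dtPow_add`), so `T (b/60) (cls k (mono m)) = dtPow k (T ((60 + c)/60) (cls 0 (mono m)))`
  where `c = b - 60 - 60 k`, since `b / 60 - k = (60 + c) / 60`.
* By `key`, if `lin k' m = c`: `T (b/60) (cls k (mono m)) = - cst k' • cls (k - 1) (mono (m + vk k'))`,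
  and for `m' = m + vk k'`, `c' = b - 60 - 60 (k - 1) = c + 60`: `c' ≤ lin j m'` for all `j`, and
  `{j : lin j m' = c'} = {j : lin j m = c} \ {k'}` (`lin_vk_ne`, `lin_vk_self`).
* So by induction on `s`: if `c ≤ lin j m` for all `j` and `{j | lin j m = c}` has at most `s`
  elements, then `(T (b/60))^s (cls k (mono m)) ∈ Nlev (b + 1)`. (`s = 0`: `mono m ∈ Icl (c + 1)`.)
  For the step, if the set is empty, `cls k (mono m) ∈ Nlev (b+1)`, which is stable under `T`
  (`dt_tMul_mem_Nlev`); otherwise choose `k'` in it; `pow_succ`.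
* Hence `(T (b/60))^4` maps `Nlev b` to `Nlev (b + 1)`: by `Nlev_le` it is enough to look at `cls k g`,
  `g ∈ Icl c`, and by `Icl_step` at `g = mono m` with `ordF m = c`, or `g ∈ Icl (c + 1)`.
* `Vf_nil`: if `60 α` is not an integer then `⌈60 α⌉ = ⌊60 α⌋ + 1` and `VGT_Vf` gives
  `VGT Vf α = Vf α`, take the power `0`. If `60 α = b` is an integer take the power `4`.
-/

namespace HV

private theorem VNil_dtPow (k : ℤ) (x : GaussManin f0) :
    dt f0 (tMul f0 (dtPow f0 k x)) = dtPow f0 k (dt f0 (tMul f0 x)) + (k : ℂ) • dtPow f0 k x := by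
  rw [tMul_dtPow, map_add, map_smul, dt, dtPow_add, dtPow_add, dtPow_add,
    show -1 + (k + 1) = k by ring, add_comm (-1) k]

/-- `∂_t t - b / 60`. -/
private noncomputable def VNil_T (b : ℤ) : Module.End ℂ (GaussManin f0) :=
  dt f0 ∘ₗ tMul f0 - ((b : ℂ) / 60) • LinearMap.id

private theorem VNil_T_apply (b : ℤ) (x : GaussManin f0) :
    VNil_T b x = dt f0 (tMul f0 x) - ((b : ℂ) / 60) • x := rfl

private theorem VNil_T_mem (b c : ℤ) {x : GaussManin f0} (hx : x ∈ Nlev c) :
    VNil_T b x ∈ Nlev c := by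
  rw [VNil_T_apply]
  exact Submodule.sub_mem _ (dt_tMul_mem_Nlev hx) (Submodule.smul_mem _ _ hx)

private theorem VNil_T_pow_mem (b c : ℤ) (s : ℕ) {x : GaussManin f0} (hx : x ∈ Nlev c) :
    (VNil_T b ^ s) x ∈ Nlev c := by
  induction s with
  | zero => simpa using hx
  | succ s ih =>
    rw [pow_succ', Module.End.mul_apply]
    exact VNil_T_mem b c ih

private theorem VNil_step (b k : ℤ) (k' : Fin 4) (m : Fin 4 →₀ ℕ)
    (h : lin k' m = b - 60 - 60 * k) :
    VNil_T b (cls f0 k (mono m)) = -(cst k' • cls f0 (k - 1) (mono (m + vk k'))) := by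
  have h0 : cls f0 k (mono m) = dtPow f0 k (cls f0 0 (mono m)) := by
    rw [dtPow_cls, zero_add]
  have h1 := key k' m
  have h2 : dt f0 (tMul f0 (cls f0 0 (mono m))) = (((60 + lin k' m : ℤ) : ℂ) / 60) •
      cls f0 0 (mono m) + -(cst k' • cls f0 (-1) (mono (m + vk k'))) := by
    rw [← h1]; abel
  rw [VNil_T_apply, h0, VNil_dtPow, h2, map_add, map_smul, map_neg, map_smul, dtPow_cls, dtPow_cls,
    h, zero_add, show -1 + k = k - 1 by ring]
  push_cast
  module

private theorem VNil_main (b : ℤ) (s : ℕ) : ∀ (k : ℤ) (m : Fin 4 →₀ ℕ),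
    (∀ j, b - 60 - 60 * k ≤ lin j m) →
    (Finset.univ.filter fun j : Fin 4 => lin j m = b - 60 - 60 * k).card ≤ s →
    (VNil_T b ^ s) (cls f0 k (mono m)) ∈ Nlev (b + 1) := by
  have hempty : ∀ (k : ℤ) (m : Fin 4 →₀ ℕ), (∀ j, b - 60 - 60 * k ≤ lin j m) →
      (Finset.univ.filter fun j : Fin 4 => lin j m = b - 60 - 60 * k) = ∅ →
      cls f0 k (mono m) ∈ Nlev (b + 1) := by
    intro k m h1 h2
    apply cls_mem_Nlev
    apply mono_mem_Icl
    intro j
    have h3 : lin j m ≠ b - 60 - 60 * k := by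
      intro h4
      have : j ∈ (∅ : Finset (Fin 4)) := by
        rw [← h2, Finset.mem_filter]
        exact ⟨Finset.mem_univ _, h4⟩
      exact absurd this (Finset.notMem_empty _)
    have := h1 j
    omega
  induction s with
  | zero =>
    intro k m h1 h2
    rw [pow_zero]
    exact hempty k m h1 (Finset.card_eq_zero.1 (Nat.le_zero.1 h2))
  | succ s ih =>
    intro k m h1 h2
    rcases Finset.eq_empty_or_nonempty
      (Finset.univ.filter fun j : Fin 4 => lin j m = b - 60 - 60 * k) with h3 | ⟨k', hk'⟩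
    · exact VNil_T_pow_mem b _ _ (hempty k m h1 h3)
    · have hk := (Finset.mem_filter.1 hk').2
      rw [pow_succ, Module.End.mul_apply, VNil_step b k k' m hk, map_neg, map_smul]
      refine Submodule.neg_mem _ (Submodule.smul_mem _ _ (ih (k - 1) (m + vk k') ?_ ?_))
      · intro j
        rw [lin_add]
        by_cases hj : j = k'
        · subst hj
          have := lin_vk_self j
          have := h1 j
          linarith
        · rw [lin_vk_ne hj]
          have := h1 j
          linarith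
      · have hsub : (Finset.univ.filter fun j : Fin 4 =>
            lin j (m + vk k') = b - 60 - 60 * (k - 1)) ⊆
            (Finset.univ.filter fun j : Fin 4 => lin j m = b - 60 - 60 * k).erase k' := by
          intro j hj
          rw [Finset.mem_filter] at hj
          rw [Finset.mem_erase, Finset.mem_filter]
          have h5 := hj.2
          rw [lin_add] at h5
          by_cases hjk : j = k'
          · subst hjk
            have h6 := lin_vk_self j
            rw [hk] at h5
            omega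
          · rw [lin_vk_ne hjk] at h5
            exact ⟨hjk, Finset.mem_univ _, by linarith⟩
        have := Finset.card_le_card hsub
        rw [Finset.card_erase_of_mem hk'] at this
        omega

theorem T_pow_mem (b : ℤ) {x : GaussManin f0} (hx : x ∈ Nlev b) :
    ((dt f0 ∘ₗ tMul f0 - ((b : ℂ) / 60) • LinearMap.id : Module.End ℂ (GaussManin f0)) ^ 4) x ∈
      Nlev (b + 1) := by
  change (VNil_T b ^ 4) x ∈ Nlev (b + 1)
  have h : Nlev b ≤ (Nlev (b + 1)).comap (VNil_T b ^ 4) := by
    refine Nlev_le fun k g hg => ?_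
    have h1 := Icl_step _ hg
    have h2 : Submodule.span ℂ {g | ∃ m : Fin 4 →₀ ℕ, ordF m = b - 60 - 60 * k ∧ g = mono m} ⊔
        Icl (b - 60 - 60 * k + 1) ≤
        ((Nlev (b + 1)).comap (VNil_T b ^ 4)).comap (cls f0 k) := by
      refine sup_le (Submodule.span_le.2 ?_) ?_
      · rintro _ ⟨m, hm, rfl⟩
        refine VNil_main b 4 k m ((le_ordF_iff _ _).1 hm.ge) ?_
        exact (Finset.card_le_univ _).trans (by simp)
      · intro r hr
        refine VNil_T_pow_mem b _ _ (cls_mem_Nlev ?_)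
        convert hr using 2
        ring
    exact h2 h1
  exact h hx

theorem Vf_nil (α : ℚ) : ∃ k : ℕ, ∀ v ∈ Vf α,
    ((dt f0 ∘ₗ tMul f0 - (α : ℂ) • LinearMap.id : Module.End ℂ (GaussManin f0)) ^ k) v ∈
      VGT Vf α := by
  rw [VGT_Vf]
  by_cases h : ((⌊60 * α⌋ : ℤ) : ℚ) = 60 * α
  · refine ⟨4, fun v hv => ?_⟩
    have hα : (α : ℂ) = ((⌊60 * α⌋ : ℤ) : ℂ) / 60 := by
      have h1 : α = ((⌊60 * α⌋ : ℤ) : ℚ) / 60 := by rw [h]; ring
      conv_lhs => rw [h1]
      push_cast
      ring
    rw [hα]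
    apply T_pow_mem
    have h2 : ⌈60 * α⌉ = ⌊60 * α⌋ := by
      conv_lhs => rw [← h]
      exact Int.ceil_intCast _
    rwa [Vf, h2] at hv
  · refine ⟨0, fun v hv => ?_⟩
    rw [pow_zero, Module.End.one_apply]
    have h2 : ⌊60 * α⌋ + 1 = ⌈60 * α⌉ := by
      have h3 := Int.floor_le (60 * α)
      have h4 := Int.lt_floor_add_one (60 * α)
      symm
      rw [Int.ceil_eq_iff]
      push_cast
      refine ⟨?_, h4.le⟩
      rw [add_sub_cancel_right]
      exact lt_of_le_of_ne h3 h
    rw [h2]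
    exact hv

end HV
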