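import Pool.Agent.Work.MP_e9f12e_ag.VComm
import Pool.Agent.Work.MP_e9f12e_ag.JacLemma
import Pool.Agent.Work.MP_e9f12e_ag.BIndep
import Pool.Agent.Work.MP_e9f12e_ag.VBasic

/-!
# VStrict: the Newton filtration induced on the Brieskorn lattice

Let `θ = dtInv f0`, `H = brieskorn f0`, `S c = ⨆ j : ℕ, (Icl (c - 60 - 60 j)).map (cls f0 j)` (the part
of `Nlev c` with nonnegative powers).
PROOF.
* `jac_of_theta`: if `cls f0 0 g ∈ θ H` then `g ∈ J` (`mem_jac_of_cls`, `dtInv_cls`).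
* `S_inf`: `S c ⊓ θ H ≤ θ (S (c - 60))`: an element of `S c` is `cls 0 g + y`, `g ∈ Icl (c - 60)`,
  `y ∈ ⨆ j ≥ 1 = θ (S (c - 60))` (`cls f0 (j+1) g = θ (cls f0 j g)`). `θ (S (c-60)) ≤ θ H`
  (`cls_nat_mem_brieskorn`), so `cls 0 g ∈ θ H`, `g ∈ J`. By `rstar`: `g = s + r`, `s ∈ SpGe`,
  `r ∈ Rb (c - 60) ⊆ J`, so `s ∈ J`, `s = 0` by `SpGe_inf_jac`, and by `cls_Rb`
  `cls 0 g = cls 1 h = θ (cls 0 h)`, `h ∈ Icl (c - 120)`, so `cls 0 g ∈ θ (S (c - 60))`.
* By induction on `N`: `S c ⊓ θ^N H ≤ θ^N (S (c - 60 N))` (`θ^N = dtPow N` is injective, `θ^N H ≤ θ H`).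
* Every `x ∈ Nlev b` has `θ^N x ∈ S (b + 60 N)` for some `N : ℕ` (true for the generators
  `cls k g`: `N ≥ -k`; larger `N` are also fine; closed under sums).
* So `Nlev b ⊓ H ≤ S b ≤ cls 0 (Icl (b - 60)) ⊔ θ H`.
* `specFil_Nlev`: `specFil W = (W ⊓ H) ⊔ θ H`; `≤` by `Nlev_inf_le`, `rstar`, `Rb_le_jac` and
  `cls_jac_mem`; `≥` since `monP p ∈ Icl (b - 60)` for `ordN p ≥ b - 60` (`mono_mem_Icl`) and
  `cls_mem_Nlev` with `k = 0`.
-/

namespace HV

theorem jac_of_theta {g : Germ 4} (h : cls f0 0 g ∈ (brieskorn f0).map (dtInv f0)) :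
    g ∈ jacobianIdeal f0 := by
  obtain ⟨y, hy, hyg⟩ := h
  obtain ⟨h', rfl⟩ := (mem_brieskorn f0).1 hy
  rw [dtInv_cls, zero_add] at hyg
  exact mem_jac_of_cls f0 13 mPow_le_jac hyg.symm

private noncomputable def VStrict_S (c : ℤ) : Submodule ℂ (GaussManin f0) :=
  ⨆ j : ℕ, (Icl (c - 60 - 60 * (j : ℤ))).map (cls f0 (j : ℤ))

private theorem VStrict_mem {c : ℤ} (j : ℕ) {g : Germ 4} (hg : g ∈ Icl (c - 60 - 60 * (j : ℤ))) :
    cls f0 (j : ℤ) g ∈ VStrict_S c :=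
  (le_iSup (fun j : ℕ => (Icl (c - 60 - 60 * (j : ℤ))).map (cls f0 (j : ℤ))) j)
    (Submodule.mem_map_of_mem hg)

private theorem VStrict_le {c : ℤ} {W : Submodule ℂ (GaussManin f0)}
    (h : ∀ (j : ℕ) (g : Germ 4), g ∈ Icl (c - 60 - 60 * (j : ℤ)) → cls f0 (j : ℤ) g ∈ W) :
    VStrict_S c ≤ W := by
  refine iSup_le fun j => ?_
  rintro _ ⟨g, hg, rfl⟩
  exact h j g hg

private theorem VStrict_A (c : ℤ) :
    VStrict_S c ≤ (Icl (c - 60)).map (cls f0 0) ⊔ (VStrict_S (c - 60)).map (dtInv f0) := by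
  refine VStrict_le fun j g hg => ?_
  rcases j with _ | j
  · refine Submodule.mem_sup_left ⟨g, ?_, rfl⟩
    convert hg using 2
    simp
  · refine Submodule.mem_sup_right ⟨cls f0 (j : ℤ) g, VStrict_mem j ?_, ?_⟩
    · convert hg using 2
      push_cast
      ring
    · rw [dtInv_cls]
      push_cast
      rfl

private theorem VStrict_C (c : ℤ) : VStrict_S c ≤ brieskorn f0 :=
  VStrict_le fun j g _ => cls_nat_mem_brieskorn f0 j g

private theorem VStrict_D {c : ℤ} {x : GaussManin f0} (hx : x ∈ VStrict_S c)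
    (hx' : x ∈ (brieskorn f0).map (dtInv f0)) : x ∈ (VStrict_S (c - 60)).map (dtInv f0) := by
  obtain ⟨a, ha, y, hy, rfl⟩ := Submodule.mem_sup.1 (VStrict_A c hx)
  obtain ⟨g, hg, rfl⟩ := ha
  have hy' : y ∈ (brieskorn f0).map (dtInv f0) := Submodule.map_mono (VStrict_C (c - 60)) hy
  have hg' : cls f0 0 g ∈ (brieskorn f0).map (dtInv f0) := by
    have := Submodule.sub_mem _ hx' hy'
    rwa [add_sub_cancel_right] at this
  have hJ := jac_of_theta hg'
  obtain ⟨s, hs, r, hr, hsr⟩ := Submodule.mem_sup.1 (rstar (c - 60) hg)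
  have hrJ : r ∈ jacobianIdeal f0 := Rb_le_jac _ hr
  have hsJ : s ∈ jacobianIdeal f0 := by
    have : s = g - r := by rw [← hsr, add_sub_cancel_right]
    rw [this]
    exact Ideal.sub_mem _ hJ hrJ
  have hs0 := SpGe_inf_jac hs hsJ
  rw [hs0, zero_add] at hsr
  rw [hsr] at hr
  obtain ⟨h, hh, hhg⟩ := cls_Rb (k := 0) hr
  refine Submodule.add_mem _ ⟨cls f0 ((0 : ℕ) : ℤ) h, VStrict_mem 0 ?_, ?_⟩ hy
  · convert hh using 2
    push_cast
    ring
  · rw [dtInv_cls, hhg]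
    rfl

private theorem VStrict_pow_mem (N : ℕ) {x : GaussManin f0} (hx : x ∈ brieskorn f0) :
    dtPow f0 (N : ℤ) x ∈ brieskorn f0 := by
  obtain ⟨g, rfl⟩ := (mem_brieskorn f0).1 hx
  rw [dtPow_cls, zero_add]
  exact cls_nat_mem_brieskorn f0 N g

private theorem VStrict_E (N : ℕ) : ∀ (c : ℤ) (x : GaussManin f0), x ∈ brieskorn f0 →
    dtPow f0 (N : ℤ) x ∈ VStrict_S c → x ∈ VStrict_S (c - 60 * (N : ℤ)) := by
  induction N with
  | zero =>
    intro c x _ h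
    rw [Nat.cast_zero, dtPow_zero] at h
    convert h using 2
    simp
  | succ N ih =>
    intro c x hx h
    have h1 : dtPow f0 ((N + 1 : ℕ) : ℤ) x = dtInv f0 (dtPow f0 (N : ℤ) x) := by
      rw [dtInv, dtPow_add]
      push_cast
      rw [add_comm]
    rw [h1] at h
    have h2 := VStrict_D h (Submodule.mem_map_of_mem (VStrict_pow_mem N hx))
    obtain ⟨y, hy, hyx⟩ := h2
    have h3 := dtPow_injective f0 1 hyx
    rw [h3] at hy
    have h4 := ih (c - 60) x hx hy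
    convert h4 using 2
    push_cast
    ring

private theorem VStrict_F {b : ℤ} {x : GaussManin f0} (hx : x ∈ Nlev b) :
    ∃ N : ℕ, ∀ N' : ℕ, N ≤ N' → dtPow f0 (N' : ℤ) x ∈ VStrict_S (b + 60 * (N' : ℤ)) := by
  let W : Submodule ℂ (GaussManin f0) :=
    { carrier := {x | ∃ N : ℕ, ∀ N' : ℕ, N ≤ N' →
        dtPow f0 (N' : ℤ) x ∈ VStrict_S (b + 60 * (N' : ℤ))}
      zero_mem' := ⟨0, fun N' _ => by rw [map_zero]; exact Submodule.zero_mem _⟩
      add_mem' := by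
        rintro x y ⟨N, hN⟩ ⟨M, hM⟩
        refine ⟨max N M, fun N' h => ?_⟩
        rw [map_add]
        exact Submodule.add_mem _ (hN N' ((le_max_left _ _).trans h))
          (hM N' ((le_max_right _ _).trans h))
      smul_mem' := by
        rintro a x ⟨N, hN⟩
        refine ⟨N, fun N' h => ?_⟩
        rw [map_smul]
        exact Submodule.smul_mem _ _ (hN N' h) }
  have h : Nlev b ≤ W := by
    refine Nlev_le fun k g hg => ⟨(-k).toNat, fun N' hN' => ?_⟩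
    obtain ⟨j, hj⟩ : ∃ j : ℕ, k + (N' : ℤ) = (j : ℤ) := by
      refine ⟨(k + N').toNat, (Int.toNat_of_nonneg ?_).symm⟩
      have := Int.self_le_toNat (-k)
      omega
    rw [dtPow_cls, hj]
    refine VStrict_mem j ?_
    convert hg using 2
    rw [← hj]
    ring
  exact h hx

theorem Nlev_inf_le (b : ℤ) : Nlev b ⊓ brieskorn f0 ≤
    (Icl (b - 60)).map (cls f0 0) ⊔ (brieskorn f0).map (dtInv f0) := by
  rintro x ⟨hx, hx'⟩
  obtain ⟨N, hN⟩ := VStrict_F hx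
  have h1 := VStrict_E N _ x hx' (hN N le_rfl)
  rw [add_sub_cancel_right] at h1
  have h2 : (Icl (b - 60)).map (cls f0 0) ⊔ (VStrict_S (b - 60)).map (dtInv f0) ≤
      (Icl (b - 60)).map (cls f0 0) ⊔ (brieskorn f0).map (dtInv f0) :=
    sup_le_sup le_rfl (Submodule.map_mono (VStrict_C _))
  exact h2 (VStrict_A b h1)

private theorem VStrict_SpGe_le (b : ℤ) : SpGe b ≤ Icl b := by
  refine Submodule.span_le.2 ?_
  rintro _ ⟨p, ⟨_, hp⟩, rfl⟩
  obtain ⟨x, y, z, w⟩ := p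
  simp only [ordN, le_min_iff] at hp
  exact mono_mem_Icl (forall_lin_ex (F := fun _ => b) hp.1.1 hp.1.2 hp.2.1 hp.2.2)

theorem specFil_Nlev (b : ℤ) : specFil f0 (Nlev b) =
    (SpGe (b - 60)).map (cls f0 0) ⊔ (brieskorn f0).map (dtInv f0) := by
  apply le_antisymm
  · refine sup_le ((Nlev_inf_le b).trans (sup_le ?_ le_sup_right)) le_sup_right
    refine (Submodule.map_mono (rstar (b - 60))).trans ?_
    rw [Submodule.map_sup]
    refine sup_le le_sup_left (le_trans ?_ le_sup_right)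
    rintro _ ⟨g, hg, rfl⟩
    exact cls_jac_mem f0 (Rb_le_jac _ hg)
  · refine sup_le (le_trans ?_ le_sup_left) le_sup_right
    rintro _ ⟨g, hg, rfl⟩
    refine ⟨cls_mem_Nlev ?_, ⟨g, rfl⟩⟩
    have := VStrict_SpGe_le _ hg
    convert this using 2
    simp

end HV
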